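import Pool.Agent.H631.ES.Defs

open Set Metric Filter Topology MeasureTheory

namespace ExtStar

noncomputable section

/-! TARGET: prove the following -/

theorem lap_min {d : ℕ} (u : E d → ℝ) (x : E d) (h : ContDiffAt ℝ 2 u x) (hm : IsLocalMin u x) :
    0 ≤ lap u x := by
  unfold lap
  refine Finset.sum_nonneg fun i _ => ?_
  generalize EuclideanSpace.single i (1 : ℝ) = e
  rw [iteratedFDeriv_two_apply]
  by_contra hneg
  push Not at hneg
  have hev : ∀ᶠ y in 𝓝 x, DifferentiableAt ℝ u y := by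
    have := h.eventually (by simp)
    filter_upwards [this] with y hy using hy.differentiableAt (by norm_num)
  have hl : ∀ t : ℝ, HasDerivAt (fun t : ℝ => x + t • e) e t := by
    intro t
    have := ((hasDerivAt_id t).smul_const e).const_add x
    simpa using this
  have hc : Tendsto (fun t : ℝ => x + t • e) (𝓝 0) (𝓝 x) := by
    have := (hl 0).continuousAt.tendsto
    simpa using this
  have hφ : ∀ᶠ t in 𝓝 (0 : ℝ), HasDerivAt (fun t : ℝ => u (x + t • e)) (fderiv ℝ u (x + t • e) e) t := by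
    filter_upwards [hc.eventually hev] with t ht
    exact ht.hasFDerivAt.comp_hasDerivAt t (hl t)
  have hφ' : deriv (fun t : ℝ => u (x + t • e)) =ᶠ[𝓝 0] fun t => fderiv ℝ u (x + t • e) e := by
    filter_upwards [hφ] with t ht using ht.deriv
  have hd2 : DifferentiableAt ℝ (fderiv ℝ u) x :=
    (h.fderiv_right (m := 1) (by norm_num)).differentiableAt (by norm_num)
  have h2 : HasDerivAt (fun t : ℝ => fderiv ℝ u (x + t • e) e) (fderiv ℝ (fderiv ℝ u) x e e) 0 := by
    have hd2' : HasFDerivAt (fderiv ℝ u) (fderiv ℝ (fderiv ℝ u) x) (x + (0 : ℝ) • e) := by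
      simpa using hd2.hasFDerivAt
    have h4 := hd2'.comp_hasDerivAt (0 : ℝ) (hl 0)
    exact h4.clm_apply (hasDerivAt_const (0 : ℝ) e) |>.congr_deriv (by simp)
  have h3 : deriv (deriv (fun t : ℝ => u (x + t • e))) 0 = fderiv ℝ (fderiv ℝ u) x e e := by
    rw [hφ'.deriv_eq, h2.deriv]
  have hmin : IsLocalMin (fun t : ℝ => u (x + t • e)) 0 := by
    have hm' : ∀ᶠ y in 𝓝 x, u x ≤ u y := hm
    have := hc.eventually hm'
    simpa [IsLocalMin, IsMinFilter] using this
  have hd0 : deriv (fun t : ℝ => u (x + t • e)) 0 = 0 := hmin.deriv_eq_zero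
  have hneg1 : deriv (fun t : ℝ => -u (x + t • e)) = fun t => -deriv (fun t : ℝ => u (x + t • e)) t := by
    funext t; exact deriv.fun_neg
  have hmax : IsLocalMin (fun t : ℝ => -u (x + t • e)) 0 := by
    apply isLocalMin_of_deriv_deriv_pos
    · rw [hneg1, deriv.fun_neg, h3]
      simpa using hneg
    · rw [hneg1]
      simp only
      rw [hd0, neg_zero]
    · exact (hφ.self_of_nhds).continuousAt.neg
  have hconst : (fun t : ℝ => u (x + t • e)) =ᶠ[𝓝 0] fun _ => u (x + (0 : ℝ) • e) := by
    filter_upwards [hmin, hmax] with t h5 h6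
    linarith
  have h7 : deriv (fun t : ℝ => u (x + t • e)) =ᶠ[𝓝 0] deriv (fun _ => u (x + (0 : ℝ) • e)) := hconst.deriv
  have h8 : deriv (deriv (fun t : ℝ => u (x + t • e))) 0 = 0 := by
    rw [h7.deriv_eq]; simp
  rw [h3] at h8
  linarith

end

end ExtStar
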