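import Pool.Agent.H631.ES.Defs
import Pool.Agent.H631.ES.X01

open Set Metric Filter Topology MeasureTheory

namespace ExtStar

noncomputable section

/-! TARGET: prove the following -/

theorem comp_compact {d : ℕ} (K : Set (E d)) (hK : IsCompact K) (z : E d → ℝ) (hz : ContinuousOn z K)
    (h : ∀ x ∈ K, z x < 0 → x ∈ interior K ∧ ContDiffAt ℝ 2 z x ∧ lap z x < 0) :
    ∀ x ∈ K, 0 ≤ z x := by

  intro y hy
  by_contra hneg
  push Not at hneg
  obtain ⟨x, hxK, hx⟩ := hK.exists_isMinOn ⟨y, hy⟩ hz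
  have hzx : z x < 0 := (hx hy).trans_lt hneg
  obtain ⟨hint, hcd, hlap⟩ := h x hxK hzx
  have hloc : IsLocalMin z x := by
    have h1 : K ∈ 𝓝 x := mem_interior_iff_mem_nhds.1 hint
    exact hx.isLocalMin h1
  have := lap_min z x hcd hloc
  linarith

end

end ExtStar
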