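import Pool.Agent.H631.ES.Defs

open Set Metric Filter Topology MeasureTheory

namespace ExtStar

noncomputable section

/-! TARGET: prove the following -/

theorem lap_congr {d : ℕ} (u v : E d → ℝ) (x : E d) (h : u =ᶠ[𝓝 x] v) : lap u x = lap v x := by
  unfold lap
  have h1 := (Filter.EventuallyEq.iteratedFDeriv ℝ h 2).eq_of_nhds
  rw [h1]

theorem lap_add {d : ℕ} (u v : E d → ℝ) (x : E d) (hu : ContDiffAt ℝ 2 u x)
    (hv : ContDiffAt ℝ 2 v x) : lap (fun y => u y + v y) x = lap u x + lap v x := by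
  unfold lap
  have h1 : iteratedFDeriv ℝ 2 (fun y => u y + v y) x =
      iteratedFDeriv ℝ 2 u x + iteratedFDeriv ℝ 2 v x := iteratedFDeriv_add_apply hu hv
  rw [h1, ← Finset.sum_add_distrib]
  rfl

theorem lap_sub {d : ℕ} (u v : E d → ℝ) (x : E d) (hu : ContDiffAt ℝ 2 u x)
    (hv : ContDiffAt ℝ 2 v x) : lap (fun y => u y - v y) x = lap u x - lap v x := by
  unfold lap
  have h1 : iteratedFDeriv ℝ 2 (fun y => u y - v y) x =
      iteratedFDeriv ℝ 2 u x - iteratedFDeriv ℝ 2 v x := iteratedFDeriv_sub_apply hu hv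
  rw [h1, ← Finset.sum_sub_distrib]
  rfl

theorem lap_smul {d : ℕ} (c : ℝ) (u : E d → ℝ) (x : E d) (hu : ContDiffAt ℝ 2 u x) :
    lap (fun y => c * u y) x = c * lap u x := by
  unfold lap
  have h1 : iteratedFDeriv ℝ 2 (fun y => c * u y) x = c • iteratedFDeriv ℝ 2 u x :=
    iteratedFDeriv_const_smul_apply' (a := c) hu
  rw [h1, Finset.mul_sum]
  rfl

theorem lap_const {d : ℕ} (c : ℝ) (x : E d) : lap (fun _ : E d => c) x = 0 := by
  unfold lap
  rw [iteratedFDeriv_const_of_ne (by norm_num) c]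
  simp

end

end ExtStar
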