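import Pool.Agent.H631.ES.Defs

open Set Metric Filter Topology MeasureTheory

namespace ExtStar

noncomputable section

/-! TARGET: prove the following -/

theorem lap_scale {d : ℕ} (k : ℝ) (u : E d → ℝ) (x : E d) (hu : ContDiffAt ℝ 2 u (k • x)) :
    lap (fun y => u (k • y)) x = k ^ 2 * lap u (k • x) := by
  by_cases hk : k = 0
  · subst hk
    have h0 : (fun y : E d => u ((0 : ℝ) • y)) = fun _ => u 0 := by
      funext y
      rw [zero_smul]
    unfold lap
    rw [h0, iteratedFDeriv_const_of_ne (by norm_num)]
    simp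
  · have key : iteratedFDeriv ℝ 2 (fun y : E d => u (k • y)) x
        = (iteratedFDeriv ℝ 2 u (k • x)).compContinuousLinearMap
          fun _ => ((LinearEquiv.smulOfNeZero ℝ (E d) k hk).toContinuousLinearEquiv : E d →L[ℝ] E d) := by
      have h1 := ContinuousLinearEquiv.iteratedFDerivWithin_comp_right
        (LinearEquiv.smulOfNeZero ℝ (E d) k hk).toContinuousLinearEquiv u
        (s := Set.univ) uniqueDiffOn_univ (x := x) (Set.mem_univ _) 2
      rw [Set.preimage_univ, iteratedFDerivWithin_univ, iteratedFDerivWithin_univ] at h1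
      exact h1
    unfold lap
    rw [Finset.mul_sum]
    refine Finset.sum_congr rfl fun i _ => ?_
    rw [key, ContinuousMultilinearMap.compContinuousLinearMap_apply]
    have h2 : (fun _ : Fin 2 => ((LinearEquiv.smulOfNeZero ℝ (E d) k hk).toContinuousLinearEquiv :
        E d →L[ℝ] E d) (EuclideanSpace.single i (1 : ℝ)))
        = fun _ : Fin 2 => k • (EuclideanSpace.single i (1 : ℝ) : E d) := rfl
    rw [h2]
    have h3 := (iteratedFDeriv ℝ 2 u (k • x)).map_smul_univ (fun _ : Fin 2 => k)
      (fun _ : Fin 2 => (EuclideanSpace.single i (1 : ℝ) : E d))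
    rw [h3]
    simp

theorem lap_shift {d : ℕ} (a : E d) (u : E d → ℝ) (x : E d) :
    lap (fun y => u (y + a)) x = lap u (x + a) := by
  unfold lap
  rw [iteratedFDeriv_comp_add_right]

end

end ExtStar
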