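import Pool.Agent.H631.ES.Defs
import Pool.Agent.H631.ES.X03

open Set Metric Filter Topology MeasureTheory

namespace ExtStar

noncomputable section

/-! TARGET: prove the following -/

theorem x05_second {d : ℕ} (u : E d → ℝ) (hu : ContDiff ℝ 2 u) (x e : E d) (g' : ℝ → ℝ) (g2 : ℝ)
    (h1 : ∀ t : ℝ, HasDerivAt (fun t : ℝ => u (x + t • e)) (g' t) t) (h2 : HasDerivAt g' g2 0) :
    iteratedFDeriv ℝ 2 u x (fun _ => e) = g2 := by
  rw [iteratedFDeriv_two_apply]
  have hline : ∀ t : ℝ, HasDerivAt (fun t : ℝ => x + t • e) e t := by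
    intro t
    have := ((hasDerivAt_id t).smul_const e).const_add x
    simpa using this
  have hd : Differentiable ℝ u := hu.differentiable (by norm_num)
  have hd2 : Differentiable ℝ (fderiv ℝ u) :=
    (hu.fderiv_right (m := 1) (by norm_num)).differentiable (by norm_num)
  have hg : g' = fun t : ℝ => fderiv ℝ u (x + t • e) e := by
    funext t
    have h3 : HasDerivAt (fun t : ℝ => u (x + t • e)) (fderiv ℝ u (x + t • e) e) t :=
      (hd (x + t • e)).hasFDerivAt.comp_hasDerivAt t (hline t)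
    exact (h1 t).unique h3
  have h4 : HasDerivAt (fun t : ℝ => fderiv ℝ u (x + t • e)) (fderiv ℝ (fderiv ℝ u) (x + (0:ℝ) • e) e) 0 :=
    (hd2 (x + (0:ℝ) • e)).hasFDerivAt.comp_hasDerivAt 0 (hline 0)
  have h5 := h4.clm_apply (hasDerivAt_const (0:ℝ) e)
  rw [hg] at h2
  have h6 := h2.unique h5
  rw [h6]
  simp

theorem x05_comp {d : ℕ} (φ φ' φ2 : ℝ → ℝ) (a x : E d) (h1 : ∀ s, HasDerivAt φ (φ' s) s)
    (h2 : ∀ s, HasDerivAt φ' (φ2 s) s) (hc : ContDiff ℝ 2 (fun y : E d => φ (‖y - a‖ ^ 2))) :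
    lap (fun y : E d => φ (‖y - a‖ ^ 2)) x =
      4 * φ2 (‖x - a‖ ^ 2) * ‖x - a‖ ^ 2 + 2 * (d : ℝ) * φ' (‖x - a‖ ^ 2) := by
  unfold lap
  have key : ∀ i : Fin d, iteratedFDeriv ℝ 2 (fun y : E d => φ (‖y - a‖ ^ 2)) x
      (fun _ => EuclideanSpace.single i (1 : ℝ)) =
      4 * φ2 (‖x - a‖ ^ 2) * ((x - a) i) ^ 2 + 2 * φ' (‖x - a‖ ^ 2) := by
    intro i
    set e : E d := EuclideanSpace.single i (1 : ℝ) with he
    set w : ℝ := (x - a) i with hw
    set N : ℝ := ‖x - a‖ ^ 2 with hN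
    have hnorm : ∀ t : ℝ, ‖x + t • e - a‖ ^ 2 = N + 2 * t * w + t ^ 2 := by
      intro t
      have h3 : x + t • e - a = (x - a) + t • e := by abel
      have hee : ‖e‖ = 1 := by rw [he]; simp
      have hin : inner ℝ (x - a) e = w := by
        rw [he, EuclideanSpace.inner_single_right]
        simp [hw]
      rw [h3, norm_add_sq_real, inner_smul_right, norm_smul, hee, hin, mul_one, Real.norm_eq_abs,
        sq_abs, hN]
      ring
    have hNd : ∀ t : ℝ, HasDerivAt (fun t : ℝ => N + 2 * t * w + t ^ 2) (2 * w + 2 * t) t := by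
      intro t
      have h4 := (((((hasDerivAt_id t).const_mul 2).mul_const w).const_add N).add
        ((hasDerivAt_id t).pow 2))
      refine h4.congr_deriv ?_
      simp
    refine x05_second _ hc x e (fun t => φ' (N + 2 * t * w + t ^ 2) * (2 * w + 2 * t)) _ ?_ ?_
    · intro t
      have h5 : (fun t : ℝ => (fun y : E d => φ (‖y - a‖ ^ 2)) (x + t • e)) =
          fun t : ℝ => φ (N + 2 * t * w + t ^ 2) := by
        funext t
        simp only [hnorm t]
      rw [h5]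
      exact (h1 _).comp t (hNd t)
    · have h6 : HasDerivAt (fun t : ℝ => φ' (N + 2 * t * w + t ^ 2))
          (φ2 (N + 2 * 0 * w + 0 ^ 2) * (2 * w + 2 * 0)) 0 := (h2 _).comp 0 (hNd 0)
      have h7 : HasDerivAt (fun t : ℝ => 2 * w + 2 * t) 2 0 := by
        have := ((hasDerivAt_id (0:ℝ)).const_mul 2).const_add (2 * w)
        simpa using this
      refine (h6.mul h7).congr_deriv ?_
      have h8 : N + 2 * 0 * w + 0 ^ 2 = N := by ring
      rw [h8]
      ring
  rw [Finset.sum_congr rfl (fun i _ => key i), Finset.sum_add_distrib, ← Finset.mul_sum]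
  have h9 : ∑ i : Fin d, ((x - a) i) ^ 2 = ‖x - a‖ ^ 2 := by
    rw [EuclideanSpace.norm_sq_eq]
    refine Finset.sum_congr rfl fun i _ => ?_
    rw [Real.norm_eq_abs, sq_abs]
  rw [h9]
  simp only [Finset.sum_const, Finset.card_univ, Fintype.card_fin, nsmul_eq_mul]
  ring

theorem x05_cd {d : ℕ} (a : E d) : ContDiff ℝ 2 (fun y : E d => ‖y - a‖ ^ 2) :=
  (contDiff_id.sub contDiff_const).norm_sq ℝ

theorem lap_normsq {d : ℕ} (a x : E d) : lap (fun y : E d => ‖y - a‖ ^ 2) x = 2 * (d : ℝ) := by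
  have h := x05_comp (fun s => s) (fun _ => 1) (fun _ => 0) a x (fun s => hasDerivAt_id s)
    (fun s => hasDerivAt_const s 1) (x05_cd a)
  rw [h]
  ring

theorem lap_gauss {d : ℕ} (α : ℝ) (a x : E d) :
    lap (fun y : E d => Real.exp (-(α * ‖y - a‖ ^ 2))) x =
      (4 * α ^ 2 * ‖x - a‖ ^ 2 - 2 * (d : ℝ) * α) * Real.exp (-(α * ‖x - a‖ ^ 2)) := by
  have hE : ∀ s : ℝ, HasDerivAt (fun s : ℝ => Real.exp (-(α * s))) (-α * Real.exp (-(α * s))) s := by
    intro s
    have h1 : HasDerivAt (fun s : ℝ => -(α * s)) (-α) s := by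
      exact (((hasDerivAt_id s).const_mul α).neg).congr_deriv (by simp)
    refine h1.exp.congr_deriv ?_
    ring
  have h := x05_comp (fun s => Real.exp (-(α * s))) (fun s => -α * Real.exp (-(α * s)))
    (fun s => -α * (-α * Real.exp (-(α * s)))) a x hE (fun s => (hE s).const_mul (-α))
    (Real.contDiff_exp.comp ((contDiff_const.mul (x05_cd a)).neg))
  rw [h]
  ring

theorem lap_quart {d : ℕ} (R : ℝ) (a x : E d) :
    lap (fun y : E d => (R ^ 2 - ‖y - a‖ ^ 2) ^ 2) x =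
      8 * ‖x - a‖ ^ 2 - 4 * (d : ℝ) * (R ^ 2 - ‖x - a‖ ^ 2) := by
  have h0 : ∀ s : ℝ, HasDerivAt (fun s : ℝ => R ^ 2 - s) (-1) s := by
    intro s
    exact (hasDerivAt_id s).const_sub (R ^ 2)
  have h1 : ∀ s : ℝ, HasDerivAt (fun s : ℝ => (R ^ 2 - s) ^ 2) (-2 * (R ^ 2 - s)) s := by
    intro s
    refine ((h0 s).pow 2).congr_deriv ?_
    simp
  have h2 : ∀ s : ℝ, HasDerivAt (fun s : ℝ => -2 * (R ^ 2 - s)) 2 s := by
    intro s
    refine ((h0 s).const_mul (-2)).congr_deriv ?_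
    norm_num
  have h := x05_comp (fun s => (R ^ 2 - s) ^ 2) (fun s => -2 * (R ^ 2 - s)) (fun _ => 2) a x h1 h2
    ((contDiff_const.sub (x05_cd a)).pow 2)
  rw [h]
  ring

end

end ExtStar
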