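import Pool.Agent.H631.ES.Defs

open Set Metric Filter Topology MeasureTheory

namespace ExtStar

noncomputable section

/-! TARGET: prove the following -/

theorem ext_C2 {d : ℕ} (p : E d → ℝ) (y : E d) (ρ' ρ : ℝ) (h0 : 0 < ρ') (h1 : ρ' < ρ)
    (hp : ContDiffOn ℝ 2 p (ball y ρ)) :
    ∃ P : E d → ℝ, ContDiff ℝ 2 P ∧ ∀ x ∈ closedBall y ρ', P =ᶠ[𝓝 x] p := by
  let g : ContDiffBump y := ⟨(2 * ρ' + ρ) / 3, (ρ' + 2 * ρ) / 3, by linarith, by linarith⟩
  refine ⟨fun x => g x * p x, ?_, ?_⟩
  · rw [contDiff_iff_contDiffAt]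
    intro x
    by_cases hx : x ∈ ball y ρ
    · exact g.contDiffAt.mul (hp.contDiffAt (isOpen_ball.mem_nhds hx))
    · have hd : ρ ≤ dist x y := by simpa using hx
      have hev : (fun z => g z * p z) =ᶠ[𝓝 x] fun _ => (0 : ℝ) := by
        have hopen : IsOpen {z : E d | (ρ' + 2 * ρ) / 3 < dist z y} :=
          isOpen_lt continuous_const (continuous_id.dist continuous_const)
        have hmem : x ∈ {z : E d | (ρ' + 2 * ρ) / 3 < dist z y} := by
          show (ρ' + 2 * ρ) / 3 < dist x y
          linarith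
        filter_upwards [hopen.mem_nhds hmem] with z hz
        have hz' : (ρ' + 2 * ρ) / 3 < dist z y := hz
        have h2 : g z = 0 := g.zero_of_le_dist hz'.le
        rw [h2, zero_mul]
      exact contDiffAt_const.congr_of_eventuallyEq hev
  · intro x hx
    have hd : dist x y ≤ ρ' := mem_closedBall.1 hx
    have hmem : x ∈ ball y ((2 * ρ' + ρ) / 3) := by
      rw [mem_ball]
      linarith
    filter_upwards [isOpen_ball.mem_nhds hmem] with z hz
    have h2 : g z = 1 := g.one_of_mem_closedBall (ball_subset_closedBall hz)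
    rw [h2, one_mul]

end

end ExtStar
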