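import Pool.Agent.H631.ES.Defs

open Set Metric Filter Topology MeasureTheory

namespace ExtStar

noncomputable section


theorem hasDerivAt_max4 (t : ℝ) : HasDerivAt (fun t : ℝ => (max 0 t) ^ 4) (4 * (max 0 t) ^ 3) t := by
  rcases lt_trichotomy t 0 with h | h | h
  · have h1 : (fun t : ℝ => (max 0 t) ^ 4) =ᶠ[𝓝 t] fun _ => (0 : ℝ) := by
      filter_upwards [Iio_mem_nhds h] with s hs
      rw [max_eq_left (le_of_lt hs)]
      norm_num
    rw [max_eq_left h.le]
    have h2 : HasDerivAt (fun _ : ℝ => (0 : ℝ)) (4 * (0 : ℝ) ^ 3) t := by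
      simpa using hasDerivAt_const t (0 : ℝ)
    exact h2.congr_of_eventuallyEq h1
  · subst h
    have hO : (fun t : ℝ => (max 0 t) ^ 4) =O[𝓝 (0 : ℝ)] fun x => ‖x - 0‖ ^ 4 := by
      apply Asymptotics.IsBigO.of_bound 1
      filter_upwards with x
      rw [sub_zero, one_mul, norm_pow, norm_pow, norm_norm]
      apply pow_le_pow_left₀ (norm_nonneg _)
      rw [Real.norm_eq_abs, Real.norm_eq_abs, abs_of_nonneg (le_max_left _ _)]
      exact max_le (abs_nonneg _) (le_abs_self _)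
    have h2 := (hO.hasFDerivAt (𝕜 := ℝ) (by norm_num : 1 < 4)).hasDerivAt
    simpa using h2
  · have h1 : (fun t : ℝ => (max 0 t) ^ 4) =ᶠ[𝓝 t] fun s => s ^ 4 := by
      filter_upwards [Ioi_mem_nhds h] with s hs
      rw [max_eq_right (le_of_lt hs)]
    rw [max_eq_right h.le]
    have h2 : HasDerivAt (fun s : ℝ => s ^ 4) (4 * t ^ 3) t := by
      simpa using hasDerivAt_pow 4 t
    exact h2.congr_of_eventuallyEq h1

theorem contDiff_max4 : ContDiff ℝ 1 (fun t : ℝ => (max 0 t) ^ 4) := by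
  rw [contDiff_one_iff_deriv]
  refine ⟨fun t => (hasDerivAt_max4 t).differentiableAt, ?_⟩
  have : deriv (fun t : ℝ => (max 0 t) ^ 4) = fun t => 4 * (max 0 t) ^ 3 :=
    funext fun t => (hasDerivAt_max4 t).deriv
  rw [this]
  fun_prop



/-! TARGET: prove the following -/

theorem eta_facts (d : ℕ) : Continuous (eta (d := d)) ∧ Continuous (wgt (d := d)) ∧
    ContDiff ℝ 1 (wgt (d := d)) ∧ (∀ x : E d, 0 ≤ eta x) ∧ (∀ x : E d, 0 ≤ wgt x) ∧
    (∀ x : E d, wgt x ≤ eta x / 8) ∧ (∀ x : E d, 1 ≤ ‖x‖ → eta x = 0 ∧ wgt x = 0) ∧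
    0 < ∫ x : E d, eta x := by
  have hce : Continuous (eta (d := d)) := by
    unfold eta
    fun_prop
  have hz : ∀ x : E d, 1 ≤ ‖x‖ → max 0 (1 - ‖x‖ ^ 2) = 0 := by
    intro x hx
    apply max_eq_left
    nlinarith
  have he0 : ∀ x : E d, 0 ≤ eta x := by
    intro x
    unfold eta
    have : (0 : ℝ) ≤ max 0 (1 - ‖x‖ ^ 2) := le_max_left _ _
    positivity
  refine ⟨hce, ?_, ?_, he0, ?_, ?_, ?_, ?_⟩
  · unfold wgt
    fun_prop
  · have h1 : ContDiff ℝ 1 (fun x : E d => 1 - ‖x‖ ^ 2) := contDiff_const.sub (contDiff_norm_sq ℝ)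
    have h2 := (contDiff_max4.comp h1).div_const 8
    exact h2
  · intro x
    unfold wgt
    have : (0 : ℝ) ≤ max 0 (1 - ‖x‖ ^ 2) := le_max_left _ _
    positivity
  · intro x
    unfold wgt eta
    have h0 : (0 : ℝ) ≤ max 0 (1 - ‖x‖ ^ 2) := le_max_left _ _
    have h1 : max 0 (1 - ‖x‖ ^ 2) ≤ 1 := max_le zero_le_one (by nlinarith [sq_nonneg ‖x‖])
    apply div_le_div_of_nonneg_right _ (by norm_num)
    exact pow_le_pow_of_le_one h0 h1 (by norm_num)
  · intro x hx
    unfold eta wgt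
    rw [hz x hx]
    norm_num
  · apply Continuous.integral_pos_of_hasCompactSupport_nonneg_nonzero (x := (0 : E d)) hce
    · apply HasCompactSupport.intro (isCompact_closedBall (0 : E d) 1)
      intro x hx
      rw [mem_closedBall_zero_iff] at hx
      push Not at hx
      unfold eta
      rw [hz x hx.le]
      norm_num
    · exact he0
    · unfold eta
      simp

end

end ExtStar
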