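import Pool.Agent.H631.ES.Defs
import Pool.Agent.H631.ES.X07

open Set Metric Filter Topology MeasureTheory

namespace ExtStar

noncomputable section

/-! TARGET: prove the following -/

theorem mean_deriv {d : ℕ} (P : E d → ℝ) (hP : ContDiff ℝ 2 P) (y : E d) (t : ℝ) :
    HasDerivAt (fun s : ℝ => ∫ x : E d, P (y + s • x) * eta x)
      (∫ x : E d, fderiv ℝ P (y + t • x) x * eta x) t := by
  obtain ⟨hec, -, -, he0, -, -, he1, -⟩ := eta_facts d
  have hcs : HasCompactSupport (eta (d := d)) := by
    apply HasCompactSupport.intro (isCompact_closedBall (0 : E d) 1)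
    intro x hx
    apply (he1 x _).1
    have : ¬ ‖x‖ ≤ 1 := by simpa using hx
    exact (not_le.1 this).le
  have hfc : Continuous (fun z => fderiv ℝ P z) := hP.continuous_fderiv (by norm_num)
  obtain ⟨B, hB⟩ := (isCompact_closedBall y (|t| + 2)).exists_bound_of_continuousOn hfc.continuousOn
  have hB0 : 0 ≤ B := (norm_nonneg _).trans (hB y (mem_closedBall_self (by positivity)))
  have hcont : ∀ s : ℝ, Continuous (fun x : E d => P (y + s • x) * eta x) := fun s =>
    (hP.continuous.comp (continuous_const.add (continuous_id.const_smul s))).mul hec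
  have hcont' : ∀ s : ℝ, Continuous (fun x : E d => fderiv ℝ P (y + s • x) x * eta x) := by
    intro s
    have h1 : Continuous (fun x : E d => fderiv ℝ P (y + s • x)) :=
      hfc.comp (continuous_const.add (continuous_id.const_smul s))
    exact (h1.clm_apply continuous_id).mul hec
  have key := hasDerivAt_integral_of_dominated_loc_of_deriv_le (μ := (volume : Measure (E d)))
    (F := fun s x => P (y + s • x) * eta x) (F' := fun s x => fderiv ℝ P (y + s • x) x * eta x)
    (bound := fun x => B * eta x) (x₀ := t) (s := ball t 1) (ball_mem_nhds t one_pos)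
    (Eventually.of_forall fun s => (hcont s).aestronglyMeasurable)
    ((hcont t).integrable_of_hasCompactSupport (hcs.mul_left))
    (hcont' t).aestronglyMeasurable
    (Eventually.of_forall fun x s hs => by
      by_cases hx : 1 ≤ ‖x‖
      · simp [(he1 x hx).1]
      · push Not at hx
        have hs' : |s| ≤ |t| + 1 := by
          have h1 : |s - t| < 1 := by simpa [Real.dist_eq] using hs
          have h2 : |s| ≤ |s - t| + |t| := by
            have := abs_add_le (s - t) t
            simpa using this
          linarith
        have hmem : y + s • x ∈ closedBall y (|t| + 2) := by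
          rw [mem_closedBall, dist_eq_norm, add_sub_cancel_left, norm_smul, Real.norm_eq_abs]
          have : |s| * ‖x‖ ≤ (|t| + 1) * 1 :=
            mul_le_mul hs' hx.le (norm_nonneg _) (by positivity)
          linarith
        rw [norm_mul, Real.norm_of_nonneg (he0 x)]
        apply mul_le_mul_of_nonneg_right _ (he0 x)
        calc ‖fderiv ℝ P (y + s • x) x‖ ≤ ‖fderiv ℝ P (y + s • x)‖ * ‖x‖ :=
              ContinuousLinearMap.le_opNorm _ _
          _ ≤ B * 1 := mul_le_mul (hB _ hmem) hx.le (norm_nonneg _) hB0
          _ = B := mul_one B)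
    ((hec.integrable_of_hasCompactSupport hcs).const_mul B)
    (Eventually.of_forall fun x s _ => by
      have h1 : HasDerivAt (fun s : ℝ => y + s • x) x s := by
        simpa using ((hasDerivAt_id s).smul_const x).const_add y
      have h2 : HasFDerivAt P (fderiv ℝ P (y + s • x)) (y + s • x) :=
        ((hP.differentiable (by norm_num)) _).hasFDerivAt
      exact (h2.comp_hasDerivAt s h1).mul_const (eta x))
  exact key.2

end

end ExtStar
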