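import Pool.Agent.H631.ES.Defs
import Pool.Agent.H631.ES.X07

open Set Metric Filter Topology MeasureTheory

namespace ExtStar

noncomputable section

/-! TARGET: prove the following -/

theorem mi_pow4 (s : ℝ) : HasDerivAt (fun s : ℝ => (max 0 s) ^ 4) (4 * (max 0 s) ^ 3) s := by
  rcases lt_trichotomy s 0 with h | h | h
  · have e : (fun s : ℝ => (max 0 s) ^ 4) =ᶠ[𝓝 s] fun _ => (0:ℝ) := by
      filter_upwards [Iio_mem_nhds h] with t ht
      rw [max_eq_left (le_of_lt ht)]; norm_num
    rw [max_eq_left h.le]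
    have := (hasDerivAt_const s (0:ℝ)).congr_of_eventuallyEq e
    simpa using this
  · subst h
    rw [hasDerivAt_iff_tendsto_slope_zero]
    have e0 : 4 * (max 0 (0:ℝ)) ^ 3 = 0 := by norm_num
    rw [e0]
    refine squeeze_zero_norm (a := fun t => |t| ^ 3) ?_ ?_
    · intro t
      simp only [zero_add, max_self]
      rw [norm_smul, norm_inv, Real.norm_eq_abs, Real.norm_eq_abs]
      have h1 : (max 0 t) ^ 4 ≤ |t| ^ 4 := by
        apply pow_le_pow_left₀ (le_max_left _ _)
        exact max_le (abs_nonneg _) (le_abs_self _)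
      have h2 : |(max 0 t) ^ 4 - (0:ℝ) ^ 4| = (max 0 t) ^ 4 := by
        rw [zero_pow (by norm_num), sub_zero, abs_of_nonneg (by positivity)]
      rw [h2]
      by_cases ht : t = 0
      · subst ht; simp
      · have h3 : 0 < |t| := abs_pos.2 ht
        calc |t|⁻¹ * (max 0 t) ^ 4 ≤ |t|⁻¹ * |t| ^ 4 := by
              exact mul_le_mul_of_nonneg_left h1 (by positivity)
          _ = |t| ^ 3 := by field_simp
    · have : Tendsto (fun t : ℝ => |t| ^ 3) (𝓝 0) (𝓝 0) := by
        have hc : Continuous (fun t : ℝ => |t| ^ 3) := by fun_prop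
        have := hc.tendsto 0
        simpa using this
      exact this.mono_left nhdsWithin_le_nhds
  · have e : (fun s : ℝ => (max 0 s) ^ 4) =ᶠ[𝓝 s] fun t => t ^ 4 := by
      filter_upwards [Ioi_mem_nhds h] with t ht
      rw [max_eq_right (le_of_lt ht)]
    rw [max_eq_right h.le]
    have := (hasDerivAt_pow 4 s).congr_of_eventuallyEq e
    simpa using this

theorem mi_wgt {d : ℕ} (x : E d) (v : E d) : fderiv ℝ (wgt (d := d)) x v = -(eta x * inner ℝ x v) := by
  have h1 : HasFDerivAt (fun x : E d => 1 - ‖x‖ ^ 2) (-(2 • innerSL ℝ x)) x :=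
    ((hasStrictFDerivAt_norm_sq x).hasFDerivAt).const_sub 1
  have h2 := ((mi_pow4 (1 - ‖x‖ ^ 2)).div_const 8).comp_hasFDerivAt x h1
  have h3 : HasFDerivAt (wgt (d := d)) ((4 * (max 0 (1 - ‖x‖ ^ 2)) ^ 3 / 8) • (-(2 • innerSL ℝ x) : E d →L[ℝ] ℝ)) x := h2
  rw [h3.fderiv]
  simp only [ContinuousLinearMap.smul_apply, ContinuousLinearMap.neg_apply, innerSL_apply_apply,
    smul_eq_mul, nsmul_eq_mul, eta]
  push_cast
  ring

theorem mean_ibp {d : ℕ} (P : E d → ℝ) (hP : ContDiff ℝ 2 P) (y : E d) (t : ℝ) :
    (∫ x : E d, fderiv ℝ P (y + t • x) x * eta x) = t * ∫ x : E d, lap P (y + t • x) * wgt x := by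
  obtain ⟨hce, hcw, hw1, -, -, -, hz, -⟩ := eta_facts d
  have hP1 : ContDiff ℝ 1 (fderiv ℝ P) := hP.fderiv_right (m := 1) (by norm_num)
  have hc1 : Continuous (fderiv ℝ P) := hP1.continuous
  have hc2 : Continuous (fderiv ℝ (fderiv ℝ P)) := hP1.continuous_fderiv (by norm_num)
  set e : Fin d → E d := fun i => EuclideanSpace.single i (1 : ℝ) with he
  have hzc : Continuous (fun x : E d => y + t • x) := by fun_prop
  have hint : ∀ g : E d → ℝ, Continuous g → (∀ x, 1 ≤ ‖x‖ → g x = 0) → Integrable g := by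
    intro g hg h0
    refine hg.integrable_of_hasCompactSupport (HasCompactSupport.intro (isCompact_closedBall (0 : E d) 1) ?_)
    intro x hx
    apply h0
    rw [mem_closedBall, dist_zero_right, not_le] at hx
    exact hx.le
  have hF : ∀ (i : Fin d) (x v : E d), HasFDerivAt (fun x => fderiv ℝ P (y + t • x) (e i))
      (((fderiv ℝ (fderiv ℝ P) (y + t • x)).comp (t • ContinuousLinearMap.id ℝ (E d))).flip (e i)) x := by
    intro i x v
    have h0 : HasFDerivAt (fun x : E d => y + t • x) (t • ContinuousLinearMap.id ℝ (E d)) x :=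
      ((hasFDerivAt_id x).const_smul t).const_add y
    have h1 : HasFDerivAt (fun x => fderiv ℝ P (y + t • x))
        ((fderiv ℝ (fderiv ℝ P) (y + t • x)).comp (t • ContinuousLinearMap.id ℝ (E d))) x :=
      HasFDerivAt.comp x ((hP1.differentiable (by norm_num) (y + t • x)).hasFDerivAt) h0
    have h2 := h1.clm_apply (hasFDerivAt_const (e i) x)
    simpa using h2
  have hFd : ∀ (i : Fin d) (x : E d), fderiv ℝ (fun x => fderiv ℝ P (y + t • x) (e i)) x (e i)
      = t * fderiv ℝ (fderiv ℝ P) (y + t • x) (e i) (e i) := by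
    intro i x
    rw [(hF i x 0).fderiv]
    simp
  have hwd : ∀ (i : Fin d) (x : E d), fderiv ℝ (wgt (d := d)) x (e i) = -(eta x * x i) := by
    intro i x
    rw [mi_wgt]
    congr 2
    simp [he, EuclideanSpace.inner_single_right]
  have hcF : ∀ i, Continuous (fun x => fderiv ℝ P (y + t • x) (e i)) := fun i =>
    (hc1.comp hzc).clm_apply continuous_const
  have hcD : ∀ i, Continuous (fun x => fderiv ℝ (fderiv ℝ P) (y + t • x) (e i) (e i)) := fun i =>
    ((hc2.comp hzc).clm_apply continuous_const).clm_apply continuous_const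
  have hci : ∀ i : Fin d, Continuous (fun x : E d => x i) := fun i => by fun_prop
  have key : ∀ i, ∫ x, fderiv ℝ P (y + t • x) (e i) * (x i * eta x)
      = ∫ x, t * (fderiv ℝ (fderiv ℝ P) (y + t • x) (e i) (e i) * wgt x) := by
    intro i
    have hI := integral_mul_fderiv_eq_neg_fderiv_mul_of_integrable (μ := (volume : Measure (E d)))
      (f := fun x => fderiv ℝ P (y + t • x) (e i)) (g := wgt (d := d)) (v := e i) ?_ ?_ ?_ ?_ ?_
    · simp only [hwd, hFd] at hI
      have e1 : ∫ x, fderiv ℝ P (y + t • x) (e i) * (x i * eta x)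
          = - ∫ x, fderiv ℝ P (y + t • x) (e i) * -(eta x * x i) := by
        rw [← integral_neg]
        congr 1
        funext x
        ring
      rw [e1, hI, neg_neg]
      congr 1
      funext x
      ring
    · simp only [hFd]
      refine hint _ ((continuous_const.mul (hcD i)).mul hcw) (fun x hx => ?_)
      rw [(hz x hx).2, mul_zero]
    · simp only [hwd]
      refine hint _ ((hcF i).mul (hce.mul (hci i)).neg) (fun x hx => ?_)
      rw [(hz x hx).1]; ring
    · refine hint _ ((hcF i).mul hcw) (fun x hx => ?_)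
      rw [(hz x hx).2, mul_zero]
    · intro x _
      exact (hF i x 0).differentiableAt
    · intro x _
      exact hw1.differentiable (by norm_num) x
  have hsum : ∀ x : E d, fderiv ℝ P (y + t • x) x * eta x
      = ∑ i, fderiv ℝ P (y + t • x) (e i) * (x i * eta x) := by
    intro x
    have hx : x = ∑ i, x i • e i := by
      have := (EuclideanSpace.basisFun (Fin d) ℝ).sum_repr x
      conv_lhs => rw [← this]
      refine Finset.sum_congr rfl (fun i _ => ?_)
      rw [EuclideanSpace.basisFun_repr, EuclideanSpace.basisFun_apply]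
    have h1 : fderiv ℝ P (y + t • x) x = ∑ i, x i * fderiv ℝ P (y + t • x) (e i) := by
      have h2 : ∀ L : E d →L[ℝ] ℝ, L x = ∑ i, x i * L (e i) := by
        intro L
        conv_lhs => rw [hx]
        rw [map_sum]
        refine Finset.sum_congr rfl (fun i _ => ?_)
        rw [map_smul, smul_eq_mul]
      exact h2 _
    rw [h1, Finset.sum_mul]
    exact Finset.sum_congr rfl (fun i _ => by ring)
  have hlap : ∀ x : E d, lap P (y + t • x) * wgt x
      = ∑ i, fderiv ℝ (fderiv ℝ P) (y + t • x) (e i) (e i) * wgt x := by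
    intro x
    rw [lap, Finset.sum_mul]
    refine Finset.sum_congr rfl (fun i _ => ?_)
    rw [iteratedFDeriv_two_apply]
  simp only [hsum, hlap]
  rw [integral_finset_sum, integral_finset_sum, Finset.mul_sum]
  · refine Finset.sum_congr rfl (fun i _ => ?_)
    rw [key i, integral_const_mul]
  · intro i _
    refine hint _ ((hcD i).mul hcw) (fun x hx => ?_)
    rw [(hz x hx).2, mul_zero]
  · intro i _
    refine hint _ ((hcF i).mul ((hci i).mul hce)) (fun x hx => ?_)
    rw [(hz x hx).1]; ring

end

end ExtStar
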