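import Pool.Agent.H631.ES.Defs
import Pool.Agent.H631.ES.X07
import Pool.Agent.H631.ES.X08
import Pool.Agent.H631.ES.X09

open Set Metric Filter Topology MeasureTheory

namespace ExtStar

noncomputable section

theorem mean_comp_int {d : ℕ} (P : E d → ℝ) (hP : Continuous P) (y : E d) (t : ℝ) :
    Integrable (fun x : E d => P (y + t • x) * eta x) := by
  obtain ⟨he, -, -, -, -, -, h0, -⟩ := eta_facts d
  apply Continuous.integrable_of_hasCompactSupport
  · exact (hP.comp (by fun_prop)).mul he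
  · apply HasCompactSupport.of_support_subset_isCompact (isCompact_closedBall (0 : E d) 1)
    intro x hx
    by_contra hcon
    apply hx
    rw [mem_closedBall, dist_zero_right, not_le] at hcon
    simp only
    rw [(h0 x hcon.le).1, mul_zero]

theorem mean_comp_bound {d : ℕ} (L : ℝ) (hL : 0 ≤ L) (P : E d → ℝ) (hP : ContDiff ℝ 2 P) (y : E d)
    (ρ : ℝ) (h1 : ρ ≤ 1)
    (h : ∀ x ∈ closedBall y ρ, 0 ≤ P x ∧ |lap P x| ≤ L * P x) (t : ℝ) (ht0 : 0 ≤ t) (ht : t ≤ ρ) :
    |t * ∫ x : E d, lap P (y + t • x) * wgt x| ≤ L * ∫ x : E d, P (y + t • x) * eta x := by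
  obtain ⟨he, hw, -, he0, hw0, hwe, h0, -⟩ := eta_facts d
  have hmem : ∀ x : E d, ‖x‖ < 1 → y + t • x ∈ closedBall y ρ := by
    intro x hx
    rw [mem_closedBall, dist_eq_norm, add_sub_cancel_left, norm_smul, Real.norm_eq_abs,
      abs_of_nonneg ht0]
    nlinarith [norm_nonneg x]
  have hpt : ∀ x : E d, ‖lap P (y + t • x) * wgt x‖ ≤ L * (P (y + t • x) * eta x) := by
    intro x
    rcases le_or_gt 1 (‖x‖) with hx | hx
    · rw [(h0 x hx).1, (h0 x hx).2]; simp
    · obtain ⟨hp, hl⟩ := h _ (hmem x hx)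
      rw [norm_mul, Real.norm_eq_abs, Real.norm_eq_abs, abs_of_nonneg (hw0 x)]
      have hwe' : wgt x ≤ eta x := by
        have := hwe x; have := he0 x; linarith
      calc |lap P (y + t • x)| * wgt x ≤ (L * P (y + t • x)) * eta x :=
            mul_le_mul hl hwe' (hw0 x) (mul_nonneg hL hp)
        _ = L * (P (y + t • x) * eta x) := by ring
  have hint := mean_comp_int P hP.continuous y t
  have hn := norm_integral_le_of_norm_le (hint.const_mul L) (Filter.Eventually.of_forall hpt)
  rw [integral_const_mul, Real.norm_eq_abs] at hn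
  rw [abs_mul, abs_of_nonneg ht0]
  have ht1 : t ≤ 1 := ht.trans h1
  calc t * |∫ x : E d, lap P (y + t • x) * wgt x| ≤ 1 * |∫ x : E d, lap P (y + t • x) * wgt x| :=
        mul_le_mul_of_nonneg_right ht1 (abs_nonneg _)
    _ ≤ _ := by rw [one_mul]; exact hn

/-! TARGET: prove the following -/

theorem mean_comp {d : ℕ} (L : ℝ) (hL : 0 ≤ L) (P : E d → ℝ) (hP : ContDiff ℝ 2 P) (y : E d) (ρ : ℝ)
    (h0 : 0 ≤ ρ) (h1 : ρ ≤ 1)
    (h : ∀ x ∈ closedBall y ρ, 0 ≤ P x ∧ |lap P x| ≤ L * P x) :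
    Real.exp (-L) * P y * (∫ x : E d, eta x) ≤ (∫ x : E d, P (y + ρ • x) * eta x) ∧
      (∫ x : E d, P (y + ρ • x) * eta x) ≤ Real.exp L * P y * (∫ x : E d, eta x) := by
  obtain ⟨he, hw, -, he0, hw0, hwe, hz, hpos⟩ := eta_facts d
  set A : ℝ → ℝ := fun t => ∫ x : E d, P (y + t • x) * eta x with hA
  have hder : ∀ t, HasDerivAt A (t * ∫ x : E d, lap P (y + t • x) * wgt x) t := by
    intro t
    have := mean_deriv P hP y t
    rwa [mean_ibp P hP y t] at this
  have hb : ∀ t, 0 ≤ t → t ≤ ρ → |t * ∫ x : E d, lap P (y + t • x) * wgt x| ≤ L * A t :=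
    fun t ht0 ht => mean_comp_bound L hL P hP y ρ h1 h t ht0 ht
  have hA0 : A 0 = P y * ∫ x : E d, eta x := by
    simp only [hA, zero_smul, add_zero]
    exact integral_const_mul _ _
  have hPy : 0 ≤ P y := (h y (mem_closedBall_self h0)).1
  have hA0n : 0 ≤ A 0 := by rw [hA0]; exact mul_nonneg hPy hpos.le
  have hd1 : ∀ t, HasDerivAt (fun t => A t * Real.exp (L * t))
      ((t * ∫ x : E d, lap P (y + t • x) * wgt x) * Real.exp (L * t) +
        A t * (Real.exp (L * t) * (L * 1))) t := fun t =>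
    (hder t).mul (((hasDerivAt_id t).const_mul L).exp)
  have hd2 : ∀ t, HasDerivAt (fun t => A t * Real.exp (-L * t))
      ((t * ∫ x : E d, lap P (y + t • x) * wgt x) * Real.exp (-L * t) +
        A t * (Real.exp (-L * t) * (-L * 1))) t := fun t =>
    (hder t).mul (((hasDerivAt_id t).const_mul (-L)).exp)
  have hm1 : MonotoneOn (fun t => A t * Real.exp (L * t)) (Icc 0 ρ) := by
    apply monotoneOn_of_deriv_nonneg (convex_Icc 0 ρ)
    · exact fun t _ => (hd1 t).continuousAt.continuousWithinAt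
    · exact fun t _ => (hd1 t).differentiableAt.differentiableWithinAt
    · intro t ht
      rw [interior_Icc] at ht
      rw [(hd1 t).deriv]
      have h3 := (abs_le.1 (hb t ht.1.le ht.2.le)).1
      have h4 := Real.exp_pos (L * t)
      have : (t * ∫ x : E d, lap P (y + t • x) * wgt x) * Real.exp (L * t) +
        A t * (Real.exp (L * t) * (L * 1)) = ((t * ∫ x : E d, lap P (y + t • x) * wgt x) + L * A t) *
          Real.exp (L * t) := by ring
      rw [this]
      exact mul_nonneg (by linarith) h4.le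
  have hm2 : AntitoneOn (fun t => A t * Real.exp (-L * t)) (Icc 0 ρ) := by
    apply antitoneOn_of_deriv_nonpos (convex_Icc 0 ρ)
    · exact fun t _ => (hd2 t).continuousAt.continuousWithinAt
    · exact fun t _ => (hd2 t).differentiableAt.differentiableWithinAt
    · intro t ht
      rw [interior_Icc] at ht
      rw [(hd2 t).deriv]
      have h3 := (abs_le.1 (hb t ht.1.le ht.2.le)).2
      have h4 := Real.exp_pos (-L * t)
      have : (t * ∫ x : E d, lap P (y + t • x) * wgt x) * Real.exp (-L * t) +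
        A t * (Real.exp (-L * t) * (-L * 1)) = ((t * ∫ x : E d, lap P (y + t • x) * wgt x) - L * A t) *
          Real.exp (-L * t) := by ring
      rw [this]
      exact mul_nonpos_of_nonpos_of_nonneg (by linarith) h4.le
  have hl : (0 : ℝ) ∈ Icc 0 ρ := ⟨le_rfl, h0⟩
  have hr : ρ ∈ Icc 0 ρ := ⟨h0, le_rfl⟩
  have e1 := hm1 hl hr h0
  have e2 := hm2 hl hr h0
  simp only [mul_zero, Real.exp_zero, mul_one] at e1 e2
  have hLρ : L * ρ ≤ L := by nlinarith
  have hx1 : Real.exp (L * ρ) ≤ Real.exp L := Real.exp_le_exp.2 hLρ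
  have hinv : Real.exp (-L * ρ) * Real.exp (L * ρ) = 1 := by
    rw [← Real.exp_add]; simp
  have hinv2 : Real.exp (-L) * Real.exp L = 1 := by
    rw [← Real.exp_add]; simp
  have p1 := Real.exp_pos (L * ρ)
  have p2 := Real.exp_pos (-L * ρ)
  have p3 := Real.exp_pos (-L)
  have hAρ : 0 ≤ A ρ := by
    by_contra hneg
    push Not at hneg
    have := mul_neg_of_neg_of_pos hneg p1
    linarith
  constructor
  · have e3 : A 0 ≤ A ρ * Real.exp L := e1.trans (mul_le_mul_of_nonneg_left hx1 hAρ)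
    have e4 := mul_le_mul_of_nonneg_left e3 p3.le
    have e5 : Real.exp (-L) * (A ρ * Real.exp L) = A ρ := by
      rw [mul_comm (A ρ), ← mul_assoc, hinv2, one_mul]
    rw [e5, hA0] at e4
    have e6 : Real.exp (-L) * P y * (∫ x : E d, eta x) =
      Real.exp (-L) * (P y * ∫ x : E d, eta x) := by ring
    rw [e6]
    exact e4
  · have e3 := mul_le_mul_of_nonneg_right e2 p1.le
    have e5 : A ρ * Real.exp (-L * ρ) * Real.exp (L * ρ) = A ρ := by
      rw [mul_assoc, hinv, mul_one]
    rw [e5] at e3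
    have e7 : A 0 * Real.exp (L * ρ) ≤ A 0 * Real.exp L := mul_le_mul_of_nonneg_left hx1 hA0n
    have e6 : Real.exp L * P y * (∫ x : E d, eta x) =
      (P y * ∫ x : E d, eta x) * Real.exp L := by ring
    rw [e6, ← hA0]
    exact e3.trans e7

end

end ExtStar
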