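import Pool.Agent.H631.ES.Defs
import Pool.Agent.H631.ES.X03
import Pool.Agent.H631.ES.X06
import Pool.Agent.H631.ES.X07
import Pool.Agent.H631.ES.X10

open Set Metric Filter Topology MeasureTheory

namespace ExtStar

noncomputable section

/-! TARGET: prove the following -/

theorem harnack (d : ℕ) (L : ℝ) (hL : 0 ≤ L) : ∃ C : ℝ, 1 ≤ C ∧
    ∀ (p : E d → ℝ) (y x : E d) (ρ : ℝ), 0 < ρ → ρ ≤ 1 → Quasi L (ball y ρ) p →
      x ∈ ball y (ρ / 4) → p x ≤ C * p y := by
  have hC1 : (1:ℝ) ≤ Real.exp (2 * L) := Real.one_le_exp (by positivity)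
  have hC2 : (1:ℝ) ≤ (7/4 : ℝ) ^ d := one_le_pow₀ (by norm_num)
  have hC3 : (1:ℝ) ≤ (49/13 : ℝ) ^ 3 := one_le_pow₀ (by norm_num)
  refine ⟨Real.exp (2 * L) * (7/4 : ℝ) ^ d * (49/13 : ℝ) ^ 3, ?_, ?_⟩
  · have h1 : (1:ℝ) ≤ Real.exp (2 * L) * (7/4 : ℝ) ^ d := one_le_mul_of_one_le_of_one_le hC1 hC2
    exact one_le_mul_of_one_le_of_one_le h1 hC3
  intro p y x ρ hρ hρ1 hQ hx
  obtain ⟨hQ1, hQ2⟩ := hQ
  obtain ⟨P, hP, hPp⟩ := ext_C2 p y (7 * ρ / 8) ρ (by positivity) (by linarith) hQ1
  obtain ⟨he1, -, -, he4, -, -, he7, he8⟩ := eta_facts d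
  have hcl : ∀ z ∈ closedBall y (7 * ρ / 8), 0 ≤ P z ∧ |lap P z| ≤ L * P z := by
    intro z hz
    have hzb : z ∈ ball y ρ := by
      rw [mem_closedBall] at hz
      rw [mem_ball]
      linarith
    have h1 := (hPp z hz).eq_of_nhds
    rw [lap_congr P p z (hPp z hz), h1]
    exact hQ2 z hzb
  have hxy : ‖x - y‖ < ρ / 4 := by
    rw [mem_ball, dist_eq_norm] at hx
    exact hx
  have hxcl : x ∈ closedBall y (7 * ρ / 8) := by
    rw [mem_closedBall, dist_eq_norm]; linarith
  have hycl : y ∈ closedBall y (7 * ρ / 8) := mem_closedBall_self (by positivity)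
  have hsub : ∀ z ∈ closedBall x (ρ / 2), z ∈ closedBall y (7 * ρ / 8) := by
    intro z hz
    rw [mem_closedBall] at hz ⊢
    have h1 : dist z y ≤ dist z x + dist x y := dist_triangle _ _ _
    rw [dist_eq_norm x y] at h1
    linarith
  have hmy := (mean_comp L hL P hP y (7 * ρ / 8) (by positivity) (by linarith) hcl).2
  have hmx := (mean_comp L hL P hP x (ρ / 2) (by positivity) (by linarith)
    (fun z hz => hcl z (hsub z hz))).1
  set I : ℝ := ∫ x : E d, eta x with hI
  set F : E d → ℝ := fun w => P (y + (7 * ρ / 8) • w) * eta w with hF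
  set G : E d → ℝ := fun w => P (x + (ρ / 2) • w) * eta w with hG
  have hFnn : ∀ w, 0 ≤ F w := by
    intro w
    rcases le_or_gt 1 ‖w‖ with h | h
    · simp only [hF, (he7 w h).1, mul_zero, le_refl]
    · have hz : y + (7 * ρ / 8) • w ∈ closedBall y (7 * ρ / 8) := by
        rw [mem_closedBall, dist_eq_norm, add_sub_cancel_left, norm_smul, Real.norm_eq_abs,
          abs_of_pos (by positivity)]
        have : 7 * ρ / 8 * ‖w‖ ≤ 7 * ρ / 8 * 1 := mul_le_mul_of_nonneg_left h.le (by positivity)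
        linarith
      exact mul_nonneg (hcl _ hz).1 (he4 w)
  have hGnn : ∀ w, 0 ≤ G w := by
    intro w
    rcases le_or_gt 1 ‖w‖ with h | h
    · simp only [hG, (he7 w h).1, mul_zero, le_refl]
    · have hz : x + (ρ / 2) • w ∈ closedBall x (ρ / 2) := by
        rw [mem_closedBall, dist_eq_norm, add_sub_cancel_left, norm_smul, Real.norm_eq_abs,
          abs_of_pos (by positivity)]
        have : ρ / 2 * ‖w‖ ≤ ρ / 2 * 1 := mul_le_mul_of_nonneg_left h.le (by positivity)
        linarith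
      exact mul_nonneg (hcl _ (hsub _ hz)).1 (he4 w)
  have hFcont : Continuous F := by
    apply Continuous.mul _ he1
    exact hP.continuous.comp (by fun_prop)
  have hFint : Integrable F := by
    apply hFcont.integrable_of_hasCompactSupport
    apply HasCompactSupport.intro (isCompact_closedBall (0 : E d) 1)
    intro w hw
    have h1 : 1 ≤ ‖w‖ := by
      rw [mem_closedBall, dist_zero_right, not_le] at hw
      exact hw.le
    simp only [hF, (he7 w h1).1, mul_zero]
  set a : E d := (8 / (7 * ρ)) • (x - y) with ha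
  have hanorm : ‖a‖ ≤ 2 / 7 := by
    rw [ha, norm_smul, Real.norm_eq_abs, abs_of_pos (by positivity)]
    have h1 : 8 / (7 * ρ) * ‖x - y‖ ≤ 8 / (7 * ρ) * (ρ / 4) :=
      mul_le_mul_of_nonneg_left hxy.le (by positivity)
    have h2 : 8 / (7 * ρ) * (ρ / 4) = 2 / 7 := by field_simp; norm_num
    linarith
  have hid : ∀ w : E d, y + (7 * ρ / 8) • (a + (4/7 : ℝ) • w) = x + (ρ / 2) • w := by
    intro w
    rw [ha, smul_add, smul_smul, smul_smul]
    have h1 : 7 * ρ / 8 * (8 / (7 * ρ)) = 1 := by field_simp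
    have h2 : 7 * ρ / 8 * (4 / 7) = ρ / 2 := by ring
    rw [h1, h2, one_smul]
    abel
  have hpt : ∀ w, G w ≤ (49/13 : ℝ) ^ 3 * F (a + (4/7 : ℝ) • w) := by
    intro w
    rcases le_or_gt 1 ‖w‖ with h | h
    · have h0 : G w = 0 := by simp only [hG, (he7 w h).1, mul_zero]
      rw [h0]
      exact mul_nonneg (by positivity) (hFnn _)
    · have hz : x + (ρ / 2) • w ∈ closedBall x (ρ / 2) := by
        rw [mem_closedBall, dist_eq_norm, add_sub_cancel_left, norm_smul, Real.norm_eq_abs,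
          abs_of_pos (by positivity)]
        have : ρ / 2 * ‖w‖ ≤ ρ / 2 * 1 := mul_le_mul_of_nonneg_left h.le (by positivity)
        linarith
      have hPz := (hcl _ (hsub _ hz)).1
      have hnorm : ‖a + (4/7 : ℝ) • w‖ ≤ 6 / 7 := by
        have h1 := norm_add_le a ((4/7 : ℝ) • w)
        have h2 : ‖(4/7 : ℝ) • w‖ = 4/7 * ‖w‖ := by
          rw [norm_smul, Real.norm_eq_abs, abs_of_pos (by norm_num : (0:ℝ) < 4/7)]
        linarith
      have hsq : ‖a + (4/7 : ℝ) • w‖ ^ 2 ≤ 36 / 49 := by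
        have := pow_le_pow_left₀ (norm_nonneg (a + (4/7 : ℝ) • w)) hnorm 2
        norm_num at this ⊢
        linarith
      have heta : (13/49 : ℝ) ^ 3 ≤ eta (a + (4/7 : ℝ) • w) := by
        unfold eta
        apply pow_le_pow_left₀ (by norm_num)
        apply le_max_of_le_right
        linarith
      have heta1 : eta w ≤ 1 := by
        unfold eta
        apply pow_le_one₀ (le_max_left _ _)
        apply max_le (by norm_num)
        have := sq_nonneg ‖w‖
        linarith
      simp only [hF, hG]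
      rw [hid w]
      have h1 : P (x + (ρ / 2) • w) * eta w ≤ P (x + (ρ / 2) • w) * 1 :=
        mul_le_mul_of_nonneg_left heta1 hPz
      have h2 : P (x + (ρ / 2) • w) * (13/49 : ℝ) ^ 3 ≤
          P (x + (ρ / 2) • w) * eta (a + (4/7 : ℝ) • w) := mul_le_mul_of_nonneg_left heta hPz
      have h3 : (49/13 : ℝ) ^ 3 * (P (x + (ρ / 2) • w) * (13/49 : ℝ) ^ 3) =
          P (x + (ρ / 2) • w) := by ring
      have h4 := mul_le_mul_of_nonneg_left h2 (by positivity : (0:ℝ) ≤ (49/13 : ℝ) ^ 3)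
      linarith
  have hscale : ∫ w : E d, F (a + (4/7 : ℝ) • w) = (7/4 : ℝ) ^ d * ∫ w : E d, F w := by
    have h1 := MeasureTheory.Measure.integral_comp_smul (volume : Measure (E d))
      (fun v => F (a + v)) (4/7 : ℝ)
    have h2 : ∫ v : E d, F (a + v) = ∫ v : E d, F v := integral_add_left_eq_self _ a
    rw [h2] at h1
    rw [h1, finrank_euclideanSpace, Fintype.card_fin, smul_eq_mul, ← inv_pow,
      abs_of_pos (by positivity)]
    norm_num
  have hint2 : Integrable (fun w : E d => (49/13 : ℝ) ^ 3 * F (a + (4/7 : ℝ) • w)) := by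
    apply Integrable.const_mul
    have h1 : Integrable (fun v : E d => F (a + v)) := hFint.comp_add_left a
    exact h1.comp_smul (by norm_num : (4/7 : ℝ) ≠ 0)
  have hmono : ∫ w : E d, G w ≤ (49/13 : ℝ) ^ 3 * ((7/4 : ℝ) ^ d * ∫ w : E d, F w) := by
    rw [← hscale, ← integral_const_mul]
    exact integral_mono_of_nonneg (Filter.Eventually.of_forall hGnn) hint2
      (Filter.Eventually.of_forall hpt)
  rw [← (hPp x hxcl).eq_of_nhds, ← (hPp y hycl).eq_of_nhds]
  have h5 : Real.exp (-L) * P x * I ≤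
      (49/13 : ℝ) ^ 3 * ((7/4 : ℝ) ^ d * (Real.exp L * P y * I)) := by
    refine le_trans hmx (le_trans hmono ?_)
    apply mul_le_mul_of_nonneg_left _ (by positivity)
    exact mul_le_mul_of_nonneg_left hmy (by positivity)
  have h6 : Real.exp (-L) * P x ≤ (49/13 : ℝ) ^ 3 * ((7/4 : ℝ) ^ d * (Real.exp L * P y)) := by
    refine le_of_mul_le_mul_right ?_ he8
    calc Real.exp (-L) * P x * I ≤ _ := h5
      _ = (49/13 : ℝ) ^ 3 * ((7/4 : ℝ) ^ d * (Real.exp L * P y)) * I := by ring
  have h7 := mul_le_mul_of_nonneg_left h6 (Real.exp_pos L).le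
  have h8 : Real.exp L * (Real.exp (-L) * P x) = P x := by
    rw [← mul_assoc, ← Real.exp_add]; simp
  rw [h8] at h7
  refine le_trans h7 (le_of_eq ?_)
  have h9 : Real.exp (2 * L) = Real.exp L * Real.exp L := by rw [← Real.exp_add]; ring_nf
  rw [h9]
  ring

end

end ExtStar
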