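import Pool.Agent.H631.ES.Defs
import Pool.Agent.H631.ES.X02
import Pool.Agent.H631.ES.X03
import Pool.Agent.H631.ES.X05

open Set Metric Filter Topology MeasureTheory

namespace ExtStar

noncomputable section

/-! TARGET: prove the following -/

theorem lap_coord' {d : ℕ} (i : Fin d) (x : E d) : lap (fun y : E d => y i) x = 0 := by
  unfold lap
  apply Finset.sum_eq_zero
  intro j _
  rw [iteratedFDeriv_two_apply]
  have h : fderiv ℝ (fun y : E d => y i) = fun _ => (EuclideanSpace.proj i : E d →L[ℝ] ℝ) := by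
    funext y
    exact (EuclideanSpace.proj i : E d →L[ℝ] ℝ).hasFDerivAt.fderiv
  rw [h]
  simp

theorem lap_coord_sq' {d : ℕ} (i : Fin d) (x : E d) : lap (fun y : E d => (y i) ^ 2) x = 2 := by
  unfold lap
  have h : fderiv ℝ (fun y : E d => (y i) ^ 2) =
      fun y => (2 * y i) • (EuclideanSpace.proj i : E d →L[ℝ] ℝ) := by
    funext y
    have h1 : HasFDerivAt (fun y : E d => y i) (EuclideanSpace.proj i : E d →L[ℝ] ℝ) y :=
      (EuclideanSpace.proj i : E d →L[ℝ] ℝ).hasFDerivAt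
    have h2 := h1.pow 2
    rw [h2.fderiv]
    ext m
    simp
  have h2 : ∀ m m' : E d, fderiv ℝ (fun y : E d => (2 * y i) • (EuclideanSpace.proj i : E d →L[ℝ] ℝ)) x m m' =
      2 * m i * m' i := by
    intro m m'
    have h4 : HasFDerivAt (fun y : E d => 2 * y i) ((2 : ℝ) • (EuclideanSpace.proj i : E d →L[ℝ] ℝ)) x :=
      (EuclideanSpace.proj i : E d →L[ℝ] ℝ).hasFDerivAt.const_mul 2
    have h3 := h4.smul_const (EuclideanSpace.proj i : E d →L[ℝ] ℝ)
    rw [h3.fderiv]
    simp
  have h5 : ∀ j : Fin d, iteratedFDeriv ℝ 2 (fun y : E d => (y i) ^ 2) x (fun _ => EuclideanSpace.single j (1 : ℝ)) =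
      if i = j then 2 else 0 := by
    intro j
    rw [iteratedFDeriv_two_apply, h, h2]
    by_cases hij : i = j
    · subst hij
      simp
    · simp [hij]
  rw [Finset.sum_congr rfl (fun j _ => h5 j), Finset.sum_ite_eq Finset.univ i, if_pos (Finset.mem_univ i)]

theorem lap_transl' {d : ℕ} (u : E d → ℝ) (y x : E d) : lap (fun z => u (y + z)) x = lap u (y + x) := by
  unfold lap
  refine Finset.sum_congr rfl fun j _ => ?_
  rw [iteratedFDeriv_comp_add_left]

theorem lap_refl' {d : ℕ} (u : E d → ℝ) (i : Fin d) (x : E d) :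
    lap (fun z => u ((Submodule.span ℝ {(EuclideanSpace.single i (1 : ℝ) : E d)})ᗮ.reflection z)) x =
      lap u ((Submodule.span ℝ {(EuclideanSpace.single i (1 : ℝ) : E d)})ᗮ.reflection x) := by
  set R := (Submodule.span ℝ {(EuclideanSpace.single i (1 : ℝ) : E d)})ᗮ.reflection with hR
  unfold lap
  refine Finset.sum_congr rfl fun j _ => ?_
  have h1 := ContinuousLinearEquiv.iteratedFDerivWithin_comp_right (𝕜 := ℝ)
    (R.toContinuousLinearEquiv) u (s := Set.univ) uniqueDiffOn_univ (x := x) (Set.mem_univ _) 2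
  rw [Set.preimage_univ, iteratedFDerivWithin_univ, iteratedFDerivWithin_univ] at h1
  have h2 : (fun z => u (R z)) = u ∘ (R.toContinuousLinearEquiv) := rfl
  rw [h2, h1]
  have h3 : ((iteratedFDeriv ℝ 2 u (R.toContinuousLinearEquiv x)).compContinuousLinearMap
      fun _ => (R.toContinuousLinearEquiv : E d →L[ℝ] E d)) (fun _ => EuclideanSpace.single j (1 : ℝ)) =
      iteratedFDeriv ℝ 2 u (R x) (fun _ => R (EuclideanSpace.single j (1 : ℝ))) := rfl
  rw [h3, iteratedFDeriv_two_apply, iteratedFDeriv_two_apply]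
  by_cases hij : j = i
  · subst hij
    have h4 : R (EuclideanSpace.single j (1 : ℝ)) = -(EuclideanSpace.single j (1 : ℝ)) :=
      Submodule.reflection_orthogonalComplement_singleton_eq_neg _
    rw [h4]
    simp
  · have h4 : R (EuclideanSpace.single j (1 : ℝ)) = (EuclideanSpace.single j (1 : ℝ)) := by
      apply Submodule.reflection_mem_subspace_eq_self
      rw [Submodule.mem_orthogonal_singleton_iff_inner_right]
      simp [EuclideanSpace.inner_single_left, Ne.symm hij, hij]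
    rw [h4]

theorem grad_one' {d : ℕ} (p : E d → ℝ) (y : E d) (ρ M F : ℝ)
    (hp : ContDiffOn ℝ 2 p (ball y ρ)) (hM : ∀ x ∈ ball y ρ, |p x| ≤ M)
    (hF : ∀ x ∈ ball y ρ, |lap p x| ≤ F) (i : Fin d) (r ε : ℝ) (hr : 0 < r) (hrρ : r < ρ)
    (hε : 0 < ε) :
    fderiv ℝ p y (EuclideanSpace.single i (1 : ℝ)) ≤ (d : ℝ) * M / r + r * (F + ε) / 2 := by
  set e : E d := EuclideanSpace.single i (1 : ℝ) with he
  set R := (Submodule.span ℝ {e})ᗮ.reflection with hR
  have hnorm : ∀ x : E d, ‖R x‖ = ‖x‖ := fun x => R.norm_map x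
  have hfix : ∀ x : E d, x i = 0 → R x = x := by
    intro x hx
    apply Submodule.reflection_mem_subspace_eq_self
    rw [Submodule.mem_orthogonal_singleton_iff_inner_right]
    simp [he, EuclideanSpace.inner_single_left, hx]
  have hRe : R e = -e := Submodule.reflection_orthogonalComplement_singleton_eq_neg _
  have hy : y ∈ ball y ρ := mem_ball_self (hr.trans hrρ)
  have hM0 : 0 ≤ M := (abs_nonneg _).trans (hM y hy)
  have hF0 : 0 ≤ F := (abs_nonneg _).trans (hF y hy)
  have hin : ∀ x : E d, ‖x‖ ≤ r → y + x ∈ ball y ρ := by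
    intro x hx
    rw [mem_ball, dist_eq_norm, add_sub_cancel_left]
    linarith
  have hin2 : ∀ x : E d, ‖x‖ ≤ r → y + R x ∈ ball y ρ := by
    intro x hx
    apply hin
    rw [hnorm]
    exact hx
  set b : ℝ := 2 * M / r ^ 2 with hb
  have hb0 : 0 ≤ b := by positivity
  set γ : ℝ := F + d * b + ε with hγ
  have hγ0 : 0 < γ := by positivity
  set z : E d → ℝ := fun x =>
    (b * ‖x - 0‖ ^ 2 + (γ * r * x i - γ * (x i) ^ 2)) - (p (y + x) - p (y + R x)) with hz
  set K : Set (E d) := {x | ‖x‖ ≤ r ∧ 0 ≤ x i} with hK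
  have hci : Continuous (fun x : E d => x i) := by fun_prop
  have hKc : IsCompact K := by
    have h1 : K = closedBall (0 : E d) r ∩ {x | 0 ≤ x i} := by
      ext x
      simp [hK]
    rw [h1]
    exact (isCompact_closedBall 0 r).inter_right (isClosed_le continuous_const hci)
  have hRc : Continuous (fun x : E d => R x) := R.continuous
  have hzc : ContinuousOn z K := by
    have h1 : ContinuousOn (fun x : E d => p (y + x)) K :=
      hp.continuousOn.comp (by fun_prop) (fun x hx => hin x hx.1)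
    have h2 : ContinuousOn (fun x : E d => p (y + R x)) K :=
      hp.continuousOn.comp (continuous_const.add hRc).continuousOn (fun x hx => hin2 x hx.1)
    have h3 : ContinuousOn (fun x : E d => b * ‖x - 0‖ ^ 2 + (γ * r * x i - γ * (x i) ^ 2)) K := by
      apply Continuous.continuousOn
      fun_prop
    exact h3.sub (h1.sub h2)
  have hcomp : ∀ x ∈ K, 0 ≤ z x := by
    apply comp_compact K hKc z hzc
    intro x hx hneg
    have hxr : ‖x‖ ≤ r := hx.1
    have hxi : 0 ≤ x i := hx.2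
    have hlt : ‖x‖ < r := by
      by_contra hcon
      have heq : ‖x‖ = r := le_antisymm hxr (not_lt.1 hcon)
      have h1 := abs_le.1 (hM _ (hin x hxr))
      have h2 := abs_le.1 (hM _ (hin2 x hxr))
      have h3 : x i ≤ r := by
        have h4 := PiLp.norm_apply_le x i
        rw [Real.norm_eq_abs] at h4
        exact ((le_abs_self _).trans h4).trans hxr
      have h5 : b * ‖x - 0‖ ^ 2 = 2 * M := by
        rw [sub_zero, heq, hb]
        field_simp
      have h6 : 0 ≤ γ * r * x i - γ * (x i) ^ 2 := by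
        have : γ * r * x i - γ * (x i) ^ 2 = γ * (x i * (r - x i)) := by ring
        rw [this]
        exact mul_nonneg hγ0.le (mul_nonneg hxi (by linarith))
      have h7 : z x = (b * ‖x - 0‖ ^ 2 + (γ * r * x i - γ * (x i) ^ 2)) - (p (y + x) - p (y + R x)) := rfl
      rw [h7, h5] at hneg
      linarith [h1.1, h1.2, h2.1, h2.2]
    have hpos : 0 < x i := by
      by_contra hcon
      have heq : x i = 0 := le_antisymm (not_lt.1 hcon) hxi
      have h7 : z x = (b * ‖x - 0‖ ^ 2 + (γ * r * x i - γ * (x i) ^ 2)) - (p (y + x) - p (y + R x)) := rfl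
      rw [h7, hfix x heq, heq] at hneg
      have : 0 ≤ b * ‖x - 0‖ ^ 2 := by positivity
      linarith
    refine ⟨?_, ?_, ?_⟩
    · rw [mem_interior]
      refine ⟨{x | ‖x‖ < r ∧ 0 < x i}, fun w hw => ⟨hw.1.le, hw.2.le⟩, ?_, ⟨hlt, hpos⟩⟩
      exact (isOpen_lt continuous_norm continuous_const).inter (isOpen_lt continuous_const hci)
    all_goals
      have c1 : ContDiffAt ℝ 2 (fun x : E d => p (y + x)) x :=
        (hp.contDiffAt (isOpen_ball.mem_nhds (hin x hxr))).comp x (contDiffAt_const.add contDiffAt_id)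
      have c2 : ContDiffAt ℝ 2 (fun x : E d => p (y + R x)) x :=
        (hp.contDiffAt (isOpen_ball.mem_nhds (hin2 x hxr))).comp x
          (contDiffAt_const.add R.contDiff.contDiffAt)
      have c3 : ContDiffAt ℝ 2 (fun x : E d => x i) x := by fun_prop
      have c4 : ContDiffAt ℝ 2 (fun x : E d => (x i) ^ 2) x := c3.pow 2
      have c5 : ContDiffAt ℝ 2 (fun x : E d => ‖x - 0‖ ^ 2) x :=
        (contDiffAt_id.sub contDiffAt_const).norm_sq ℝ
      have c6 : ContDiffAt ℝ 2 (fun x : E d => b * ‖x - 0‖ ^ 2) x := contDiffAt_const.mul c5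
      have c7 : ContDiffAt ℝ 2 (fun x : E d => γ * r * x i) x := contDiffAt_const.mul c3
      have c8 : ContDiffAt ℝ 2 (fun x : E d => γ * (x i) ^ 2) x := contDiffAt_const.mul c4
      have c9 : ContDiffAt ℝ 2 (fun x : E d => γ * r * x i - γ * (x i) ^ 2) x := c7.sub c8
      have c10 : ContDiffAt ℝ 2
          (fun x : E d => b * ‖x - 0‖ ^ 2 + (γ * r * x i - γ * (x i) ^ 2)) x := c6.add c9
      have c11 : ContDiffAt ℝ 2 (fun x : E d => p (y + x) - p (y + R x)) x := c1.sub c2
    · exact c10.sub c11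
    · have l1 : lap z x = lap (fun x : E d => b * ‖x - 0‖ ^ 2 + (γ * r * x i - γ * (x i) ^ 2)) x -
          lap (fun x : E d => p (y + x) - p (y + R x)) x := lap_sub _ _ x c10 c11
      have l2 := lap_add _ _ x c6 c9
      have l3 := lap_sub _ _ x c7 c8
      have l4 := lap_sub _ _ x c1 c2
      have l5 := lap_smul b _ x c5
      have l6 := lap_smul (γ * r) _ x c3
      have l7 := lap_smul γ _ x c4
      have l8 := lap_normsq (0 : E d) x
      have l9 := lap_coord' i x
      have l10 := lap_coord_sq' i x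
      have l11 := lap_transl' p y x
      have l12 : lap (fun x : E d => p (y + R x)) x = lap p (y + R x) := by
        have h1 := lap_refl' (fun x : E d => p (y + x)) i x
        rw [lap_transl'] at h1
        exact h1
      have h1 := abs_le.1 (hF _ (hin x hxr))
      have h2 := abs_le.1 (hF _ (hin2 x hxr))
      rw [l1, l2, l3, l4, l5, l6, l7, l8, l9, l10, l11, l12]
      have h3 : γ = F + d * b + ε := hγ
      nlinarith [h1.1, h1.2, h2.1, h2.2]
  have hg : ∀ t : ℝ, 0 < t → t < r →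
      0 ≤ b * t ^ 2 + (γ * r * t - γ * t ^ 2) - (p (y + t • e) - p (y + (-t) • e)) := by
    intro t ht0 htr
    have h1 : ‖t • e‖ = t := by
      rw [norm_smul, Real.norm_eq_abs, abs_of_pos ht0, he]
      simp
    have h2 : (t • e) i = t := by
      simp [he]
    have h3 := hcomp (t • e) ⟨by rw [h1]; exact htr.le, by rw [h2]; exact ht0.le⟩
    have h4 : z (t • e) = (b * ‖t • e - 0‖ ^ 2 + (γ * r * (t • e) i - γ * ((t • e) i) ^ 2)) -
      (p (y + t • e) - p (y + R (t • e))) := rfl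
    rw [h4, sub_zero, h1, h2, map_smul, hRe, smul_neg, ← neg_smul] at h3
    exact h3
  have hd : HasFDerivAt p (fderiv ℝ p y) y :=
    ((hp.contDiffAt (isOpen_ball.mem_nhds hy)).differentiableAt (by norm_num)).hasFDerivAt
  have hd1 : HasDerivAt (fun t : ℝ => p (y + t • e)) (fderiv ℝ p y e) 0 := by
    have h1 : HasDerivAt (fun t : ℝ => y + t • e) e 0 := by
      have := ((hasDerivAt_id (0 : ℝ)).smul_const e).const_add y
      simpa using this
    exact HasFDerivAt.comp_hasDerivAt_of_eq (0 : ℝ) hd h1 (by simp)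
  have hd2 : HasDerivAt (fun t : ℝ => p (y + (-t) • e)) (-(fderiv ℝ p y e)) 0 := by
    have h1 : HasDerivAt (fun t : ℝ => y + (-t) • e) (-e) 0 := by
      have := ((hasDerivAt_id (0 : ℝ)).neg.smul_const e).const_add y
      simpa using this
    have h2 := HasFDerivAt.comp_hasDerivAt_of_eq (0 : ℝ) hd h1 (by simp)
    rw [map_neg] at h2
    exact h2
  have hd3 : HasDerivAt (fun t : ℝ => b * t ^ 2 + (γ * r * t - γ * t ^ 2)) (γ * r) 0 := by
    have h1 := ((hasDerivAt_id (0 : ℝ)).pow 2).const_mul b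
    have h2 := (hasDerivAt_id (0 : ℝ)).const_mul (γ * r)
    have h3 := ((hasDerivAt_id (0 : ℝ)).pow 2).const_mul γ
    have h4 := h1.add (h2.sub h3)
    have h5 := h4.congr_deriv (show _ = γ * r by simp)
    exact h5
  have hd4 := hd3.sub (hd1.sub hd2)
  have ht := hd4.tendsto_slope_zero_right
  have hge := ge_of_tendsto (b := (0 : ℝ)) ht (by
    have h0 : ∀ᶠ t in 𝓝[>] (0 : ℝ), t ∈ Ioo (0 : ℝ) r := Ioo_mem_nhdsGT hr
    filter_upwards [h0] with t ht
    have h1 := hg t ht.1 ht.2
    rw [smul_eq_mul]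
    apply mul_nonneg (inv_nonneg.2 ht.1.le)
    simp only [Pi.sub_apply, Pi.add_apply, zero_add]
    simpa using h1)
  have hfin : fderiv ℝ p y e ≤ γ * r / 2 := by linarith
  refine hfin.trans (le_of_eq ?_)
  rw [hγ, hb]
  field_simp
  ring

theorem grad_half' {d : ℕ} (p : E d → ℝ) (y : E d) (ρ M F : ℝ) (hρ : 0 < ρ)
    (hp : ContDiffOn ℝ 2 p (ball y ρ)) (hM : ∀ x ∈ ball y ρ, |p x| ≤ M)
    (hF : ∀ x ∈ ball y ρ, |lap p x| ≤ F) (i : Fin d) :
    fderiv ℝ p y (EuclideanSpace.single i (1 : ℝ)) ≤ (d : ℝ) * M / ρ + ρ * F := by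
  have hy : y ∈ ball y ρ := mem_ball_self hρ
  have hF0 : 0 ≤ F := (abs_nonneg _).trans (hF y hy)
  have hlim : Tendsto (fun r : ℝ => (d : ℝ) * M / r + r * (F + (ρ - r)) / 2) (𝓝[<] ρ)
      (𝓝 ((d : ℝ) * M / ρ + ρ * (F + (ρ - ρ)) / 2)) := by
    apply Tendsto.mono_left _ nhdsWithin_le_nhds
    have h1 : ContinuousAt (fun r : ℝ => (d : ℝ) * M / r + r * (F + (ρ - r)) / 2) ρ := by
      have : ρ ≠ 0 := hρ.ne'
      fun_prop (disch := assumption)
    exact h1.tendsto
  have h2 := ge_of_tendsto hlim (b := fderiv ℝ p y (EuclideanSpace.single i (1 : ℝ))) (by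
    have h0 : ∀ᶠ t in 𝓝[<] ρ, t ∈ Ioo (0 : ℝ) ρ := Ioo_mem_nhdsLT hρ
    filter_upwards [h0] with r hr
    exact grad_one' p y ρ M F hp hM hF i r (ρ - r) hr.1 hr.2 (by linarith [hr.2]))
  refine h2.trans ?_
  have : 0 ≤ ρ * F := by positivity
  have h3 : ρ * (F + (ρ - ρ)) / 2 = ρ * F / 2 := by ring
  rw [h3]
  linarith

theorem grad_est {d : ℕ} (p : E d → ℝ) (y : E d) (ρ M F : ℝ) (hρ : 0 < ρ)
    (hp : ContDiffOn ℝ 2 p (ball y ρ)) (hM : ∀ x ∈ ball y ρ, |p x| ≤ M)
    (hF : ∀ x ∈ ball y ρ, |lap p x| ≤ F) (i : Fin d) :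
    |fderiv ℝ p y (EuclideanSpace.single i (1 : ℝ))| ≤ (d : ℝ) * M / ρ + ρ * F := by
  have hy : y ∈ ball y ρ := mem_ball_self hρ
  have h1 := grad_half' p y ρ M F hρ hp hM hF i
  have hp2 : ContDiffOn ℝ 2 (fun x => (-1 : ℝ) * p x) (ball y ρ) := contDiffOn_const.mul hp
  have h2 := grad_half' (fun x => (-1 : ℝ) * p x) y ρ M F hρ hp2 (by
    intro x hx
    rw [abs_mul]
    simpa using hM x hx) (by
    intro x hx
    rw [lap_smul (-1 : ℝ) p x (hp.contDiffAt (isOpen_ball.mem_nhds hx)), abs_mul]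
    simpa using hF x hx) i
  have hdiff : DifferentiableAt ℝ p y :=
    (hp.contDiffAt (isOpen_ball.mem_nhds hy)).differentiableAt (by norm_num)
  have h3 : fderiv ℝ (fun x => (-1 : ℝ) * p x) y = (-1 : ℝ) • fderiv ℝ p y :=
    fderiv_const_mul hdiff (-1 : ℝ)
  rw [h3] at h2
  simp only [neg_smul, one_smul, ContinuousLinearMap.neg_apply] at h2
  rw [abs_le]
  constructor
  · linarith
  · exact h1

end

end ExtStar
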