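import Pool.Agent.H631.ES.Defs
import Pool.Agent.H631.ES.X11
import Pool.Agent.H631.ES.X12

open Set Metric Filter Topology MeasureTheory

namespace ExtStar

noncomputable section

/-! TARGET: prove the following -/

theorem grad_harnack (d : ℕ) (L : ℝ) (hL : 0 ≤ L) : ∃ C : ℝ, 0 < C ∧
    ∀ (p : E d → ℝ) (y : E d) (ρ : ℝ), 0 < ρ → ρ ≤ 1 → Quasi L (ball y ρ) p →
      ‖fderiv ℝ p y‖ ≤ C / ρ * p y := by
  obtain ⟨K, hK1, hK⟩ := harnack d L hL
  refine ⟨(d : ℝ) * (4 * d * K + L * K / 4) + 1, by positivity, ?_⟩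
  intro p y ρ hρ hρ1 hQ
  have hy : y ∈ ball y ρ := mem_ball_self hρ
  have hpy : 0 ≤ p y := (hQ.2 y hy).1
  have hsub : ball y (ρ / 4) ⊆ ball y ρ := ball_subset_ball (by linarith)
  have hK0 : 0 ≤ K := by linarith
  have hM : ∀ x ∈ ball y (ρ / 4), |p x| ≤ K * p y := by
    intro x hx
    rw [abs_of_nonneg (hQ.2 x (hsub hx)).1]
    exact hK p y x ρ hρ hρ1 hQ hx
  have hF : ∀ x ∈ ball y (ρ / 4), |lap p x| ≤ L * (K * p y) := by
    intro x hx
    refine (hQ.2 x (hsub hx)).2.trans ?_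
    exact mul_le_mul_of_nonneg_left (hK p y x ρ hρ hρ1 hQ hx) hL
  have hi : ∀ i : Fin d, |fderiv ℝ p y (EuclideanSpace.single i (1 : ℝ))| ≤
      (4 * d * K + L * K / 4) / ρ * p y := by
    intro i
    refine (grad_est p y (ρ / 4) (K * p y) (L * (K * p y)) (by positivity)
      (hQ.1.mono hsub) hM hF i).trans ?_
    have h1 : (d : ℝ) * (K * p y) / (ρ / 4) = 4 * d * K / ρ * p y := by
      field_simp
    have h2 : ρ / 4 * (L * (K * p y)) ≤ L * K / 4 / ρ * p y := by
      have h3 : ρ ≤ 1 / ρ := by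
        rw [le_div_iff₀ hρ]; nlinarith
      calc ρ / 4 * (L * (K * p y)) = ρ * (L * K / 4 * p y) := by ring
        _ ≤ 1 / ρ * (L * K / 4 * p y) := by
            apply mul_le_mul_of_nonneg_right h3; positivity
        _ = L * K / 4 / ρ * p y := by ring
    rw [h1]
    calc 4 * d * K / ρ * p y + ρ / 4 * (L * (K * p y))
        ≤ 4 * d * K / ρ * p y + L * K / 4 / ρ * p y := by linarith
      _ = (4 * d * K + L * K / 4) / ρ * p y := by ring
  have hnorm : ‖fderiv ℝ p y‖ ≤
      ∑ i : Fin d, |fderiv ℝ p y (EuclideanSpace.single i (1 : ℝ))| := by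
    refine ContinuousLinearMap.opNorm_le_bound _ (Finset.sum_nonneg fun i _ => abs_nonneg _) ?_
    intro v
    have hv : ∑ i : Fin d, v i • EuclideanSpace.single i (1 : ℝ) = v := by
      have := (EuclideanSpace.basisFun (Fin d) ℝ).sum_repr v
      simpa using this
    conv_lhs => rw [← hv]
    rw [map_sum, Finset.sum_mul]
    refine (norm_sum_le _ _).trans (Finset.sum_le_sum fun i _ => ?_)
    rw [map_smul, norm_smul, Real.norm_eq_abs, mul_comm]
    refine mul_le_mul_of_nonneg_left ?_ (abs_nonneg _)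
    exact PiLp.norm_apply_le v i
  refine hnorm.trans ?_
  calc ∑ i : Fin d, |fderiv ℝ p y (EuclideanSpace.single i (1 : ℝ))|
      ≤ ∑ _i : Fin d, (4 * d * K + L * K / 4) / ρ * p y := Finset.sum_le_sum fun i _ => hi i
    _ = (d : ℝ) * (4 * d * K + L * K / 4) / ρ * p y := by
        rw [Finset.sum_const, Finset.card_univ, Fintype.card_fin, nsmul_eq_mul]; ring
    _ ≤ ((d : ℝ) * (4 * d * K + L * K / 4) + 1) / ρ * p y := by
        apply mul_le_mul_of_nonneg_right _ hpy
        apply div_le_div_of_nonneg_right _ hρ.le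
        linarith

end

end ExtStar
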