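import Pool.Agent.H631.ES.Defs
import Pool.Agent.H631.ES.X13

open Set Metric Filter Topology MeasureTheory

namespace ExtStar

noncomputable section

/-! TARGET: prove the following -/

theorem chain (d : ℕ) (L : ℝ) (hL : 0 ≤ L) : ∃ C : ℝ, 0 < C ∧
    ∀ (p : E d → ℝ) (U : Set (E d)) (x y : E d) (ρ : ℝ), IsOpen U → 0 < ρ → ρ ≤ 1 → Quasi L U p →
      (∀ w ∈ segment ℝ x y, ball w ρ ⊆ U) → p x ≤ Real.exp (C / ρ * ‖x - y‖) * p y := by
  obtain ⟨C, hC, H⟩ := grad_harnack d L hL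
  refine ⟨C, hC, ?_⟩
  intro p U x y ρ hU hρ hρ1 hQ hseg
  set K : ℝ := C / ρ * ‖x - y‖ with hK
  have hγ : ∀ t : ℝ, HasDerivAt (fun t : ℝ => x + t • (y - x)) (y - x) t := by
    intro t
    have h1 : HasDerivAt (fun t : ℝ => t • (y - x)) ((1 : ℝ) • (y - x)) t :=
      (hasDerivAt_id t).smul_const (y - x)
    rw [one_smul] at h1
    exact h1.const_add x
  have hmem : ∀ t ∈ Icc (0 : ℝ) 1, x + t • (y - x) ∈ segment ℝ x y := by
    intro t ht
    rw [segment_eq_image']
    exact ⟨t, ht, rfl⟩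
  have hU' : ∀ t ∈ Icc (0 : ℝ) 1, x + t • (y - x) ∈ U := by
    intro t ht
    exact hseg _ (hmem t ht) (mem_ball_self hρ)
  have hder : ∀ t ∈ Icc (0 : ℝ) 1,
      HasDerivAt (fun t : ℝ => p (x + t • (y - x))) (fderiv ℝ p (x + t • (y - x)) (y - x)) t := by
    intro t ht
    have hd : DifferentiableAt ℝ p (x + t • (y - x)) :=
      ((hQ.1.contDiffAt (hU.mem_nhds (hU' t ht))).differentiableAt (by norm_num))
    exact hd.hasFDerivAt.comp_hasDerivAt t (hγ t)
  have hbound : ∀ t ∈ Icc (0 : ℝ) 1,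
      |fderiv ℝ p (x + t • (y - x)) (y - x)| ≤ K * p (x + t • (y - x)) := by
    intro t ht
    have hQ' : Quasi L (ball (x + t • (y - x)) ρ) p := by
      refine ⟨hQ.1.mono (hseg _ (hmem t ht)), ?_⟩
      intro z hz
      exact hQ.2 z (hseg _ (hmem t ht) hz)
    have h1 := H p (x + t • (y - x)) ρ hρ hρ1 hQ'
    have h2 : ‖fderiv ℝ p (x + t • (y - x)) (y - x)‖ ≤ ‖fderiv ℝ p (x + t • (y - x))‖ * ‖y - x‖ :=
      ContinuousLinearMap.le_opNorm _ _
    rw [Real.norm_eq_abs] at h2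
    calc |fderiv ℝ p (x + t • (y - x)) (y - x)| ≤ ‖fderiv ℝ p (x + t • (y - x))‖ * ‖y - x‖ := h2
      _ ≤ (C / ρ * p (x + t • (y - x))) * ‖y - x‖ := mul_le_mul_of_nonneg_right h1 (norm_nonneg _)
      _ = K * p (x + t • (y - x)) := by rw [hK, norm_sub_rev y x]; ring
  have hψ : ∀ t ∈ Icc (0 : ℝ) 1,
      HasDerivAt (fun t : ℝ => p (x + t • (y - x)) * Real.exp (K * t))
        (fderiv ℝ p (x + t • (y - x)) (y - x) * Real.exp (K * t) +
          p (x + t • (y - x)) * (Real.exp (K * t) * K)) t := by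
    intro t ht
    have he : HasDerivAt (fun t : ℝ => Real.exp (K * t)) (Real.exp (K * t) * K) t := by
      have h1 : HasDerivAt (fun t : ℝ => K * t) (K * 1) t := (hasDerivAt_id t).const_mul K
      rw [mul_one] at h1
      exact h1.exp
    exact (hder t ht).mul he
  have hmono : MonotoneOn (fun t : ℝ => p (x + t • (y - x)) * Real.exp (K * t)) (Icc (0 : ℝ) 1) := by
    apply monotoneOn_of_deriv_nonneg (convex_Icc 0 1)
    · intro t ht
      exact (hψ t ht).continuousAt.continuousWithinAt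
    · intro t ht
      rw [interior_Icc] at ht
      exact (hψ t ⟨ht.1.le, ht.2.le⟩).differentiableAt.differentiableWithinAt
    · intro t ht
      rw [interior_Icc] at ht
      have ht' : t ∈ Icc (0 : ℝ) 1 := ⟨ht.1.le, ht.2.le⟩
      rw [(hψ t ht').deriv]
      have h1 := (abs_le.mp (hbound t ht')).1
      have h2 : 0 < Real.exp (K * t) := Real.exp_pos _
      have h3 : 0 ≤ (fderiv ℝ p (x + t • (y - x)) (y - x) + K * p (x + t • (y - x))) * Real.exp (K * t) :=
        mul_nonneg (by linarith) h2.le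
      nlinarith [h3]
  have hfin := hmono (left_mem_Icc.mpr zero_le_one) (right_mem_Icc.mpr zero_le_one) zero_le_one
  simp only [zero_smul, add_zero, mul_zero, Real.exp_zero, mul_one, one_smul] at hfin
  rw [add_sub_cancel] at hfin
  rw [mul_comm]
  exact hfin

end

end ExtStar
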