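import Pool.Agent.H631.ES.Defs

open Set Metric Filter Topology MeasureTheory

namespace ExtStar

noncomputable section

/-! TARGET: prove the following -/

theorem react_const (f : ℝ → ℝ) (hf : React f) : ∃ L c ε c₁ : ℝ, RC f L c ε c₁ := by
  obtain ⟨hC, h0, h1, _, hd1, hpos, hd0⟩ := hf
  have hdiff : Differentiable ℝ f := hC.differentiable (by norm_num)
  have hcont : Continuous (deriv f) := hC.continuous_deriv (by norm_num)
  -- Lipschitz
  obtain ⟨M, hM⟩ := (isCompact_Icc (a := (0:ℝ)) (b := 1)).exists_bound_of_continuousOn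
    hcont.continuousOn
  have hM0 : (0:ℝ) < max M 1 := lt_of_lt_of_le one_pos (le_max_right _ _)
  -- near 1
  have e1 : ∀ᶠ x in 𝓝 (1:ℝ), deriv f x < deriv f 1 / 2 :=
    (hcont.tendsto 1).eventually (gt_mem_nhds (by linarith))
  obtain ⟨δ, hδ, hδ1⟩ := Metric.eventually_nhds_iff.mp e1
  have e0 : ∀ᶠ x in 𝓝 (0:ℝ), deriv f 0 / 2 < deriv f x :=
    (hcont.tendsto 0).eventually (lt_mem_nhds (by linarith))
  obtain ⟨δ', hδ', hδ0⟩ := Metric.eventually_nhds_iff.mp e0
  set ε : ℝ := min (δ / 2) (1 / 4) with hε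
  set η : ℝ := min (δ' / 2) (1 / 4) with hη
  have hεpos : 0 < ε := lt_min (by linarith) (by norm_num)
  have hηpos : 0 < η := lt_min (by linarith) (by norm_num)
  have hε4 : ε ≤ 1 / 4 := min_le_right _ _
  have hη4 : η ≤ 1 / 4 := min_le_right _ _
  have hεδ : ε ≤ δ / 2 := min_le_left _ _
  have hηδ : η ≤ δ' / 2 := min_le_left _ _
  have hA : ∀ a b : ℝ, 1 - ε ≤ a → a ≤ b → b ≤ 1 → (-(deriv f 1) / 2) * (b - a) ≤ f a - f b := by
    intro a b ha hab hb
    have := Convex.image_sub_le_mul_sub_of_deriv_le (convex_Icc (1 - ε) 1) (f := f)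
      hdiff.continuous.continuousOn hdiff.differentiableOn (C := deriv f 1 / 2)
      (fun x hx => by
        rw [interior_Icc] at hx
        refine (hδ1 ?_).le
        rw [Real.dist_eq, abs_lt]
        constructor <;> [linarith [hx.1]; linarith [hx.2]])
      a ⟨ha, hab.trans hb⟩ b ⟨ha.trans hab, hb⟩ hab
    linarith
  have hB : ∀ s : ℝ, 0 ≤ s → s ≤ η → (deriv f 0 / 2) * s ≤ f s := by
    intro s hs hsη
    have := Convex.mul_sub_le_image_sub_of_le_deriv (convex_Icc 0 η) (f := f)
      hdiff.continuous.continuousOn hdiff.differentiableOn (C := deriv f 0 / 2)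
      (fun x hx => by
        rw [interior_Icc] at hx
        refine (hδ0 ?_).le
        rw [Real.dist_eq, abs_lt]
        constructor <;> [linarith [hx.1]; linarith [hx.2]])
      0 ⟨le_refl _, hs.trans hsη⟩ s ⟨hs, hsη⟩ hs
    rw [h0] at this
    linarith
  obtain ⟨m, hm, hmin⟩ := (isCompact_Icc (a := η) (b := 1 - ε)).exists_isMinOn
    ⟨1 / 2, by constructor <;> linarith⟩ hdiff.continuous.continuousOn
  have hmpos : 0 < f m := hpos m (by linarith [hm.1]) (by linarith [hm.2])
  refine ⟨max M 1, min (min (deriv f 0 / 2) (-(deriv f 1) / 2)) (f m), ε, -(deriv f 1) / 2,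
    hM0, ?_, hεpos, by linarith, by linarith, h0, h1, ?_, ?_, hA⟩
  · exact lt_min (lt_min (by linarith) (by linarith)) hmpos
  · intro a ha b hb
    have := Convex.norm_image_sub_le_of_norm_deriv_le (f := f) (s := Icc (0:ℝ) 1) (C := max M 1)
      (fun x _ => hdiff x) (fun x hx => (hM x hx).trans (le_max_left _ _)) (convex_Icc 0 1) hb ha
    simpa [Real.norm_eq_abs] using this
  · intro s hs
    set c := min (min (deriv f 0 / 2) (-(deriv f 1) / 2)) (f m) with hc
    have c1 : c ≤ deriv f 0 / 2 := (min_le_left _ _).trans (min_le_left _ _)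
    have c2 : c ≤ -(deriv f 1) / 2 := (min_le_left _ _).trans (min_le_right _ _)
    have c3 : c ≤ f m := min_le_right _ _
    have hcpos : 0 < c := lt_min (lt_min (by linarith) (by linarith)) hmpos
    have hs0 := hs.1
    have hs1 := hs.2
    have m1 : min s (1 - s) ≤ s := min_le_left _ _
    have m2 : min s (1 - s) ≤ 1 - s := min_le_right _ _
    by_cases hsη : s ≤ η
    · calc c * min s (1 - s) ≤ c * s := by gcongr
        _ ≤ (deriv f 0 / 2) * s := by gcongr
        _ ≤ f s := hB s hs0 hsη
    · by_cases hsε : 1 - ε ≤ s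
      · have := hA s 1 hsε hs1 le_rfl
        rw [h1] at this
        calc c * min s (1 - s) ≤ c * (1 - s) := by gcongr
          _ ≤ (-(deriv f 1) / 2) * (1 - s) := by
            apply mul_le_mul_of_nonneg_right c2; linarith
          _ ≤ f s := by linarith
      · push Not at hsη hsε
        have hfs : f m ≤ f s := hmin ⟨hsη.le, hsε.le⟩
        calc c * min s (1 - s) ≤ c * 1 := by
              apply mul_le_mul_of_nonneg_left _ hcpos.le; linarith
          _ ≤ f s := by linarith

end

end ExtStar
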