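import Pool.Agent.H631.ES.Defs
import Pool.Agent.H631.ES.X03

open Set Metric Filter Topology MeasureTheory

namespace ExtStar

noncomputable section

/-! TARGET: prove the following -/

theorem sol_quasi {d : ℕ} (f : ℝ → ℝ) (L c ε c₁ : ℝ) (hR : RC f L c ε c₁) (Ω : Set (E d))
    (hΩ : IsOpen Ω) (v : E d → ℝ) (hv : Sol f Ω v) :
    Quasi L Ω v ∧ Quasi L Ω (fun x => 1 - v x) := by
  obtain ⟨hL, hc, hε, hε1, hc1, hf0, hf1, hLip, -, -⟩ := hR
  obtain ⟨hC, -, -, hpos, heq⟩ := hv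
  constructor
  · refine ⟨hC, fun x hx => ⟨(hpos x hx).1.le, ?_⟩⟩
    have h1 := hLip (v x) ⟨(hpos x hx).1.le, (hpos x hx).2⟩ 0 ⟨le_refl _, zero_le_one⟩
    rw [hf0, sub_zero, sub_zero, abs_of_pos (hpos x hx).1, ← heq x hx, abs_neg] at h1
    exact h1
  · refine ⟨contDiffOn_const.sub hC, fun x hx => ⟨by linarith [(hpos x hx).2], ?_⟩⟩
    have hCx : ContDiffAt ℝ 2 v x := hC.contDiffAt (hΩ.mem_nhds hx)
    rw [lap_sub (fun _ => (1:ℝ)) v x contDiffAt_const hCx, lap_const, zero_sub, heq x hx]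
    have h1 := hLip (v x) ⟨(hpos x hx).1.le, (hpos x hx).2⟩ 1 ⟨zero_le_one, le_refl _⟩
    rw [hf1, sub_zero, abs_sub_comm (v x) 1, abs_of_nonneg (by linarith [(hpos x hx).2] : (0:ℝ) ≤ 1 - v x)] at h1
    exact h1

end

end ExtStar
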