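import Pool.Agent.H631.ES.Defs

open Set Metric Filter Topology MeasureTheory

namespace ExtStar

noncomputable section

/-! TARGET: prove the following -/

theorem star_aux {d : ℕ} (Ω : Set (E d)) (hs : Star0 Ω) (k : ℝ) (hk : 1 ≤ k) (w : E d)
    (h : k⁻¹ • w ∈ Ω) : w ∈ Ω := by
  by_contra hw
  have hk0 : 0 < k := by linarith
  have h1 : k⁻¹ • w ∈ Ωᶜ := starConvex_zero_iff.1 hs.2 hw (inv_nonneg.2 hk0.le) (inv_le_one_of_one_le₀ hk)
  exact h1 h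

theorem star_ball {d : ℕ} (Ω : Set (E d)) (hs : Star0 Ω) (x : E d) (ρ k : ℝ) (hk : 1 ≤ k)
    (h : ball x ρ ⊆ Ω) : ball (k • x) (k * ρ) ⊆ Ω := by
  intro w hw
  have hk0 : 0 < k := by linarith
  apply star_aux Ω hs k hk w
  apply h
  rw [mem_ball, dist_eq_norm] at hw ⊢
  have h1 : k⁻¹ • w - x = k⁻¹ • (w - k • x) := by
    rw [smul_sub, smul_smul, inv_mul_cancel₀ hk0.ne', one_smul]
  rw [h1, norm_smul, Real.norm_of_nonneg (inv_nonneg.2 hk0.le), inv_mul_lt_iff₀ hk0]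
  exact hw

theorem star_mem {d : ℕ} (Ω : Set (E d)) (hs : Star0 Ω) (k : ℝ) (hk : 1 ≤ k) :
    (∀ x ∈ Ω, k • x ∈ Ω) ∧ (∀ x ∈ closure Ω, k • x ∈ closure Ω) := by
  have hk0 : 0 < k := by linarith
  have h1 : ∀ x ∈ Ω, k • x ∈ Ω := by
    intro x hx
    apply star_aux Ω hs k hk
    rw [smul_smul, inv_mul_cancel₀ hk0.ne', one_smul]
    exact hx
  refine ⟨h1, fun x hx => ?_⟩
  exact map_mem_closure (continuous_const_smul k) hx h1

end

end ExtStar
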