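import Pool.Agent.H631.ES.Defs

open Set Metric Filter Topology MeasureTheory

namespace ExtStar

noncomputable section

/-! TARGET: prove the following -/

theorem near_point {d : ℕ} (Ω : Set (E d)) (hΩ : IsOpen Ω) (hne : (Ωᶜ).Nonempty) (r : ℝ) (hr : 0 < r)
    (hB : BC Ω r) (x : E d) (hx : x ∈ Ω) (hd : infDist x Ωᶜ < r) :
    ∃ q ν : E d, TB Ω r q ν ∧ x = q + infDist x Ωᶜ • ν := by
  have hcl : IsClosed Ωᶜ := hΩ.isClosed_compl
  obtain ⟨q, hq, hqd⟩ := hcl.exists_infDist_eq_dist hne x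
  have hpos : 0 < infDist x Ωᶜ := (hcl.notMem_iff_infDist_pos hne).1 (by simpa using hx)
  set h := infDist x Ωᶜ with hh
  have hball : ball x h ⊆ Ω := by
    intro y hy
    by_contra hyn
    have h1 : infDist x Ωᶜ ≤ dist x y := infDist_le_dist_of_mem hyn
    rw [mem_ball, dist_comm] at hy
    linarith
  have hqcl : q ∈ closure Ω := by
    apply closure_mono hball
    rw [closure_ball x (ne_of_gt hpos), mem_closedBall, dist_comm, ← hqd]
  have hqf : q ∈ frontier Ω := by
    rw [frontier, hΩ.interior_eq]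
    exact ⟨hqcl, hq⟩
  obtain ⟨ν, hν⟩ := hB q hqf
  refine ⟨q, ν, hν, ?_⟩
  obtain ⟨_, hν1, _, hout⟩ := hν
  have hdisj : Disjoint (ball x h) (ball (q - r • ν) r) :=
    Set.disjoint_of_subset hball hout disjoint_compl_right
  have hge : h + r ≤ dist x (q - r • ν) := (disjoint_ball_ball_iff hpos hr).1 hdisj
  have hw : ‖x - q‖ = h := by rw [← dist_eq_norm]; exact hqd.symm
  have he : dist x (q - r • ν) = ‖(x - q) + r • ν‖ := by
    rw [dist_eq_norm]; congr 1; abel
  rw [he] at hge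
  have hsq : ‖(x - q) + r • ν‖ ^ 2 = h ^ 2 + 2 * (r * inner ℝ (x - q) ν) + r ^ 2 := by
    rw [norm_add_sq_real, hw, inner_smul_right, norm_smul, hν1, Real.norm_of_nonneg hr.le]
    ring
  have hin : h ≤ inner ℝ (x - q) ν := by
    have h1 : (h + r) ^ 2 ≤ ‖(x - q) + r • ν‖ ^ 2 := by
      apply pow_le_pow_left₀ (by positivity) hge
    rw [hsq] at h1
    have h2 : 2 * r * h ≤ 2 * r * inner ℝ (x - q) ν := by nlinarith
    exact le_of_mul_le_mul_left h2 (by positivity)
  have hz : ‖(x - q) - h • ν‖ ^ 2 ≤ 0 := by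
    rw [norm_sub_sq_real, hw, inner_smul_right, norm_smul, hν1, Real.norm_of_nonneg hpos.le]
    nlinarith
  have hz0 : (x - q) - h • ν = 0 := by
    have h3 : ‖(x - q) - h • ν‖ = 0 := by
      have h4 : 0 ≤ ‖(x - q) - h • ν‖ := norm_nonneg _
      nlinarith [sq_nonneg ‖(x - q) - h • ν‖]
    exact norm_eq_zero.1 h3
  have h5 : x - q = h • ν := sub_eq_zero.1 hz0
  rw [← h5]
  abel

end

end ExtStar
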