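import Pool.Agent.H631.ES.Defs

open Set Metric Filter Topology MeasureTheory

namespace ExtStar

noncomputable section

theorem ball_sep_aux {d : ℕ} (Ω : Set (E d)) (r : ℝ) (hr : 0 < r) (a b : E d)
    (ha : ball a r ⊆ Ω) (hb : ball b r ⊆ Ωᶜ) : 2 * r ≤ ‖a - b‖ := by
  by_contra hlt
  push Not at hlt
  have h1 : midpoint ℝ a b ∈ ball a r := by
    rw [mem_ball, dist_midpoint_left, dist_eq_norm]
    rw [Real.norm_of_nonneg (by norm_num : (0:ℝ) ≤ 2)]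
    linarith
  have h2 : midpoint ℝ a b ∈ ball b r := by
    rw [mem_ball, dist_midpoint_right, dist_eq_norm]
    rw [Real.norm_of_nonneg (by norm_num : (0:ℝ) ≤ 2)]
    linarith
  exact hb h2 (ha h1)

theorem ball_shift_aux {d : ℕ} (τ r : ℝ) (h1 : τ ≤ r) (q ν : E d) (hν : ‖ν‖ = 1) (s : ℝ)
    (hs : |s| = 1) : ball (q + (s * τ) • ν) τ ⊆ ball (q + (s * r) • ν) r := by
  intro x hx
  rw [mem_ball] at hx ⊢
  have h2 : dist (q + (s * τ) • ν) (q + (s * r) • ν) = r - τ := by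
    rw [dist_add_left, dist_eq_norm, ← sub_smul, norm_smul, hν, mul_one, ← mul_sub,
      Real.norm_eq_abs, abs_mul, hs, one_mul, abs_sub_comm, abs_of_nonneg (by linarith)]
  have h3 := dist_triangle x (q + (s * τ) • ν) (q + (s * r) • ν)
  linarith

theorem normal_lip {d : ℕ} (Ω : Set (E d)) (r : ℝ) (hr : 0 < r) (q ν q' ν' : E d) (h : TB Ω r q ν)
    (h' : TB Ω r q' ν') : ‖ν - ν'‖ ≤ ‖q - q'‖ / r := by
  obtain ⟨-, hn, hin, hout⟩ := h
  obtain ⟨-, hn', hin', hout'⟩ := h'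
  have h1 := ball_sep_aux Ω r hr _ _ hin hout'
  have h2 := ball_sep_aux Ω r hr _ _ hin' hout
  have e1 : q + r • ν - (q' - r • ν') = r • (ν + ν') + (q - q') := by
    rw [smul_add]; abel
  have e2 : q' + r • ν' - (q - r • ν) = r • (ν + ν') - (q - q') := by
    rw [smul_add]; abel
  rw [e1] at h1
  rw [e2] at h2
  have hp := parallelogram_law_with_norm ℝ (r • (ν + ν')) (q - q')
  have hp2 := parallelogram_law_with_norm ℝ ν ν'
  rw [hn, hn'] at hp2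
  rw [norm_smul, Real.norm_of_nonneg hr.le] at hp
  have s1 : (2 * r) * (2 * r) ≤ ‖r • (ν + ν') + (q - q')‖ * ‖r • (ν + ν') + (q - q')‖ :=
    mul_self_le_mul_self (by linarith) h1
  have s2 : (2 * r) * (2 * r) ≤ ‖r • (ν + ν') - (q - q')‖ * ‖r • (ν + ν') - (q - q')‖ :=
    mul_self_le_mul_self (by linarith) h2
  rw [le_div_iff₀ hr]
  have key : (‖ν - ν'‖ * r) ^ 2 ≤ ‖q - q'‖ ^ 2 := by
    have h3 : ‖ν + ν'‖ * ‖ν + ν'‖ = 4 - ‖ν - ν'‖ * ‖ν - ν'‖ := by linarith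
    have h4 : (r * ‖ν + ν'‖) ^ 2 = r ^ 2 * (4 - ‖ν - ν'‖ * ‖ν - ν'‖) := by
      rw [← h3]; ring
    rw [h4] at hp
    nlinarith
  exact (abs_le_of_sq_le_sq' key (norm_nonneg _)).2

theorem TB_mono {d : ℕ} (Ω : Set (E d)) (r ρ : ℝ) (hρ : 0 < ρ) (hr : ρ ≤ r) (q ν : E d) (h : TB Ω r q ν) :
    TB Ω ρ q ν := by
  obtain ⟨hq, hn, hin, hout⟩ := h
  have a1 := ball_shift_aux ρ r hr q ν hn 1 (by simp)
  have a2 := ball_shift_aux ρ r hr q ν hn (-1) (by simp)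
  simp only [one_mul] at a1
  simp only [neg_mul, one_mul, neg_smul, ← sub_eq_add_neg] at a2
  exact ⟨hq, hn, a1.trans hin, a2.trans hout⟩

theorem TB_ball {d : ℕ} (Ω : Set (E d)) (r τ : ℝ) (h0 : 0 ≤ τ) (h1 : τ ≤ r) (q ν : E d) (h : TB Ω r q ν) :
    ball (q + τ • ν) τ ⊆ Ω := by
  obtain ⟨hq, hn, hin, hout⟩ := h
  have a1 := ball_shift_aux τ r h1 q ν hn 1 (by simp)
  simp only [one_mul] at a1
  exact a1.trans hin

theorem infDist_ball {d : ℕ} (Ω : Set (E d)) (hΩ : IsOpen Ω) (hne : (Ωᶜ).Nonempty) (x : E d) (hx : x ∈ Ω) :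
    0 < infDist x Ωᶜ ∧ ball x (infDist x Ωᶜ) ⊆ Ω := by
  refine ⟨?_, ?_⟩
  · have hc : IsClosed (Ωᶜ) := hΩ.isClosed_compl
    exact (hc.notMem_iff_infDist_pos hne).1 (by simpa using hx)
  · intro y hy
    by_contra hy'
    have := infDist_le_dist_of_mem (x := x) (show y ∈ Ωᶜ from hy')
    rw [mem_ball, dist_comm] at hy
    linarith

end

end ExtStar
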