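import Pool.Agent.H631.ES.Defs

open Set Metric Filter Topology MeasureTheory

namespace ExtStar

noncomputable section

/-! TARGET: prove the following -/

/-- second order Taylor bound -/
theorem quad_bound {d : ℕ} (φ : E d → ℝ) (hφ : ContDiff ℝ 2 φ) (M : ℝ) (h0 : φ 0 = 0)
    (hb : ∀ y : E d, ‖iteratedFDeriv ℝ 2 φ y‖ ≤ M) (w : E d) :
    |φ w - fderiv ℝ φ 0 w| ≤ |M| * ‖w‖ ^ 2 := by
  have hφ1 : Differentiable ℝ φ := hφ.differentiable (by norm_num)
  have hφ2 : ContDiff ℝ 1 (fderiv ℝ φ) := hφ.fderiv_right (by norm_num)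
  have hφ2d : Differentiable ℝ (fderiv ℝ φ) := hφ2.differentiable (by norm_num)
  have hM : ∀ y : E d, ‖fderiv ℝ (fderiv ℝ φ) y‖ ≤ |M| := by
    intro y
    rw [← norm_iteratedFDeriv_one, norm_iteratedFDeriv_fderiv]
    exact (hb y).trans (le_abs_self M)
  have h1 : ∀ y : E d, ‖fderiv ℝ φ y - fderiv ℝ φ 0‖ ≤ |M| * ‖y‖ := by
    intro y
    have := Convex.norm_image_sub_le_of_norm_fderiv_le (𝕜 := ℝ) (f := fderiv ℝ φ) (s := Set.univ)
      (x := 0) (y := y) (C := |M|) (fun x _ => hφ2d x) (fun x _ => hM x) convex_univ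
      (mem_univ _) (mem_univ _)
    simpa using this
  have h2 := Convex.norm_image_sub_le_of_norm_fderiv_le (𝕜 := ℝ)
    (f := fun y => φ y - fderiv ℝ φ 0 y) (s := closedBall (0 : E d) ‖w‖)
      (x := 0) (y := w) (C := |M| * ‖w‖)
      (fun x _ => (hφ1 x).sub (fderiv ℝ φ 0).differentiableAt)
      (fun x hx => by
        have e : fderiv ℝ (fun y => φ y - fderiv ℝ φ 0 y) x = fderiv ℝ φ x - fderiv ℝ φ 0 := by
          have := (hφ1 x).hasFDerivAt.sub (fderiv ℝ φ 0).hasFDerivAt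
          exact this.fderiv
        rw [e]
        refine (h1 x).trans ?_
        have : ‖x‖ ≤ ‖w‖ := by simpa using hx
        exact mul_le_mul_of_nonneg_left this (abs_nonneg M))
      (convex_closedBall _ _) (by simp) (by simp)
  have h3 : ‖φ w - fderiv ℝ φ 0 w‖ ≤ |M| * ‖w‖ * ‖w‖ := by simpa [h0] using h2
  rw [Real.norm_eq_abs] at h3
  calc |φ w - fderiv ℝ φ 0 w| ≤ |M| * ‖w‖ * ‖w‖ := h3
    _ = |M| * ‖w‖ ^ 2 := by ring

theorem graph_BC {d : ℕ} (Ω : Set (E d)) (hΩ : IsOpen Ω) (r M : ℝ) (hr : 0 < r)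
    (h : ∀ p ∈ frontier Ω, ∃ ν : EuclideanSpace ℝ (Fin d), ‖ν‖ = 1 ∧
        ∃ φ : EuclideanSpace ℝ (Fin d) → ℝ, ContDiff ℝ 2 φ ∧
          (∀ (y : EuclideanSpace ℝ (Fin d)) (t : ℝ), φ (y + t • ν) = φ y) ∧
          (∀ y : EuclideanSpace ℝ (Fin d),
              ‖iteratedFDeriv ℝ 1 φ y‖ ≤ M ∧ ‖iteratedFDeriv ℝ 2 φ y‖ ≤ M) ∧
          ∀ x ∈ Metric.ball p r, (x ∈ Ω ↔ φ (x - p) < inner ℝ (x - p) ν)) :
    ∃ r' : ℝ, 0 < r' ∧ r' ≤ 1 ∧ BC Ω r' := by
  have hK : 0 < 2 * (|M| + 1) := by positivity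
  refine ⟨min (r / 2) (1 / (2 * (|M| + 1))), ?_, ?_, ?_⟩
  · exact lt_min (by positivity) (by positivity)
  · refine (min_le_right _ _).trans ?_
    rw [div_le_one hK]
    have := abs_nonneg M
    linarith
  intro q hq
  obtain ⟨ν, hν, φ, hφ, hinv, hb, hiff⟩ := h q hq
  set ρ := min (r / 2) (1 / (2 * (|M| + 1))) with hρ
  have hρ0 : 0 < ρ := lt_min (by positivity) (by positivity)
  have hρr : ρ ≤ r / 2 := min_le_left _ _
  have hρM : 2 * ρ * (|M| + 1) ≤ 1 := by
    have h1 : ρ ≤ 1 / (2 * (|M| + 1)) := min_le_right _ _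
    rw [le_div_iff₀ hK] at h1
    linarith
  have hφc : Continuous φ := hφ.continuous
  have hφ1 : Differentiable ℝ φ := hφ.differentiable (by norm_num)
  have hqn : q ∉ Ω := by
    have h1 := hq
    rw [hΩ.frontier_eq] at h1
    exact h1.2
  have h0a : 0 ≤ φ 0 := by
    by_contra hlt
    push Not at hlt
    apply hqn
    rw [hiff q (mem_ball_self hr)]
    simpa using hlt
  have h0b : φ 0 ≤ 0 := by
    by_contra hcon
    push Not at hcon
    have hopen : IsOpen {x : E d | inner ℝ (x - q) ν < φ (x - q)} :=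
      isOpen_lt (by fun_prop) (hφc.comp (by fun_prop))
    have hmem : q ∈ {x : E d | inner ℝ (x - q) ν < φ (x - q)} := by simpa using hcon
    obtain ⟨x, ⟨hx1, hx2⟩, hxΩ⟩ := mem_closure_iff.1 (frontier_subset_closure hq) _
      (hopen.inter isOpen_ball) ⟨hmem, mem_ball_self hr⟩
    exact absurd ((hiff x hx2).1 hxΩ) (not_lt.2 (le_of_lt hx1))
  have h0 : φ 0 = 0 := le_antisymm h0b h0a
  have hker : fderiv ℝ φ 0 ν = 0 := by
    rw [← (hφ1 0).lineDeriv_eq_fderiv]
    unfold lineDeriv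
    have : (fun t : ℝ => φ (0 + t • ν)) = fun _ => φ 0 := by
      funext t
      exact hinv 0 t
    rw [this]
    simp
  have hquad := quad_bound φ hφ M h0 (fun y => (hb y).2)
  set g : E d := (InnerProductSpace.toDual ℝ (E d)).symm (fderiv ℝ φ 0) with hg
  have hgw : ∀ w : E d, inner ℝ g w = fderiv ℝ φ 0 w := fun w =>
    InnerProductSpace.toDual_symm_apply
  have hgν : inner ℝ g ν = 0 := by rw [hgw, hker]
  set n : E d := ν - g with hn
  have hn1 : 1 ≤ ‖n‖ := by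
    have h1 : ‖n‖ ^ 2 = 1 + ‖g‖ ^ 2 := by
      rw [hn, norm_sub_sq_real, real_inner_comm, hgν, hν]
      ring
    have h2 : 0 ≤ ‖g‖ ^ 2 := by positivity
    nlinarith [norm_nonneg n]
  have hn0 : 0 < ‖n‖ := by linarith
  set N : E d := (‖n‖)⁻¹ • n with hN
  have hN1 : ‖N‖ = 1 := by
    rw [hN, norm_smul, norm_inv, norm_norm, inv_mul_cancel₀ hn0.ne']
  have hnN : ∀ w : E d, inner ℝ w n = ‖n‖ * inner ℝ w N := by
    intro w
    rw [hN, inner_smul_right, ← mul_assoc, mul_inv_cancel₀ hn0.ne', one_mul]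
  -- F(w)
  have hF : ∀ w : E d, |(inner ℝ w ν - φ w) - inner ℝ w n| ≤ |M| * ‖w‖ ^ 2 := by
    intro w
    have e : (inner ℝ w ν - φ w) - inner ℝ w n = -(φ w - fderiv ℝ φ 0 w) := by
      rw [hn, inner_sub_right, ← hgw w, real_inner_comm w g]
      ring
    rw [e, abs_neg]
    exact hquad w
  refine ⟨N, hq, hN1, ?_, ?_⟩
  · intro x hx
    have hw : ‖(x - q) - ρ • N‖ < ρ := by
      have : ‖x - (q + ρ • N)‖ < ρ := by simpa [mem_ball, dist_eq_norm] using hx
      rwa [← sub_sub] at this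
    set w := x - q with hwdef
    have hsq : ‖w‖ ^ 2 < 2 * ρ * inner ℝ w N := by
      have h1 : ‖w - ρ • N‖ ^ 2 < ρ ^ 2 := by
        have := norm_nonneg (w - ρ • N)
        nlinarith
      rw [norm_sub_sq_real, inner_smul_right, norm_smul, hN1, Real.norm_eq_abs, abs_of_pos hρ0] at h1
      nlinarith
    have hwr : ‖w‖ < r := by
      have h1 : ‖w‖ ≤ ‖w - ρ • N‖ + ‖ρ • N‖ := by
        have := norm_add_le (w - ρ • N) (ρ • N)
        simpa using this
      rw [norm_smul, hN1, Real.norm_eq_abs, abs_of_pos hρ0] at h1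
      linarith
    have hxb : x ∈ ball q r := by rw [mem_ball, dist_eq_norm]; exact hwr
    rw [hiff x hxb]
    have h1 := hF w
    rw [abs_le] at h1
    have h2 := hnN w
    have hpos : 0 < inner ℝ w N := by
      have : 0 ≤ ‖w‖ ^ 2 := by positivity
      by_contra hc
      push Not at hc
      have : 2 * ρ * inner ℝ w N ≤ 0 := by
        have : 0 ≤ 2 * ρ := by positivity
        nlinarith
      linarith
    have h3 : inner ℝ w N ≤ ‖n‖ * inner ℝ w N := by nlinarith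
    have h4 : (|M| + 1) * ‖w‖ ^ 2 ≤ inner ℝ w N := by
      have h5 : (|M| + 1) * ‖w‖ ^ 2 ≤ (|M| + 1) * (2 * ρ * inner ℝ w N) :=
        mul_le_mul_of_nonneg_left hsq.le (by positivity)
      have h6 : (|M| + 1) * (2 * ρ * inner ℝ w N) = (2 * ρ * (|M| + 1)) * inner ℝ w N := by ring
      have h7 : (2 * ρ * (|M| + 1)) * inner ℝ w N ≤ 1 * inner ℝ w N :=
        mul_le_mul_of_nonneg_right hρM hpos.le
      linarith
    have h8 : 0 ≤ ‖w‖ ^ 2 := by positivity
    by_cases hw0 : ‖w‖ ^ 2 = 0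
    · rw [hw0] at h1
      linarith [h1.1]
    · have : 0 < ‖w‖ ^ 2 := lt_of_le_of_ne h8 (Ne.symm hw0)
      nlinarith [h1.1]
  · intro x hx
    have hw : ‖(x - q) + ρ • N‖ < ρ := by
      have : ‖x - (q - ρ • N)‖ < ρ := by simpa [mem_ball, dist_eq_norm] using hx
      have e : x - (q - ρ • N) = (x - q) + ρ • N := by abel
      rwa [e] at this
    set w := x - q with hwdef
    have hsq : ‖w‖ ^ 2 < - (2 * ρ * inner ℝ w N) := by
      have h1 : ‖w + ρ • N‖ ^ 2 < ρ ^ 2 := by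
        have := norm_nonneg (w + ρ • N)
        nlinarith
      rw [norm_add_sq_real, inner_smul_right, norm_smul, hN1, Real.norm_eq_abs, abs_of_pos hρ0] at h1
      nlinarith
    have hwr : ‖w‖ < r := by
      have h1 : ‖w‖ ≤ ‖w + ρ • N‖ + ‖ρ • N‖ := by
        have := norm_sub_le (w + ρ • N) (ρ • N)
        simpa using this
      rw [norm_smul, hN1, Real.norm_eq_abs, abs_of_pos hρ0] at h1
      linarith
    have hxb : x ∈ ball q r := by rw [mem_ball, dist_eq_norm]; exact hwr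
    rw [mem_compl_iff, hiff x hxb]
    have h1 := hF w
    rw [abs_le] at h1
    have h2 := hnN w
    have hneg : inner ℝ w N < 0 := by
      have : 0 ≤ ‖w‖ ^ 2 := by positivity
      by_contra hc
      push Not at hc
      have : 0 ≤ 2 * ρ * inner ℝ w N := by positivity
      linarith
    have h3 : ‖n‖ * inner ℝ w N ≤ inner ℝ w N := by nlinarith
    have h4 : (|M| + 1) * ‖w‖ ^ 2 ≤ - inner ℝ w N := by
      have h5 : (|M| + 1) * ‖w‖ ^ 2 ≤ (|M| + 1) * (-(2 * ρ * inner ℝ w N)) :=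
        mul_le_mul_of_nonneg_left hsq.le (by positivity)
      have h6 : (|M| + 1) * (-(2 * ρ * inner ℝ w N)) = (2 * ρ * (|M| + 1)) * (-inner ℝ w N) := by
        ring
      have h7 : (2 * ρ * (|M| + 1)) * (-inner ℝ w N) ≤ 1 * (-inner ℝ w N) :=
        mul_le_mul_of_nonneg_right hρM (by linarith)
      linarith
    have h8 : 0 ≤ ‖w‖ ^ 2 := by positivity
    intro hcon
    nlinarith [h1.2]

end

end ExtStar
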