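import Pool.Agent.H631.ES.Defs
import Pool.Agent.H631.ES.X04

open Set Metric Filter Topology MeasureTheory

namespace ExtStar

noncomputable section

/-! TARGET: prove the following -/

theorem Sol_shift {d : ℕ} (f : ℝ → ℝ) (Ω : Set (E d)) (a : E d) (u : E d → ℝ) (hu : Sol f Ω u) :
    Sol f ((fun x => x + a) ⁻¹' Ω) (fun x => u (x + a)) := by
  obtain ⟨h1, h2, h3, h4, h5⟩ := hu
  have hcl : closure ((fun x : E d => x + a) ⁻¹' Ω) = (fun x : E d => x + a) ⁻¹' closure Ω :=
    ((Homeomorph.addRight a).preimage_closure Ω).symm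
  have hfr : frontier ((fun x : E d => x + a) ⁻¹' Ω) = (fun x : E d => x + a) ⁻¹' frontier Ω :=
    ((Homeomorph.addRight a).preimage_frontier Ω).symm
  refine ⟨?_, ?_, ?_, ?_, ?_⟩
  · exact h1.comp (contDiff_id.add contDiff_const).contDiffOn (fun x hx => hx)
  · rw [hcl]
    exact h2.comp (by fun_prop) (fun x hx => hx)
  · intro x hx
    rw [hfr] at hx
    exact h3 _ hx
  · intro x hx
    exact h4 _ hx
  · intro x hx
    rw [lap_shift]
    exact h5 _ hx

theorem BC_shift {d : ℕ} (Ω : Set (E d)) (a : E d) (r : ℝ) (h : BC Ω r) :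
    BC ((fun x => x + a) ⁻¹' Ω) r := by
  have hfr : frontier ((fun x : E d => x + a) ⁻¹' Ω) = (fun x : E d => x + a) ⁻¹' frontier Ω :=
    ((Homeomorph.addRight a).preimage_frontier Ω).symm
  intro q hq
  have hq' : q + a ∈ frontier Ω := by
    rw [hfr] at hq
    exact hq
  obtain ⟨ν, h1, h2, h3, h4⟩ := h _ hq'
  refine ⟨ν, hq, h2, ?_, ?_⟩
  · intro x hx
    apply h3
    rw [mem_ball] at hx ⊢
    have e : q + a + r • ν = (q + r • ν) + a := by abel
    rw [e, dist_add_right]
    exact hx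
  · intro x hx
    show x + a ∉ Ω
    apply h4
    rw [mem_ball] at hx ⊢
    have e : q + a - r • ν = (q - r • ν) + a := by abel
    rw [e, dist_add_right]
    exact hx

end

end ExtStar
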