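import Pool.Agent.H631.ES.Defs
import Pool.Agent.H631.ES.X02
import Pool.Agent.H631.ES.X03
import Pool.Agent.H631.ES.X05

open Set Metric Filter Topology MeasureTheory

namespace ExtStar

noncomputable section

/-! TARGET: prove the following -/

theorem bigball_low_alg (A R n : ℝ) (d : ℕ) (hA : 0 < A) (hR : ((d : ℝ) + 2) ^ 2 ≤ A * R ^ 2) :
    -(8 * n - 4 * (d : ℝ) * (R ^ 2 - n)) ≤ A / 2 * (R ^ 2 - n) ^ 2 := by
  set w : ℝ := R ^ 2 - n with hw
  have hn : n = R ^ 2 - w := by rw [hw]; ring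
  rw [hn]
  have h1 : 0 ≤ 2 * A * (A / 2 * w ^ 2 - 4 * ((d : ℝ) + 2) * w + 8 * R ^ 2) := by
    have h2 : 2 * A * (A / 2 * w ^ 2 - 4 * ((d : ℝ) + 2) * w + 8 * R ^ 2) =
        (A * w - 4 * ((d : ℝ) + 2)) ^ 2 + 16 * (A * R ^ 2 - ((d : ℝ) + 2) ^ 2) := by ring
    rw [h2]
    have := sq_nonneg (A * w - 4 * ((d : ℝ) + 2))
    linarith
  have h3 : 0 ≤ A / 2 * w ^ 2 - 4 * ((d : ℝ) + 2) * w + 8 * R ^ 2 :=
    nonneg_of_mul_nonneg_right h1 (by positivity)
  linarith

theorem bigball_low_f (f : ℝ → ℝ) (hf1 : ContDiff ℝ 1 f) (hf0 : f 0 = 0) (hA : 0 < deriv f 0) :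
    ∃ δ : ℝ, 0 < δ ∧ ∀ s, 0 ≤ s → s < δ → 3 / 4 * deriv f 0 * s ≤ f s := by
  have hd : HasDerivAt f (deriv f 0) 0 :=
    ((hf1.differentiable (by norm_num)) 0).hasDerivAt
  have hlo := (hasDerivAt_iff_isLittleO.1 hd).def (c := deriv f 0 / 4) (by positivity)
  rw [Metric.eventually_nhds_iff] at hlo
  obtain ⟨δ, hδ, hlo⟩ := hlo
  refine ⟨δ, hδ, ?_⟩
  intro s hs0 hs1
  have h1 := hlo (y := s) (by rw [Real.dist_eq, sub_zero, abs_of_nonneg hs0]; exact hs1)
  rw [hf0, sub_zero, sub_zero, Real.norm_eq_abs, Real.norm_eq_abs, abs_of_nonneg hs0,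
    smul_eq_mul, abs_le] at h1
  nlinarith [h1.1]

theorem bigball_low (d : ℕ) (f : ℝ → ℝ) (hf : React f) : ∃ c₀ R₁ : ℝ, 0 < c₀ ∧ 0 < R₁ ∧
    ∀ (Ω : Set (E d)) (v : E d → ℝ) (x : E d), IsOpen Ω → Sol f Ω v → closedBall x R₁ ⊆ Ω → c₀ ≤ v x := by
  obtain ⟨hf1, hf0, -, -, -, -, hA⟩ := hf
  obtain ⟨δ, hδ, hlow⟩ := bigball_low_f f hf1 hf0 hA
  set A : ℝ := deriv f 0 with hAdef
  set R : ℝ := 1 + ((d : ℝ) + 2) ^ 2 / A with hRdef
  have hR0 : 0 < R := by positivity
  have hR1 : 1 ≤ R := by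
    have : 0 ≤ ((d : ℝ) + 2) ^ 2 / A := by positivity
    linarith
  have hAR : ((d : ℝ) + 2) ^ 2 ≤ A * R ^ 2 := by
    have h1 : ((d : ℝ) + 2) ^ 2 ≤ A * R := by
      rw [hRdef, mul_add, mul_div_cancel₀ _ hA.ne']
      linarith
    have h2 : A * R ≤ A * R ^ 2 := by
      apply mul_le_mul_of_nonneg_left _ hA.le
      nlinarith
    linarith
  refine ⟨δ / 2, R, by positivity, hR0, ?_⟩
  intro Ω v x hΩ hsol hK
  obtain ⟨hv2, -, -, hvpos, hveq⟩ := hsol
  by_contra hlt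
  push Not at hlt
  have hKc : IsCompact (closedBall x R) := isCompact_closedBall x R
  have hxK : x ∈ closedBall x R := mem_closedBall_self hR0.le
  have hvc : ContinuousOn v (closedBall x R) := hv2.continuousOn.mono hK
  have hpos : ∀ y ∈ closedBall x R, 0 < v y := fun y hy => (hvpos y (hK hy)).1
  set ψ : E d → ℝ := fun y => (R ^ 2 - ‖y - x‖ ^ 2) ^ 2 with hψ
  have hψd : ContDiff ℝ 2 ψ := by
    have h1 : ContDiff ℝ 2 (fun y : E d => ‖y - x‖ ^ 2) :=
      (contDiff_id.sub contDiff_const).norm_sq ℝ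
    exact (contDiff_const.sub h1).pow 2
  have hqc : ContinuousOn (fun y => ψ y / v y) (closedBall x R) :=
    hψd.continuous.continuousOn.div hvc (fun y hy => (hpos y hy).ne')
  obtain ⟨xs, hxs, hmax⟩ := hKc.exists_isMaxOn ⟨x, hxK⟩ hqc
  have hmax' : ∀ y ∈ closedBall x R, ψ y / v y ≤ ψ xs / v xs := fun y hy => hmax hy
  have hψx : ψ x = R ^ 4 := by
    simp only [hψ, sub_self, norm_zero]
    ring
  have hvxs := hpos xs hxs
  have hψxs : 0 < ψ xs := by
    have h1 := hmax' x hxK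
    have h2 : 0 < ψ x / v x := by
      rw [hψx]
      exact div_pos (by positivity) (hpos x hxK)
    have h3 := lt_of_lt_of_le h2 h1
    by_contra h4
    push Not at h4
    exact absurd h3 (not_lt.2 (div_nonpos_of_nonpos_of_nonneg h4 hvxs.le))
  set t : ℝ := v xs / ψ xs with ht
  have ht0 : 0 < t := div_pos hvxs hψxs
  have htψ : t * ψ xs = v xs := div_mul_cancel₀ _ hψxs.ne'
  have hge : ∀ y ∈ closedBall x R, t * ψ y ≤ v y := by
    intro y hy
    have h1 := hmax' y hy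
    rw [div_le_div_iff₀ (hpos y hy) hvxs] at h1
    rw [ht, div_mul_eq_mul_div, div_le_iff₀ hψxs]
    linarith
  have htR : t * R ^ 4 < δ / 2 := by
    have h1 := hge x hxK
    rw [hψx] at h1
    linarith
  have hfin := comp_compact (closedBall x R) hKc (fun y => v y - (5 / 4 * t) * ψ y)
    (hvc.sub (continuousOn_const.mul hψd.continuous.continuousOn)) (by
      intro y hy hneg
      have hvy := hpos y hy
      have h1 : 0 < ψ y := by
        by_contra h2
        push Not at h2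
        have h3 : (5 / 4 * t) * ψ y ≤ 0 := mul_nonpos_of_nonneg_of_nonpos (by positivity) h2
        linarith
      have hyR : ‖y - x‖ ≤ R := by rwa [← mem_closedBall_iff_norm]
      have hyR2 : ‖y - x‖ < R := by
        rcases lt_or_eq_of_le hyR with h2 | h2
        · exact h2
        · exfalso
          have h3 : ψ y = 0 := by simp only [hψ, h2]; ring
          linarith
      have hcv : ContDiffAt ℝ 2 v y := hv2.contDiffAt (hΩ.mem_nhds (hK hy))
      have hcψ : ContDiffAt ℝ 2 (fun y => (5 / 4 * t) * ψ y) y :=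
        contDiffAt_const.mul hψd.contDiffAt
      refine ⟨ball_subset_interior_closedBall (mem_ball_iff_norm.2 hyR2), hcv.sub hcψ, ?_⟩
      rw [lap_sub v _ y hcv hcψ, lap_smul _ ψ y hψd.contDiffAt, lap_quart R x y]
      have h4 : lap v y = -f (v y) := by
        have := hveq y (hK hy)
        linarith
      have h5 := bigball_low_alg A R (‖y - x‖ ^ 2) d hA hAR
      have h6 : ψ y ≤ R ^ 4 := by
        have h7 : 0 ≤ R ^ 2 - ‖y - x‖ ^ 2 := by nlinarith [norm_nonneg (y - x)]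
        have h8 : R ^ 2 - ‖y - x‖ ^ 2 ≤ R ^ 2 := by nlinarith [norm_nonneg (y - x)]
        calc ψ y = (R ^ 2 - ‖y - x‖ ^ 2) ^ 2 := rfl
          _ ≤ (R ^ 2) ^ 2 := pow_le_pow_left₀ h7 h8 2
          _ = R ^ 4 := by ring
      have h9 : v y < δ := by
        have h10 : t * ψ y ≤ t * R ^ 4 := mul_le_mul_of_nonneg_left h6 ht0.le
        linarith
      have h11 := hlow (v y) hvy.le h9
      have h12 := hge y hy
      have h13 : (5 / 4 * t) * (-(8 * ‖y - x‖ ^ 2 - 4 * (d : ℝ) * (R ^ 2 - ‖y - x‖ ^ 2))) ≤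
          (5 / 4 * t) * (A / 2 * ψ y) := mul_le_mul_of_nonneg_left h5 (by positivity)
      have h14 : (5 / 4 * t) * (A / 2 * ψ y) ≤ 5 / 8 * A * v y := by
        have h15 : A * (t * ψ y) ≤ A * v y := mul_le_mul_of_nonneg_left h12 hA.le
        nlinarith
      have h16 : 0 < A * v y := mul_pos hA hvy
      rw [h4]
      nlinarith)
  have h17 := hfin xs hxs
  have h18 : 5 / 4 * t * ψ xs = 5 / 4 * v xs := by
    rw [mul_assoc, htψ]
  rw [h18] at h17
  linarith

end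

end ExtStar
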