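import Pool.Agent.H631.ES.Defs
import Pool.Agent.H631.ES.X02
import Pool.Agent.H631.ES.X03
import Pool.Agent.H631.ES.X05
import Pool.Agent.H631.ES.X23

open Set Metric Filter Topology MeasureTheory

namespace ExtStar

noncomputable section

/-! TARGET: prove the following -/

theorem near_one (d : ℕ) (f : ℝ → ℝ) (hf : React f) (e : ℝ) (he : 0 < e) (he1 : e < 1) :
    ∃ R : ℝ, 0 < R ∧
    ∀ (Ω : Set (E d)) (v : E d → ℝ) (x : E d), IsOpen Ω → Sol f Ω v → closedBall x R ⊆ Ω → 1 - e ≤ v x := by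
  obtain ⟨c₀, R₁, hc₀, hR₁, hlow⟩ := bigball_low d f hf
  by_cases hc : 1 - e ≤ c₀
  · exact ⟨R₁, hR₁, fun Ω v x hΩ hS hB => le_trans hc (hlow Ω v x hΩ hS hB)⟩
  push Not at hc
  have hfc : Continuous f := hf.1.continuous
  obtain ⟨s0, hs0, hmin⟩ := (isCompact_Icc : IsCompact (Icc c₀ (1 - e))).exists_isMinOn
    ⟨c₀, left_mem_Icc.2 hc.le⟩ hfc.continuousOn
  have hm : 0 < f s0 := hf.2.2.2.2.2.1 s0 (by linarith [hs0.1]) (by linarith [hs0.2])
  have hmin' : ∀ s, c₀ ≤ s → s ≤ 1 - e → f s0 ≤ f s := fun s h1 h2 => hmin ⟨h1, h2⟩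
  set m := f s0 with hmdef
  have hd0 : (0 : ℝ) ≤ (d : ℝ) := Nat.cast_nonneg d
  have hq : 0 < (2 * (d : ℝ) + 1) / m := by positivity
  set ρ := Real.sqrt ((2 * (d : ℝ) + 1) / m) with hρdef
  have hρ : 0 < ρ := Real.sqrt_pos.2 hq
  have hρ2 : ρ ^ 2 = (2 * (d : ℝ) + 1) / m := Real.sq_sqrt hq.le
  have hlt : (ρ ^ 2)⁻¹ * (2 * (d : ℝ)) < m := by
    rw [hρ2, inv_div, div_mul_eq_mul_div, div_lt_iff₀ (by positivity)]
    nlinarith
  refine ⟨ρ + R₁, by positivity, ?_⟩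
  intro Ω v x hΩ hS hB
  by_contra hcon
  push Not at hcon
  have hsub : closedBall x ρ ⊆ Ω := fun y hy => hB (closedBall_subset_closedBall (by linarith) hy)
  have hlowy : ∀ y ∈ closedBall x ρ, c₀ ≤ v y := by
    intro y hy
    refine hlow Ω v y hΩ hS (fun w hw => hB ?_)
    rw [mem_closedBall] at *
    calc dist w x ≤ dist w y + dist y x := dist_triangle _ _ _
      _ ≤ R₁ + ρ := add_le_add hw hy
      _ = ρ + R₁ := add_comm _ _
  set k : ℝ := v x + (1 - e - v x) / 2 with hk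
  have hk1 : k < 1 - e := by rw [hk]; linarith
  have hk2 : v x < k := by rw [hk]; linarith
  have hvC : ∀ y ∈ Ω, ContDiffAt ℝ 2 v y := fun y hy => hS.1.contDiffAt (hΩ.mem_nhds hy)
  have hN : ∀ y : E d, ContDiffAt ℝ 2 (fun y : E d => ‖y - x‖ ^ 2) y := fun y =>
    (((contDiff_id.sub contDiff_const).norm_sq ℝ) : ContDiff ℝ 2 (fun y : E d => ‖y - x‖ ^ 2)).contDiffAt
  have hcN : ∀ y : E d, ContDiffAt ℝ 2 (fun y : E d => (ρ ^ 2)⁻¹ * ‖y - x‖ ^ 2) y := fun y =>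
    contDiffAt_const.mul (hN y)
  have key := comp_compact (closedBall x ρ) (isCompact_closedBall x ρ)
    (fun y => (v y + (ρ ^ 2)⁻¹ * ‖y - x‖ ^ 2) - k) (by
      intro y hy
      have h1 : ContDiffAt ℝ 2 (fun y => (v y + (ρ ^ 2)⁻¹ * ‖y - x‖ ^ 2) - k) y :=
        ((hvC y (hsub hy)).add (hcN y)).sub contDiffAt_const
      exact h1.continuousAt.continuousWithinAt) (by
      intro y hy hneg
      have hvy := hlowy y hy
      have hsq : 0 ≤ (ρ ^ 2)⁻¹ * ‖y - x‖ ^ 2 := by positivity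
      have hneg' : v y + (ρ ^ 2)⁻¹ * ‖y - x‖ ^ 2 < k := by
        have h9 : (v y + (ρ ^ 2)⁻¹ * ‖y - x‖ ^ 2) - k < 0 := hneg
        linarith
      refine ⟨?_, ?_, ?_⟩
      · apply ball_subset_interior_closedBall
        rw [mem_ball, dist_eq_norm]
        have h1 : (ρ ^ 2)⁻¹ * ‖y - x‖ ^ 2 < 1 := by linarith
        have h2 : ‖y - x‖ ^ 2 < ρ ^ 2 := by
          rw [inv_mul_lt_iff₀ (by positivity)] at h1
          linarith
        exact lt_of_pow_lt_pow_left₀ 2 hρ.le h2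
      · exact ((hvC y (hsub hy)).add (hcN y)).sub contDiffAt_const
      · have e1 := lap_sub (fun y => v y + (ρ ^ 2)⁻¹ * ‖y - x‖ ^ 2) (fun _ => k) y
          ((hvC y (hsub hy)).add (hcN y)) contDiffAt_const
        have e2 := lap_add v (fun y => (ρ ^ 2)⁻¹ * ‖y - x‖ ^ 2) y (hvC y (hsub hy)) (hcN y)
        have e3 := lap_smul (ρ ^ 2)⁻¹ (fun y => ‖y - x‖ ^ 2) y (hN y)
        have e4 := lap_normsq x y
        have e5 := lap_const k y
        have e6 := hS.2.2.2.2 y (hsub hy)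
        have e7 := hmin' (v y) hvy (by linarith)
        rw [e1, e2, e3, e4, e5]
        linarith)
  have h0 := key x (mem_closedBall_self hρ.le)
  simp only [sub_self, norm_zero] at h0
  norm_num at h0
  linarith

end

end ExtStar
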