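import Pool.Agent.H631.ES.Defs
import Pool.Agent.H631.ES.X02
import Pool.Agent.H631.ES.X03
import Pool.Agent.H631.ES.X05
import Pool.Agent.H631.ES.X23

open Set Metric Filter Topology MeasureTheory

namespace ExtStar

noncomputable section

/-! TARGET: prove the following -/

theorem hopf_fix (d : ℕ) (f : ℝ → ℝ) (hf : React f) (R₁ : ℝ) (hR₁ : 0 < R₁) : ∃ c₂ R₃ : ℝ, 0 < c₂ ∧ R₁ < R₃ ∧
    ∀ (Ω : Set (E d)) (v : E d → ℝ) (y x : E d), IsOpen Ω → Sol f Ω v → ball y R₃ ⊆ Ω →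
      x ∈ ball y R₃ → c₂ * (R₃ - ‖x - y‖) ≤ v x := by
  obtain ⟨c₀, R₁', hc₀, hR₁', hlow⟩ := bigball_low d f hf
  obtain ⟨R₃, hR₃⟩ : ∃ R₃ : ℝ, R₃ = 2 * max R₁ R₁' + 1 := ⟨_, rfl⟩
  have hm1 : R₁ ≤ max R₁ R₁' := le_max_left _ _
  have hm2 : R₁' ≤ max R₁ R₁' := le_max_right _ _
  have hR3pos : 0 < R₃ := by linarith
  obtain ⟨α, hα⟩ : ∃ α : ℝ, α = (2 * (d : ℝ) + 1) / R₃ ^ 2 := ⟨_, rfl⟩
  have hd0 : (0 : ℝ) ≤ (d : ℝ) := Nat.cast_nonneg d
  have hαpos : 0 < α := by
    rw [hα]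
    positivity
  have hαR : α * R₃ ^ 2 = 2 * (d : ℝ) + 1 := by
    rw [hα]
    field_simp
  obtain ⟨e₀, he₀⟩ : ∃ e₀ : ℝ, e₀ = Real.exp (-(α * R₃ ^ 2)) := ⟨_, rfl⟩
  have he₀pos : 0 < e₀ := by
    rw [he₀]
    exact Real.exp_pos _
  obtain ⟨-, -, hf1, -, -, hfpos, -⟩ := hf
  refine ⟨min (c₀ / R₃) (c₀ * (e₀ * (α * R₃))), R₃, by positivity, by linarith, ?_⟩
  intro Ω v y x hΩ hv hball hx
  obtain ⟨hvC, hvc, hvf, hvp, hvl⟩ := hv
  have hv' : Sol f Ω v := ⟨hvC, hvc, hvf, hvp, hvl⟩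
  -- inner part
  have hinner : ∀ z : E d, ‖z - y‖ ≤ R₃ / 2 → c₀ ≤ v z := by
    intro z hz
    apply hlow Ω v z hΩ hv'
    refine Subset.trans ?_ hball
    intro w hw
    rw [mem_closedBall, dist_eq_norm] at hw
    rw [mem_ball, dist_eq_norm]
    have : ‖w - y‖ ≤ ‖w - z‖ + ‖z - y‖ := by
      have := norm_add_le (w - z) (z - y)
      rwa [sub_add_sub_cancel] at this
    linarith
  rw [mem_ball, dist_eq_norm] at hx
  rcases le_or_gt ‖x - y‖ (R₃ / 2) with hxin | hxout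
  · have h1 := hinner x hxin
    have h2 : min (c₀ / R₃) (c₀ * (e₀ * (α * R₃))) * (R₃ - ‖x - y‖) ≤ c₀ / R₃ * R₃ := by
      apply mul_le_mul (min_le_left _ _) _ (by linarith) (by positivity)
      have := norm_nonneg (x - y)
      linarith
    have h3 : c₀ / R₃ * R₃ = c₀ := by field_simp
    linarith
  · -- the barrier
    have hclos : closedBall y R₃ ⊆ closure Ω := by
      rw [← closure_ball y hR3pos.ne']
      exact closure_mono hball
    set K : Set (E d) := {z | R₃ / 2 ≤ ‖z - y‖ ∧ ‖z - y‖ ≤ R₃} with hK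
    have hcn : Continuous (fun z : E d => ‖z - y‖) := by fun_prop
    have hKcl : IsClosed K :=
      (isClosed_le continuous_const hcn).inter (isClosed_le hcn continuous_const)
    have hKsub : K ⊆ closedBall y R₃ := by
      intro z hz
      rw [mem_closedBall, dist_eq_norm]
      exact hz.2
    have hKc : IsCompact K := (isCompact_closedBall y R₃).of_isClosed_subset hKcl hKsub
    have hgC : ContDiff ℝ 2 (fun z : E d => Real.exp (-(α * ‖z - y‖ ^ 2))) :=
      Real.contDiff_exp.comp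
        ((contDiff_const.mul ((contDiff_id.sub contDiff_const).norm_sq ℝ)).neg)
    have hbC : ContDiff ℝ 2 (fun z : E d => c₀ * Real.exp (-(α * ‖z - y‖ ^ 2)) - c₀ * e₀) :=
      (contDiff_const.mul hgC).sub contDiff_const
    have hlapb : ∀ z : E d, lap (fun z : E d => c₀ * Real.exp (-(α * ‖z - y‖ ^ 2)) - c₀ * e₀) z =
        c₀ * ((4 * α ^ 2 * ‖z - y‖ ^ 2 - 2 * (d : ℝ) * α) * Real.exp (-(α * ‖z - y‖ ^ 2))) := by
      intro z
      rw [lap_sub (fun z : E d => c₀ * Real.exp (-(α * ‖z - y‖ ^ 2))) (fun _ => c₀ * e₀) z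
        (contDiff_const.mul hgC).contDiffAt contDiff_const.contDiffAt, lap_const,
        lap_smul c₀ (fun z : E d => Real.exp (-(α * ‖z - y‖ ^ 2))) z hgC.contDiffAt, lap_gauss,
        sub_zero]
    have hcomp := comp_compact K hKc
      (fun z => v z - (c₀ * Real.exp (-(α * ‖z - y‖ ^ 2)) - c₀ * e₀)) ?_ ?_
    · have hxK : x ∈ K := ⟨hxout.le, hx.le⟩
      have h1 := hcomp x hxK
      have h2 : e₀ * (α * R₃) * (R₃ - ‖x - y‖) ≤ Real.exp (-(α * ‖x - y‖ ^ 2)) - e₀ := by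
        have e1 : Real.exp (-(α * ‖x - y‖ ^ 2)) =
            e₀ * Real.exp (α * (R₃ ^ 2 - ‖x - y‖ ^ 2)) := by
          rw [he₀, ← Real.exp_add]
          congr 1
          ring
        have e2 := Real.add_one_le_exp (α * (R₃ ^ 2 - ‖x - y‖ ^ 2))
        rw [e1]
        have e3 : α * R₃ * (R₃ - ‖x - y‖) ≤ α * (R₃ ^ 2 - ‖x - y‖ ^ 2) := by
          have e4 : α * (R₃ ^ 2 - ‖x - y‖ ^ 2) = α * R₃ * (R₃ - ‖x - y‖) +
              α * ‖x - y‖ * (R₃ - ‖x - y‖) := by ring
          have e5 : 0 ≤ α * ‖x - y‖ * (R₃ - ‖x - y‖) :=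
            mul_nonneg (mul_nonneg hαpos.le (norm_nonneg _)) (by linarith)
          linarith
        have e6 := mul_le_mul_of_nonneg_left (e3.trans (by linarith :
          α * (R₃ ^ 2 - ‖x - y‖ ^ 2) ≤ Real.exp (α * (R₃ ^ 2 - ‖x - y‖ ^ 2)) - 1)) he₀pos.le
        linarith
      have h3 : min (c₀ / R₃) (c₀ * (e₀ * (α * R₃))) * (R₃ - ‖x - y‖) ≤
          c₀ * (e₀ * (α * R₃)) * (R₃ - ‖x - y‖) :=
        mul_le_mul_of_nonneg_right (min_le_right _ _) (by linarith)
      have h4 := mul_le_mul_of_nonneg_left h2 hc₀.le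
      linarith
    · exact (hvc.mono (hKsub.trans hclos)).sub hbC.continuous.continuousOn
    · intro z hz hneg
      have hzlow : R₃ / 2 < ‖z - y‖ := by
        rcases hz.1.lt_or_eq with h | h
        · exact h
        · exfalso
          have h1 := hinner z h.symm.le
          have h2 : Real.exp (-(α * ‖z - y‖ ^ 2)) ≤ 1 := by
            rw [← Real.exp_zero]
            apply Real.exp_le_exp.mpr
            have : 0 ≤ α * ‖z - y‖ ^ 2 := by positivity
            linarith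
          have h3 := mul_le_mul_of_nonneg_left h2 hc₀.le
          have h4 : 0 < c₀ * e₀ := by positivity
          linarith
      have hzup : ‖z - y‖ < R₃ := by
        rcases hz.2.lt_or_eq with h | h
        · exact h
        · exfalso
          rw [h, ← he₀] at hneg
          have h1 : z ∈ closure Ω := hclos (hKsub hz)
          have h2 : 0 ≤ v z := by
            rw [closure_eq_self_union_frontier] at h1
            rcases h1 with h1 | h1
            · exact (hvp z h1).1.le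
            · exact (hvf z h1).ge
          linarith
      have hzΩ : z ∈ Ω := by
        apply hball
        rw [mem_ball, dist_eq_norm]
        exact hzup
      have hvat : ContDiffAt ℝ 2 v z := hvC.contDiffAt (hΩ.mem_nhds hzΩ)
      refine ⟨?_, hvat.sub hbC.contDiffAt, ?_⟩
      · rw [mem_interior]
        exact ⟨{z | R₃ / 2 < ‖z - y‖} ∩ {z | ‖z - y‖ < R₃}, fun w hw => ⟨hw.1.le, hw.2.le⟩,
          (isOpen_lt continuous_const hcn).inter (isOpen_lt hcn continuous_const),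
          ⟨hzlow, hzup⟩⟩
      · rw [lap_sub v (fun z : E d => c₀ * Real.exp (-(α * ‖z - y‖ ^ 2)) - c₀ * e₀) z hvat
          hbC.contDiffAt, hlapb]
        have h1 : 0 ≤ f (v z) := by
          obtain ⟨h2, h3⟩ := hvp z hzΩ
          rcases h3.lt_or_eq with h | h
          · exact (hfpos _ h2 h).le
          · rw [h, hf1]
        have h2 := hvl z hzΩ
        have h3 : 0 < 4 * α ^ 2 * ‖z - y‖ ^ 2 - 2 * (d : ℝ) * α := by
          have h4 : (R₃ / 2) ^ 2 < ‖z - y‖ ^ 2 := by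
            apply pow_lt_pow_left₀ hzlow (by positivity) (by norm_num)
          have h5 : 4 * α ^ 2 * (R₃ / 2) ^ 2 < 4 * α ^ 2 * ‖z - y‖ ^ 2 :=
            mul_lt_mul_of_pos_left h4 (by positivity)
          have h6 : 4 * α ^ 2 * (R₃ / 2) ^ 2 = α * (α * R₃ ^ 2) := by ring
          rw [h6, hαR] at h5
          nlinarith
        have h7 : 0 < c₀ * ((4 * α ^ 2 * ‖z - y‖ ^ 2 - 2 * (d : ℝ) * α) *
            Real.exp (-(α * ‖z - y‖ ^ 2))) :=
          mul_pos hc₀ (mul_pos h3 (Real.exp_pos _))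
        linarith


end

end ExtStar
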