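import Pool.Agent.H631.ES.Defs
import Pool.Agent.H631.ES.X23
import Pool.Agent.H631.ES.X25

open Set Metric Filter Topology MeasureTheory

namespace ExtStar

noncomputable section

/-! TARGET: prove the following -/

theorem hopf_ball (d : ℕ) (f : ℝ → ℝ) (hf : React f) : ∃ c₂ R₃ : ℝ, 0 < c₂ ∧ 0 < R₃ ∧
    ∀ (Ω : Set (E d)) (v : E d → ℝ) (y x : E d) (R : ℝ), IsOpen Ω → Sol f Ω v → R₃ ≤ R →
      ball y R ⊆ Ω → x ∈ ball y R → c₂ * min 1 (R - ‖x - y‖) ≤ v x := by
  obtain ⟨c₂, R₃, hc, hR, h⟩ := hopf_fix d f hf 1 one_pos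
  refine ⟨c₂, R₃, hc, by linarith, ?_⟩
  intro Ω v y x R hΩ hv hRR hball hx
  have hxR : ‖x - y‖ < R := by rwa [mem_ball, dist_eq_norm] at hx
  rcases le_or_gt ‖x - y‖ (R - R₃) with h1 | h1
  · have hsub : ball x R₃ ⊆ Ω := by
      refine Subset.trans ?_ hball
      apply ball_subset_ball'
      rw [dist_eq_norm]; linarith
    have := h Ω v x x hΩ hv hsub (mem_ball_self (by linarith))
    rw [sub_self, norm_zero, sub_zero] at this
    refine le_trans (mul_le_mul_of_nonneg_left ?_ hc.le) this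
    exact le_trans (min_le_left _ _) hR.le
  · have hpos : 0 < ‖x - y‖ := by linarith
    have hne : ‖x - y‖ ≠ 0 := hpos.ne'
    set y' : E d := y + ((R - R₃) / ‖x - y‖) • (x - y) with hy'
    have hd1 : dist y' y = R - R₃ := by
      rw [dist_eq_norm, hy', add_sub_cancel_left, norm_smul, Real.norm_eq_abs, abs_of_nonneg
        (div_nonneg (by linarith) hpos.le), div_mul_cancel₀ _ hne]
    have hd2 : ‖x - y'‖ = ‖x - y‖ - (R - R₃) := by
      have e : x - y' = (1 - (R - R₃) / ‖x - y‖) • (x - y) := by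
        rw [hy', sub_smul, one_smul]; abel
      have hle : (R - R₃) / ‖x - y‖ ≤ 1 := by
        rw [div_le_one hpos]; exact h1.le
      rw [e, norm_smul, Real.norm_eq_abs, abs_of_nonneg (by linarith), sub_mul, one_mul,
        div_mul_cancel₀ _ hne]
    have hsub : ball y' R₃ ⊆ Ω := by
      refine Subset.trans ?_ hball
      apply ball_subset_ball'
      rw [hd1]; linarith
    have hxy' : x ∈ ball y' R₃ := by
      rw [mem_ball, dist_eq_norm, hd2]; linarith
    have := h Ω v y' x hΩ hv hsub hxy'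
    rw [hd2] at this
    refine le_trans (mul_le_mul_of_nonneg_left ?_ hc.le) this
    refine le_trans (min_le_right _ _) ?_
    linarith

end

end ExtStar
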