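import Pool.Agent.H631.ES.Defs
import Pool.Agent.H631.ES.X02
import Pool.Agent.H631.ES.X03
import Pool.Agent.H631.ES.X05
import Pool.Agent.H631.ES.X20

open Set Metric Filter Topology MeasureTheory

namespace ExtStar

noncomputable section

/-! TARGET: prove the following -/

set_option maxHeartbeats 1000000 in
theorem bdry_decay (d : ℕ) (L : ℝ) (hL : 0 ≤ L) : ∃ C : ℝ, 1 ≤ C ∧
    ∀ (Ω : Set (E d)) (q ν : E d) (R : ℝ) (v : E d → ℝ) (S : ℝ) (p : E d), IsOpen Ω → 0 < R → R ≤ 1 →
      TB Ω R q ν → ContinuousOn v (closure Ω) → (∀ x ∈ frontier Ω, v x = 0) → Quasi L Ω v →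
      (∀ x ∈ Ω ∩ ball q R, v x ≤ S) → p ∈ Ω ∩ ball q R → v p ≤ C * (‖p - q‖ / R) * S := by
  have hd0 : (0:ℝ) ≤ d := Nat.cast_nonneg d
  obtain ⟨a, ha⟩ : ∃ a : ℝ, a = 8 * d + 4 := ⟨_, rfl⟩
  have ha4 : 4 ≤ a := by rw [ha]; linarith
  have ha0 : 0 < a := by linarith
  have hgap : 0 < Real.exp (-(a/16)) - Real.exp (-(9*a/16)) := by
    have := Real.exp_lt_exp.2 (show -(9*a/16) < -(a/16) by linarith)
    linarith
  obtain ⟨M, hM⟩ : ∃ M : ℝ, M = max (L * Real.exp (25*a/16) / a + 1)
    (1 / (Real.exp (-(a/16)) - Real.exp (-(9*a/16)))) := ⟨_, rfl⟩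
  have hM1 : L * Real.exp (25*a/16) / a + 1 ≤ M := by rw [hM]; exact le_max_left _ _
  have hM2 : 1 ≤ M * (Real.exp (-(a/16)) - Real.exp (-(9*a/16))) := by
    have h : 1 / (Real.exp (-(a/16)) - Real.exp (-(9*a/16))) ≤ M := by rw [hM]; exact le_max_right _ _
    rwa [div_le_iff₀ hgap] at h
  have hM0 : 1 ≤ M := by
    have : 0 ≤ L * Real.exp (25*a/16) / a := by positivity
    linarith
  have hM3 : L < M * (a * Real.exp (-(25*a/16))) := by
    have e1 : Real.exp (25*a/16) * Real.exp (-(25*a/16)) = 1 := by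
      rw [← Real.exp_add]; simp
    have hp : 0 < a * Real.exp (-(25*a/16)) := by positivity
    have h1 : L = (L * Real.exp (25*a/16) / a) * (a * Real.exp (-(25*a/16))) := by
      have h2 : (L * Real.exp (25*a/16) / a) * (a * Real.exp (-(25*a/16)))
          = L * (Real.exp (25*a/16) * Real.exp (-(25*a/16))) * (a / a) := by ring
      rw [h2, e1, div_self ha0.ne']; ring
    calc L = (L * Real.exp (25*a/16) / a) * (a * Real.exp (-(25*a/16))) := h1
      _ < M * (a * Real.exp (-(25*a/16))) := mul_lt_mul_of_pos_right (by linarith) hp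
  refine ⟨3/2 * a * M, by nlinarith, ?_⟩
  intro Ω q ν R v S p hΩ hR hR1 hTB hvc hv0 hQ hS hp
  obtain ⟨hqf, hν, hb1, hb2⟩ := hTB
  obtain ⟨hvC, hvq⟩ := hQ
  have hvp := (hvq p hp.1).1
  have hSp := hS p hp
  have hS0 : 0 ≤ S := hvp.trans hSp
  rcases hS0.eq_or_lt with h0 | hSpos
  · rw [← h0] at hSp ⊢
    simpa using hSp
  obtain ⟨y, hy⟩ : ∃ y : E d, y = q - (R/4) • ν := ⟨_, rfl⟩
  have hyq : ‖q - y‖ = R/4 := by
    have : q - y = (R/4) • ν := by rw [hy]; module
    rw [this, norm_smul, hν, Real.norm_of_nonneg (by positivity), mul_one]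
  have hfar : ∀ s ∈ closure Ω, R/4 ≤ ‖s - y‖ := by
    intro s hs
    by_contra hlt
    push Not at hlt
    have hsb : s ∈ ball y (R/4) := by rw [mem_ball, dist_eq_norm]; exact hlt
    obtain ⟨t, ht1, ht2⟩ := mem_closure_iff.1 hs (ball y (R/4)) isOpen_ball hsb
    have : t ∈ ball (q - R • ν) R := by
      rw [mem_ball, dist_eq_norm] at ht1 ⊢
      have e : t - (q - R • ν) = (t - y) + (3*R/4) • ν := by rw [hy]; module
      rw [e]
      calc ‖(t - y) + (3*R/4) • ν‖ ≤ ‖t - y‖ + ‖(3*R/4) • ν‖ := norm_add_le _ _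
        _ = ‖t - y‖ + 3*R/4 := by rw [norm_smul, hν, Real.norm_of_nonneg (by positivity), mul_one]
        _ < R := by linarith
    exact hb2 this ht2
  obtain ⟨α, hα⟩ : ∃ α : ℝ, α = a / R^2 := ⟨_, rfl⟩
  have hα0 : 0 < α := by rw [hα]; positivity
  have hαR : α * R^2 = a := by rw [hα]; field_simp
  have hαa : a ≤ α := by
    have hR2 : R^2 ≤ 1 := by nlinarith
    nlinarith
  have hg : ContDiff ℝ 2 (fun s : E d => Real.exp (-(α * ‖s - y‖ ^ 2))) :=
    ((contDiff_const.mul ((contDiff_id.sub contDiff_const).norm_sq ℝ)).neg).exp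
  have hcg : ContDiff ℝ 2 (fun s : E d => Real.exp (-(a/16)) - Real.exp (-(α * ‖s - y‖ ^ 2))) :=
    contDiff_const.sub hg
  have hB : ContDiff ℝ 2 (fun s : E d => (M * S) * (Real.exp (-(a/16)) - Real.exp (-(α * ‖s - y‖ ^ 2)))) :=
    contDiff_const.mul hcg
  have hMS : 0 < M * S := by positivity
  -- the comparison
  have hcmp := comp_compact (closure Ω ∩ closedBall q R)
    ((isCompact_closedBall q R).inter_left isClosed_closure)
    (fun s => (M * S) * (Real.exp (-(a/16)) - Real.exp (-(α * ‖s - y‖ ^ 2))) - v s)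
    (hB.continuous.continuousOn.sub (hvc.mono inter_subset_left))
    (by
      intro x hx hneg
      have hxy := hfar x hx.1
      have hxq : ‖x - q‖ ≤ R := by
        have := hx.2; rwa [mem_closedBall, dist_eq_norm] at this
      have hsq : (R/4)^2 ≤ ‖x - y‖^2 := pow_le_pow_left₀ (by positivity) hxy 2
      have h16 : a/16 ≤ α * ‖x - y‖^2 := by
        have : α * (R/4)^2 ≤ α * ‖x - y‖^2 := mul_le_mul_of_nonneg_left hsq hα0.le
        nlinarith
      have hB0 : 0 ≤ (M * S) * (Real.exp (-(a/16)) - Real.exp (-(α * ‖x - y‖ ^ 2))) := by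
        have := Real.exp_le_exp.2 (show -(α * ‖x - y‖ ^ 2) ≤ -(a/16) by linarith)
        exact mul_nonneg hMS.le (by linarith)
      -- x ∈ Ω
      have hxΩ : x ∈ Ω := by
        by_contra hn
        have hf : x ∈ frontier Ω := by
          rw [hΩ.frontier_eq]; exact ⟨hx.1, hn⟩
        have := hv0 x hf
        simp only [this] at hneg
        linarith
      have hvx : ContDiffAt ℝ 2 v x := (hvC x hxΩ).contDiffAt (hΩ.mem_nhds hxΩ)
      -- x ∈ ball q R
      have hxb : x ∈ ball q R := by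
        by_contra hn
        have hxR : ‖x - q‖ = R := by
          rw [mem_ball, dist_eq_norm] at hn
          push Not at hn
          linarith
        have hvS : v x ≤ S := by
          have ht : Tendsto (fun t : ℝ => v (x + t • (q - x))) (𝓝[>] 0) (𝓝 (v x)) := by
            have h1 : Tendsto (fun t : ℝ => x + t • (q - x)) (𝓝[>] 0) (𝓝 x) := by
              have : Tendsto (fun t : ℝ => x + t • (q - x)) (𝓝 0) (𝓝 (x + (0:ℝ) • (q - x))) :=
                Continuous.tendsto (by fun_prop) 0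
              rw [zero_smul, add_zero] at this
              exact this.mono_left nhdsWithin_le_nhds
            exact hvx.continuousAt.tendsto.comp h1
          have hev : ∀ᶠ t : ℝ in 𝓝[>] 0, v (x + t • (q - x)) ≤ S := by
            have h1 : Tendsto (fun t : ℝ => x + t • (q - x)) (𝓝[>] 0) (𝓝 x) := by
              have : Tendsto (fun t : ℝ => x + t • (q - x)) (𝓝 0) (𝓝 (x + (0:ℝ) • (q - x))) :=
                Continuous.tendsto (by fun_prop) 0
              rw [zero_smul, add_zero] at this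
              exact this.mono_left nhdsWithin_le_nhds
            have h2 := h1.eventually (hΩ.mem_nhds hxΩ)
            have h3 : ∀ᶠ t : ℝ in 𝓝[>] 0, t < 1 :=
              nhdsWithin_le_nhds (Iio_mem_nhds (by norm_num))
            filter_upwards [h2, h3, self_mem_nhdsWithin] with t ht1 ht2 ht3
            apply hS
            refine ⟨ht1, ?_⟩
            rw [mem_ball, dist_eq_norm]
            have ht3' : (0:ℝ) < t := ht3
            have e : x + t • (q - x) - q = (1 - t) • (x - q) := by module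
            rw [e, norm_smul, Real.norm_of_nonneg (by linarith), hxR]
            nlinarith
          exact le_of_tendsto ht hev
        have h34 : 3*R/4 ≤ ‖x - y‖ := by
          have : ‖x - q‖ ≤ ‖x - y‖ + ‖q - y‖ := by
            have e : x - q = (x - y) - (q - y) := by abel
            rw [e]; exact norm_sub_le _ _
          rw [hxR, hyq] at this
          linarith
        have hsq2 : (3*R/4)^2 ≤ ‖x - y‖^2 := pow_le_pow_left₀ (by positivity) h34 2
        have h916 : 9*a/16 ≤ α * ‖x - y‖^2 := by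
          have : α * (3*R/4)^2 ≤ α * ‖x - y‖^2 := mul_le_mul_of_nonneg_left hsq2 hα0.le
          nlinarith
        have := Real.exp_le_exp.2 (show -(α * ‖x - y‖ ^ 2) ≤ -(9*a/16) by linarith)
        have h5 : S ≤ (M * S) * (Real.exp (-(a/16)) - Real.exp (-(α * ‖x - y‖ ^ 2))) := by
          calc S = 1 * S := (one_mul S).symm
            _ ≤ (M * (Real.exp (-(a/16)) - Real.exp (-(9*a/16)))) * S :=
                mul_le_mul_of_nonneg_right hM2 hS0
            _ = (M * S) * (Real.exp (-(a/16)) - Real.exp (-(9*a/16))) := by ring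
            _ ≤ _ := mul_le_mul_of_nonneg_left (by linarith) hMS.le
        linarith
      refine ⟨?_, ?_, ?_⟩
      · refine mem_interior.2 ⟨Ω ∩ ball q R, ?_, hΩ.inter isOpen_ball, ⟨hxΩ, hxb⟩⟩
        exact inter_subset_inter subset_closure ball_subset_closedBall
      · exact hB.contDiffAt.sub hvx
      · rw [lap_sub _ v x hB.contDiffAt hvx, lap_smul _ _ x hcg.contDiffAt,
          lap_sub (fun _ => Real.exp (-(a/16))) _ x contDiffAt_const hg.contDiffAt, lap_const,
          lap_gauss]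
        have hvS : v x ≤ S := hS x ⟨hxΩ, hxb⟩
        have hlv := (hvq x hxΩ).2
        have hlv2 : -(L * S) ≤ lap v x := by
          have h1 := (abs_le.1 hlv).1
          have : L * v x ≤ L * S := mul_le_mul_of_nonneg_left hvS hL
          linarith
        -- bound of the exponential from below
        have h54 : ‖x - y‖ ≤ 5*R/4 := by
          have : ‖x - y‖ ≤ ‖x - q‖ + ‖q - y‖ := by
            have e : x - y = (x - q) + (q - y) := by abel
            rw [e]; exact norm_add_le _ _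
          rw [hyq] at this
          linarith
        have hsq3 : ‖x - y‖^2 ≤ (5*R/4)^2 := pow_le_pow_left₀ (norm_nonneg _) h54 2
        have h2516 : α * ‖x - y‖^2 ≤ 25*a/16 := by
          have : α * ‖x - y‖^2 ≤ α * (5*R/4)^2 := mul_le_mul_of_nonneg_left hsq3 hα0.le
          nlinarith
        have he := Real.exp_le_exp.2 (show -(25*a/16) ≤ -(α * ‖x - y‖ ^ 2) by linarith)
        have hcoef : a ≤ 4 * α ^ 2 * ‖x - y‖ ^ 2 - 2 * (d : ℝ) * α := by
          have h1 : 4 * α^2 * ‖x - y‖^2 = 4 * α * (α * ‖x - y‖^2) := by ring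
          have h2 : 4 * α * (a/16) ≤ 4 * α * (α * ‖x - y‖^2) :=
            mul_le_mul_of_nonneg_left h16 (by positivity)
          rw [h1]
          have h3 : 4 * α * (a/16) = α * (2 * d + 1) := by rw [ha]; ring
          rw [h3] at h2
          have h4 : α * (2 * (d:ℝ) + 1) = 2 * (d:ℝ) * α + α := by ring
          rw [h4] at h2
          linarith
        have hexp0 : 0 < Real.exp (-(25*a/16)) := Real.exp_pos _
        have h6 : a * Real.exp (-(25*a/16)) ≤
            (4 * α ^ 2 * ‖x - y‖ ^ 2 - 2 * (d : ℝ) * α) * Real.exp (-(α * ‖x - y‖ ^ 2)) :=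
          mul_le_mul hcoef he hexp0.le (by linarith)
        have h7 : (M * S) * (a * Real.exp (-(25*a/16))) ≤ (M * S) *
            ((4 * α ^ 2 * ‖x - y‖ ^ 2 - 2 * (d : ℝ) * α) * Real.exp (-(α * ‖x - y‖ ^ 2))) :=
          mul_le_mul_of_nonneg_left h6 hMS.le
        have h8 : L * S < (M * S) * (a * Real.exp (-(25*a/16))) := by
          have : L * S < (M * (a * Real.exp (-(25*a/16)))) * S :=
            mul_lt_mul_of_pos_right hM3 hSpos
          linarith [this, mul_comm (M * (a * Real.exp (-(25*a/16)))) S]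
        linarith)
  have hz := hcmp p ⟨subset_closure hp.1, ball_subset_closedBall hp.2⟩
  have hpy := hfar p (subset_closure hp.1)
  have hpq : ‖p - q‖ < R := by
    have := hp.2; rwa [mem_ball, dist_eq_norm] at this
  have hpy2 : ‖p - y‖ ≤ ‖p - q‖ + R/4 := by
    have : ‖p - y‖ ≤ ‖p - q‖ + ‖q - y‖ := by
      have e : p - y = (p - q) + (q - y) := by abel
      rw [e]; exact norm_add_le _ _
    rwa [hyq] at this
  have hsq : (R/4)^2 ≤ ‖p - y‖^2 := pow_le_pow_left₀ (by positivity) hpy 2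
  have h16 : a/16 ≤ α * ‖p - y‖^2 := by
    have : α * (R/4)^2 ≤ α * ‖p - y‖^2 := mul_le_mul_of_nonneg_left hsq hα0.le
    nlinarith
  have hdiff : Real.exp (-(a/16)) - Real.exp (-(α * ‖p - y‖ ^ 2)) ≤ α * ‖p - y‖^2 - a/16 := by
    have e1 : Real.exp (-(α * ‖p - y‖ ^ 2)) =
        Real.exp (-(a/16)) * Real.exp (-(α * ‖p - y‖ ^ 2 - a/16)) := by
      rw [← Real.exp_add]; congr 1; ring
    have e2 : 1 - (α * ‖p - y‖ ^ 2 - a/16) ≤ Real.exp (-(α * ‖p - y‖ ^ 2 - a/16)) := by
      have := Real.add_one_le_exp (-(α * ‖p - y‖ ^ 2 - a/16))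
      linarith
    have e3 : Real.exp (-(a/16)) ≤ 1 := Real.exp_le_one_iff.2 (by linarith)
    have e4 : 0 < Real.exp (-(a/16)) := Real.exp_pos _
    rw [e1]
    nlinarith
  have hfin : α * ‖p - y‖^2 - a/16 ≤ 3/2 * a * (‖p - q‖ / R) := by
    have h1 : α * ‖p - y‖^2 - a/16 = α * ((‖p - y‖ - R/4) * (‖p - y‖ + R/4)) := by
      have : a / 16 = α * (R/4)^2 := by rw [← hαR]; ring
      rw [this]; ring
    have h2 : (‖p - y‖ - R/4) * (‖p - y‖ + R/4) ≤ ‖p - q‖ * (3*R/2) :=
      mul_le_mul (by linarith) (by linarith) (by positivity) (norm_nonneg _)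
    have h3 : α * (‖p - q‖ * (3*R/2)) = 3/2 * a * (‖p - q‖ / R) := by
      rw [hα]; field_simp
    rw [h1, ← h3]
    exact mul_le_mul_of_nonneg_left h2 hα0.le
  have hz' : v p ≤ (M * S) * (Real.exp (-(a/16)) - Real.exp (-(α * ‖p - y‖ ^ 2))) := by
    linarith [hz]
  calc v p ≤ (M * S) * (Real.exp (-(a/16)) - Real.exp (-(α * ‖p - y‖ ^ 2))) := hz'
    _ ≤ (M * S) * (3/2 * a * (‖p - q‖ / R)) :=
        mul_le_mul_of_nonneg_left (hdiff.trans hfin) hMS.le
    _ = 3/2 * a * M * (‖p - q‖ / R) * S := by ring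

end

end ExtStar
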