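import Pool.Agent.H631.ES.Defs
import Pool.Agent.H631.ES.X16
import Pool.Agent.H631.ES.X19
import Pool.Agent.H631.ES.X20
import Pool.Agent.H631.ES.X27

open Set Metric Filter Topology MeasureTheory

namespace ExtStar

noncomputable section

/-! TARGET: prove the following -/

theorem upper_lin {d : ℕ} (f : ℝ → ℝ) (L c ε c₁ : ℝ) (Ω : Set (E d)) (r : ℝ) (h : Ctx f L c ε c₁ Ω r) :
    ∃ C : ℝ, 1 ≤ C ∧ ∀ v : E d → ℝ, Sol f Ω v → ∀ x ∈ Ω, v x ≤ C * infDist x Ωᶜ := by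
  obtain ⟨hReact, hRC, hΩ, hStar, hBC, hr, hr1⟩ := h
  have hne : (Ωᶜ).Nonempty := ⟨0, hStar.1⟩
  obtain ⟨C, hC1, hC⟩ := bdry_decay d L hRC.1.le
  refine ⟨C / r, ?_, ?_⟩
  · rw [le_div_iff₀ hr]
    linarith
  · intro v hv x hx
    obtain ⟨hpos, _⟩ := infDist_ball Ω hΩ hne x hx
    rcases le_or_gt r (infDist x Ωᶜ) with hd | hd
    · have h1 := (hv.2.2.2.1 x hx).2
      refine le_trans h1 ?_
      rw [div_mul_eq_mul_div, le_div_iff₀ hr]
      nlinarith
    · obtain ⟨q, ν, hTB, hxq⟩ := near_point Ω hΩ hne r hr hBC x hx hd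
      have hxq2 : x - q = infDist x Ωᶜ • ν := by
        rw [hxq]
        simp only [add_sub_cancel_left]
        rw [← hxq]
      have hn : ‖x - q‖ = infDist x Ωᶜ := by
        rw [hxq2, norm_smul, hTB.2.1, mul_one, Real.norm_of_nonneg hpos.le]
      have h2 := hC Ω q ν r v 1 x hΩ hr hr1 hTB hv.2.1 hv.2.2.1
        (sol_quasi f L c ε c₁ hRC Ω hΩ v hv).1 (fun y hy => (hv.2.2.2.1 y hy.1).2) ⟨hx, by
          rw [mem_ball, dist_eq_norm, hn]; exact hd⟩
      rw [hn] at h2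
      refine le_trans h2 (le_of_eq ?_)
      ring


end

end ExtStar
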