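import Pool.Agent.H631.ES.Defs
import Pool.Agent.H631.ES.X02
import Pool.Agent.H631.ES.X03
import Pool.Agent.H631.ES.X04
import Pool.Agent.H631.ES.X05
import Pool.Agent.H631.ES.X18

open Set Metric Filter Topology MeasureTheory

namespace ExtStar

noncomputable section

theorem x29_bd {d : ℕ} (Ω : Set (E d)) (u : E d → ℝ) (hc : ContinuousOn u (closure Ω))
    (h : ∀ x ∈ Ω, 0 < u x ∧ u x ≤ 1) : ∀ x ∈ closure Ω, 0 ≤ u x ∧ u x ≤ 1 := by
  intro x hx
  have h1 := hc.image_closure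
  have h2 : u '' Ω ⊆ Icc (0 : ℝ) 1 := by
    rintro _ ⟨y, hy, rfl⟩
    exact ⟨(h y hy).1.le, (h y hy).2⟩
  have h3 : closure (u '' Ω) ⊆ Icc (0 : ℝ) 1 := closure_minimal h2 isClosed_Icc
  exact h3 (h1 ⟨x, hx, rfl⟩)

/-! TARGET: prove the following -/

theorem comp_inf {d : ℕ} (f : ℝ → ℝ) (L c ε c₁ : ℝ) (Ω : Set (E d)) (r : ℝ) (h : Ctx f L c ε c₁ Ω r)
    (u v : E d → ℝ) (hu : Sol f Ω u) (hv : Sol f Ω v) (k : ℝ) (hk : 1 ≤ k)
    (hz : ∀ s ∈ Ω, v (k • s) < u s → 1 - ε ≤ v (k • s)) : ∀ s ∈ Ω, u s ≤ v (k • s) := by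
  obtain ⟨hR, hRC, hO, hS, hBC, hr, hr1⟩ := h
  obtain ⟨hL, hc, hε, hε1, hc₁, hf0, hf1, hLip, hlow, hmon⟩ := hRC
  obtain ⟨u1, u2, u3, u4, u5⟩ := hu
  obtain ⟨v1, v2, v3, v4, v5⟩ := hv
  obtain ⟨sm1, sm2⟩ := star_mem Ω hS k hk
  have ub := x29_bd Ω u u2 u4
  have vb := x29_bd Ω v v2 v4
  let z : E d → ℝ := fun s => v (k • s) - u s
  have hzc : ContinuousOn z (closure Ω) := by
    refine ContinuousOn.sub ?_ u2
    exact v2.comp (continuous_const_smul k).continuousOn sm2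
  have hzlow : ∀ s ∈ closure Ω, -1 ≤ z s := by
    intro s hs
    have h1 := (ub s hs).2
    have h2 := (vb _ (sm2 s hs)).1
    show -1 ≤ v (k • s) - u s
    linarith
  have hzfr : ∀ s ∈ frontier Ω, 0 ≤ z s := by
    intro s hs
    have h1 := u3 s hs
    have h2 := (vb _ (sm2 s (frontier_subset_closure hs))).1
    show 0 ≤ v (k • s) - u s
    linarith
  have hin : ∀ s ∈ closure Ω, z s < 0 → s ∈ Ω := by
    intro s hs hneg
    by_contra hns
    have : s ∈ frontier Ω := by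
      rw [hO.frontier_eq]
      exact ⟨hs, hns⟩
    exact absurd (hzfr s this) (not_le.mpr hneg)
  by_contra hcon
  push Not at hcon
  obtain ⟨s₀, hs₀, hlt⟩ := hcon
  have hz0 : z s₀ < 0 := by
    show v (k • s₀) - u s₀ < 0
    linarith
  have hbdd : BddBelow (z '' closure Ω) := ⟨-1, by rintro _ ⟨s, hs, rfl⟩; exact hzlow s hs⟩
  obtain ⟨m, hm⟩ : ∃ m : ℝ, m = -sInf (z '' closure Ω) := ⟨_, rfl⟩
  have hmle : ∀ s ∈ closure Ω, -m ≤ z s := by
    intro s hs
    have := csInf_le hbdd ⟨s, hs, rfl⟩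
    linarith
  have hm0 : 0 < m := by
    have := hmle s₀ (subset_closure hs₀)
    linarith
  obtain ⟨_, ⟨s₁, hs₁c, rfl⟩, hs₁⟩ : ∃ y ∈ z '' closure Ω, y < -(m / 2) := by
    refine exists_lt_of_csInf_lt ⟨_, ⟨s₀, subset_closure hs₀, rfl⟩⟩ ?_
    linarith
  obtain ⟨ρ, hρ⟩ : ∃ ρ : ℝ, ρ = 4 * d / c₁ + 1 := ⟨_, rfl⟩
  have hρ1 : 1 ≤ ρ := by
    have : 0 ≤ 4 * (d : ℝ) / c₁ := by positivity
    linarith
  have hρ2 : 4 * (d : ℝ) / c₁ ≤ ρ ^ 2 := by nlinarith
  have hρ0 : 0 < ρ ^ 2 := by positivity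
  let Z : E d → ℝ := fun s => (z s + (m / ρ ^ 2) * ‖s - s₁‖ ^ 2) + m / 2
  have hkey : ∀ x ∈ closedBall s₁ ρ ∩ closure Ω, 0 ≤ Z x := by
    refine comp_compact _ ((isCompact_closedBall s₁ ρ).inter_right isClosed_closure) Z ?_ ?_
    · refine ContinuousOn.add (ContinuousOn.add (hzc.mono inter_subset_right) ?_) continuousOn_const
      exact Continuous.continuousOn (by fun_prop)
    · rintro x ⟨hxb, hxc⟩ hneg
      have hZ : Z x = (z x + (m / ρ ^ 2) * ‖x - s₁‖ ^ 2) + m / 2 := rfl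
      have hpos : 0 ≤ (m / ρ ^ 2) * ‖x - s₁‖ ^ 2 := by positivity
      have hzx : z x < -(m / 2) := by linarith
      have hxΩ : x ∈ Ω := hin x hxc (by linarith)
      have hxball : x ∈ ball s₁ ρ := by
        rw [mem_ball, dist_eq_norm]
        by_contra hge
        rw [mem_closedBall, dist_eq_norm] at hxb
        have he : ‖x - s₁‖ = ρ := le_antisymm hxb (not_lt.mp hge)
        rw [hZ, he, div_mul_cancel₀ _ hρ0.ne'] at hneg
        have := hmle x hxc
        linarith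
      have hkx : k • x ∈ Ω := sm1 x hxΩ
      have cu : ContDiffAt ℝ 2 u x := (u1 x hxΩ).contDiffAt (hO.mem_nhds hxΩ)
      have cv : ContDiffAt ℝ 2 v (k • x) := (v1 _ hkx).contDiffAt (hO.mem_nhds hkx)
      have cvk : ContDiffAt ℝ 2 (fun s => v (k • s)) x := by
        have : ContDiffAt ℝ 2 (fun s : E d => k • s) x := (contDiff_const_smul k).contDiffAt
        exact cv.comp x this
      have cn : ContDiffAt ℝ 2 (fun s : E d => ‖s - s₁‖ ^ 2) x :=
        ((contDiff_id.sub contDiff_const).norm_sq ℝ).contDiffAt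
      have cz : ContDiffAt ℝ 2 z x := cvk.sub cu
      have cn' : ContDiffAt ℝ 2 (fun s : E d => (m / ρ ^ 2) * ‖s - s₁‖ ^ 2) x :=
        contDiffAt_const.mul cn
      refine ⟨?_, (cz.add cn').add contDiffAt_const, ?_⟩
      · rw [mem_interior]
        exact ⟨ball s₁ ρ ∩ Ω, inter_subset_inter ball_subset_closedBall subset_closure,
          isOpen_ball.inter hO, hxball, hxΩ⟩
      · have e1 : lap Z x = lap (fun s => z s + (m / ρ ^ 2) * ‖s - s₁‖ ^ 2) x + lap (fun _ : E d => m / 2) x :=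
          lap_add _ _ x (cz.add cn') contDiffAt_const
        have e2 : lap (fun s => z s + (m / ρ ^ 2) * ‖s - s₁‖ ^ 2) x =
            lap z x + lap (fun s : E d => (m / ρ ^ 2) * ‖s - s₁‖ ^ 2) x := lap_add _ _ x cz cn'
        have e3 : lap z x = lap (fun s => v (k • s)) x - lap u x := lap_sub _ _ x cvk cu
        have e4 := lap_scale k v x cv
        have e5 : lap (fun s : E d => (m / ρ ^ 2) * ‖s - s₁‖ ^ 2) x = (m / ρ ^ 2) * (2 * (d : ℝ)) := by
          rw [lap_smul _ _ x cn, lap_normsq]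
        have e6 := lap_const (m / 2) x
        have e7 := u5 x hxΩ
        have e8 := v5 _ hkx
        have hlt' : v (k • x) < u x := by
          have : v (k • x) - u x < -(m / 2) := hzx
          linarith
        have hε' := hz x hxΩ hlt'
        have hm1 := hmon (v (k • x)) (u x) hε' hlt'.le (u4 x hxΩ).2
        have hfv : 0 ≤ f (v (k • x)) := by
          have h1 := hlow (v (k • x)) ⟨(v4 _ hkx).1.le, (v4 _ hkx).2⟩
          have h2 : 0 ≤ min (v (k • x)) (1 - v (k • x)) :=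
            le_min (v4 _ hkx).1.le (by linarith [(v4 _ hkx).2])
          have h3 : 0 ≤ c * min (v (k • x)) (1 - v (k • x)) := mul_nonneg hc.le h2
          linarith
        have hk2 : f (v (k • x)) ≤ k ^ 2 * f (v (k • x)) := by
          have : (1 : ℝ) ≤ k ^ 2 := by nlinarith
          nlinarith
        have hd : (m / ρ ^ 2) * (2 * (d : ℝ)) ≤ c₁ * (m / 2) := by
          rw [div_mul_eq_mul_div, div_le_iff₀ hρ0]
          rw [div_le_iff₀ hc₁] at hρ2
          calc m * (2 * (d : ℝ)) = m / 2 * (4 * (d : ℝ)) := by ring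
            _ ≤ m / 2 * (ρ ^ 2 * c₁) := mul_le_mul_of_nonneg_left hρ2 (by positivity)
            _ = c₁ * (m / 2) * ρ ^ 2 := by ring
        have hzx' : m / 2 < u x - v (k • x) := by
          have : v (k • x) - u x < -(m / 2) := hzx
          linarith
        have hc2 : c₁ * (m / 2) < c₁ * (u x - v (k • x)) := mul_lt_mul_of_pos_left hzx' hc₁
        have e9 : lap v (k • x) = -f (v (k • x)) := by linarith
        have e10 : lap u x = -f (u x) := by linarith
        rw [e1, e2, e3, e4, e5, e6, e9, e10]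
        linarith
  have h1 := hkey s₁ ⟨mem_closedBall_self (by linarith), hs₁c⟩
  have h2 : Z s₁ = (z s₁ + (m / ρ ^ 2) * ‖s₁ - s₁‖ ^ 2) + m / 2 := rfl
  rw [h2, sub_self, norm_zero] at h1
  norm_num at h1
  linarith

end

end ExtStar
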