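import Pool.Agent.H631.ES.Defs
import Pool.Agent.H631.ES.X18
import Pool.Agent.H631.ES.X19
import Pool.Agent.H631.ES.X20
import Pool.Agent.H631.ES.X26

open Set Metric Filter Topology MeasureTheory

namespace ExtStar

noncomputable section

/-! TARGET: prove the following -/

theorem low_dil {d : ℕ} (f : ℝ → ℝ) (L c ε c₁ : ℝ) (Ω : Set (E d)) (r : ℝ) (h : Ctx f L c ε c₁ Ω r) :
    ∃ c₂ k₂ : ℝ, 0 < c₂ ∧ 1 ≤ k₂ ∧ ∀ v : E d → ℝ, Sol f Ω v → ∀ k : ℝ, k₂ ≤ k → ∀ s ∈ Ω,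
      c₂ * min 1 (k * infDist s Ωᶜ) ≤ v (k • s) := by
  obtain ⟨hreact, _, hΩ, hstar, hB, hr, _⟩ := h
  obtain ⟨c₂, R₃, hc₂, hR₃, H⟩ := hopf_ball d f hreact
  refine ⟨c₂, max 1 (R₃ / r), hc₂, le_max_left _ _, ?_⟩
  intro v hv k hk s hs
  have hk1 : 1 ≤ k := le_trans (le_max_left _ _) hk
  have hkr : R₃ ≤ k * r := by
    have : R₃ / r ≤ k := le_trans (le_max_right _ _) hk
    rwa [div_le_iff₀ hr] at this
  have hk0 : 0 < k := by linarith
  have hne : (Ωᶜ).Nonempty := ⟨0, hstar.1⟩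
  obtain ⟨hpos, hball⟩ := infDist_ball Ω hΩ hne s hs
  rcases lt_or_ge (infDist s Ωᶜ) r with hlt | hge
  · obtain ⟨q, ν, hTB, hsq⟩ := near_point Ω hΩ hne r hr hB s hs hlt
    have hb : ball (k • (q + r • ν)) (k * r) ⊆ Ω := star_ball Ω hstar _ r k hk1 hTB.2.2.1
    have hn : ‖k • s - k • (q + r • ν)‖ = k * (r - infDist s Ωᶜ) := by
      have : k • s - k • (q + r • ν) = (k * (infDist s Ωᶜ - r)) • ν := by
        conv_lhs => rw [hsq]
        module
      rw [this, norm_smul, hTB.2.1, mul_one, Real.norm_eq_abs, abs_mul, abs_of_pos hk0,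
        abs_of_neg (by linarith)]
      ring
    have hmem : k • s ∈ ball (k • (q + r • ν)) (k * r) := by
      rw [mem_ball, dist_eq_norm, hn]
      nlinarith
    have := H Ω v (k • (q + r • ν)) (k • s) (k * r) hΩ hv hkr hb hmem
    rw [hn] at this
    have e : k * r - k * (r - infDist s Ωᶜ) = k * infDist s Ωᶜ := by ring
    rwa [e] at this
  · have hb : ball (k • s) (k * infDist s Ωᶜ) ⊆ Ω := star_ball Ω hstar _ _ k hk1 hball
    have hR : R₃ ≤ k * infDist s Ωᶜ := by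
      refine hkr.trans ?_
      gcongr
    have hmem : k • s ∈ ball (k • s) (k * infDist s Ωᶜ) := by
      rw [mem_ball, dist_self]
      positivity
    have := H Ω v (k • s) (k • s) _ hΩ hv hR hb hmem
    simpa using this

end

end ExtStar
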