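import Pool.Agent.H631.ES.Defs
import Pool.Agent.H631.ES.X18
import Pool.Agent.H631.ES.X20
import Pool.Agent.H631.ES.X24
import Pool.Agent.H631.ES.X28
import Pool.Agent.H631.ES.X29
import Pool.Agent.H631.ES.X30

open Set Metric Filter Topology MeasureTheory

namespace ExtStar

noncomputable section

/-! TARGET: prove the following -/

theorem stepA {d : ℕ} (f : ℝ → ℝ) (L c ε c₁ : ℝ) (Ω : Set (E d)) (r : ℝ) (h : Ctx f L c ε c₁ Ω r) :
    ∃ k₀ : ℝ, 1 ≤ k₀ ∧ ∀ u v : E d → ℝ, Sol f Ω u → Sol f Ω v → ∀ k : ℝ, k₀ ≤ k →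
      ∀ s ∈ Ω, u s ≤ v (k • s) := by
  obtain ⟨C, hC1, hC⟩ := upper_lin f L c ε c₁ Ω r h
  obtain ⟨c₂, k₂, hc₂, hk₂, hlow⟩ := low_dil f L c ε c₁ Ω r h
  obtain ⟨hL, hc, hε, hε1, hrest⟩ := h.2.1
  obtain ⟨R, hR0, hR⟩ := near_one d f h.1 ε hε hε1
  have hΩ : IsOpen Ω := h.2.2.1
  have hst : Star0 Ω := h.2.2.2.1
  refine ⟨max (max k₂ (C / c₂)) (max (C * R / c₂) 1), le_max_of_le_right (le_max_right _ _), ?_⟩
  intro u v hu hv k hk
  have hk1 : k₂ ≤ k := le_trans (le_trans (le_max_left _ _) (le_max_left _ _)) hk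
  have hkC : C / c₂ ≤ k := le_trans (le_trans (le_max_right _ _) (le_max_left _ _)) hk
  have hkR : C * R / c₂ ≤ k := le_trans (le_trans (le_max_left _ _) (le_max_right _ _)) hk
  have hk1' : (1:ℝ) ≤ k := le_trans (le_trans (le_max_right _ _) (le_max_right _ _)) hk
  have hkpos : 0 < k := by linarith
  rw [div_le_iff₀ hc₂] at hkC hkR
  refine comp_inf f L c ε c₁ Ω r h u v hu hv k hk1' ?_
  intro s hs hlt
  obtain ⟨hpos, hball⟩ := infDist_ball Ω hΩ ⟨0, hst.1⟩ s hs
  have hb2 := star_ball Ω hst s _ k hk1' hball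
  set t := infDist s Ωᶜ with ht
  by_cases hcase : R < k * t
  · exact hR Ω v (k • s) hΩ hv ((closedBall_subset_ball hcase).trans hb2)
  · exfalso
    push Not at hcase
    have h1 := hlow v hv k hk1 s hs
    have h2 := hC u hu s hs
    rw [← ht] at h1 h2
    rcases le_total (k * t) 1 with h3 | h3
    · rw [min_eq_right h3] at h1
      have : C * t ≤ c₂ * (k * t) := by
        have := mul_le_mul_of_nonneg_right hkC hpos.le
        nlinarith
      linarith
    · rw [min_eq_left h3] at h1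
      have h4 : C * t ≤ c₂ := by
        have h5 : C * (k * t) ≤ C * R := mul_le_mul_of_nonneg_left hcase (by linarith)
        have h6 : k * (C * t) ≤ k * c₂ := by nlinarith
        exact le_of_mul_le_mul_left h6 hkpos
      linarith

end

end ExtStar
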