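import Pool.Agent.H631.ES.Defs
import Pool.Agent.H631.ES.X13
import Pool.Agent.H631.ES.X20

open Set Metric Filter Topology MeasureTheory

namespace ExtStar

noncomputable section

/-! TARGET: prove the following -/

theorem normal_mono (d : ℕ) (L : ℝ) (hL : 0 ≤ L) : ∃ m : ℕ,
    ∀ (Ω : Set (E d)) (v : E d → ℝ) (r : ℝ) (q ν : E d) (a b : ℝ), IsOpen Ω → r ≤ 1 → TB Ω r q ν →
      Quasi L Ω v → 0 < a → a ≤ b → b ≤ r →
      v (q + a • ν) * a ^ m ≤ v (q + b • ν) * b ^ m ∧ v (q + b • ν) * a ^ m ≤ v (q + a • ν) * b ^ m := by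
  obtain ⟨C, hC, hG⟩ := grad_harnack d L hL
  refine ⟨⌈C⌉₊ + 1, ?_⟩
  intro Ω v r q ν a b hΩ hr hTB hv ha hab hbr
  set k : ℕ := ⌈C⌉₊ with hk
  have hCk : C ≤ (k : ℝ) + 1 := by
    have := Nat.le_ceil C
    linarith
  have hν : ‖ν‖ = 1 := hTB.2.1
  -- pointwise facts
  have hpt : ∀ τ : ℝ, 0 < τ → τ ≤ b → ∃ D : ℝ,
      HasDerivAt (fun t : ℝ => v (q + t • ν)) D τ ∧ |D| * τ ≤ ((k : ℝ) + 1) * v (q + τ • ν) ∧
        0 ≤ v (q + τ • ν) := by
    intro τ hτ hτb
    have hball : ball (q + τ • ν) τ ⊆ Ω := TB_ball Ω r τ hτ.le (hτb.trans hbr) q ν hTB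
    have hmem : q + τ • ν ∈ Ω := hball (mem_ball_self hτ)
    have hQ : Quasi L (ball (q + τ • ν) τ) v :=
      ⟨hv.1.mono hball, fun x hx => hv.2 x (hball hx)⟩
    have hg := hG v (q + τ • ν) τ hτ (hτb.trans (hbr.trans hr)) hQ
    have hv0 : 0 ≤ v (q + τ • ν) := (hv.2 _ hmem).1
    have hdiff : DifferentiableAt ℝ v (q + τ • ν) :=
      (hv.1.contDiffAt (hΩ.mem_nhds hmem)).differentiableAt (by norm_num)
    have hline : HasDerivAt (fun t : ℝ => q + t • ν) ν τ := by
      have h1 : HasDerivAt (fun t : ℝ => t • ν) ((1 : ℝ) • ν) τ := (hasDerivAt_id τ).smul_const ν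
      rw [one_smul] at h1
      exact h1.const_add q
    have hcomp : HasDerivAt (fun t : ℝ => v (q + t • ν)) (fderiv ℝ v (q + τ • ν) ν) τ :=
      hdiff.hasFDerivAt.comp_hasDerivAt τ hline
    refine ⟨fderiv ℝ v (q + τ • ν) ν, hcomp, ?_, hv0⟩
    have h2 : |fderiv ℝ v (q + τ • ν) ν| ≤ C / τ * v (q + τ • ν) := by
      have h3 := (fderiv ℝ v (q + τ • ν)).le_opNorm ν
      rw [hν, mul_one, Real.norm_eq_abs] at h3
      exact h3.trans hg
    calc |fderiv ℝ v (q + τ • ν) ν| * τ ≤ (C / τ * v (q + τ • ν)) * τ :=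
          mul_le_mul_of_nonneg_right h2 hτ.le
      _ = C * v (q + τ • ν) := by field_simp
      _ ≤ ((k : ℝ) + 1) * v (q + τ • ν) := mul_le_mul_of_nonneg_right hCk hv0
  choose! D hD hDb hv0 using hpt
  have hmono : MonotoneOn (fun t : ℝ => v (q + t • ν) * t ^ (k + 1)) (Icc a b) := by
    have hder : ∀ t ∈ Icc a b, HasDerivAt (fun t : ℝ => v (q + t • ν) * t ^ (k + 1))
        (D t * t ^ (k + 1) + v (q + t • ν) * (((k + 1 : ℕ) : ℝ) * t ^ k)) t := by
      intro t ht
      have h1 := hD t (ha.trans_le ht.1) ht.2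
      have h2 : HasDerivAt (fun t : ℝ => t ^ (k + 1)) (((k + 1 : ℕ) : ℝ) * t ^ k) t := by
        simpa using hasDerivAt_pow (k + 1) t
      exact h1.mul h2
    apply monotoneOn_of_deriv_nonneg (convex_Icc a b)
    · exact fun t ht => (hder t ht).continuousAt.continuousWithinAt
    · intro t ht
      rw [interior_Icc] at ht
      exact (hder t ⟨ht.1.le, ht.2.le⟩).differentiableAt.differentiableWithinAt
    · intro t ht
      rw [interior_Icc] at ht
      rw [(hder t ⟨ht.1.le, ht.2.le⟩).deriv]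
      have ht0 : 0 < t := ha.trans ht.1
      have h3 := hDb t ht0 ht.2.le
      have h4 : -(|D t|) ≤ D t := neg_abs_le _
      have h5 : 0 ≤ t ^ k := by positivity
      have h6 : D t * t + ((k : ℝ) + 1) * v (q + t • ν) ≥ 0 := by nlinarith
      have h7 : D t * t ^ (k + 1) + v (q + t • ν) * (((k + 1 : ℕ) : ℝ) * t ^ k) =
          (D t * t + ((k : ℝ) + 1) * v (q + t • ν)) * t ^ k := by
        push_cast
        ring
      rw [h7]
      exact mul_nonneg h6 h5
  have hanti : AntitoneOn (fun t : ℝ => v (q + t • ν) / t ^ (k + 1)) (Icc a b) := by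
    have hder : ∀ t ∈ Icc a b, HasDerivAt (fun t : ℝ => v (q + t • ν) / t ^ (k + 1))
        ((D t * t ^ (k + 1) - v (q + t • ν) * (((k + 1 : ℕ) : ℝ) * t ^ k)) /
          (t ^ (k + 1)) ^ 2) t := by
      intro t ht
      have ht0 : 0 < t := ha.trans_le ht.1
      have h1 := hD t ht0 ht.2
      have h2 : HasDerivAt (fun t : ℝ => t ^ (k + 1)) (((k + 1 : ℕ) : ℝ) * t ^ k) t := by
        simpa using hasDerivAt_pow (k + 1) t
      exact h1.div h2 (by positivity)
    apply antitoneOn_of_deriv_nonpos (convex_Icc a b)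
    · exact fun t ht => (hder t ht).continuousAt.continuousWithinAt
    · intro t ht
      rw [interior_Icc] at ht
      exact (hder t ⟨ht.1.le, ht.2.le⟩).differentiableAt.differentiableWithinAt
    · intro t ht
      rw [interior_Icc] at ht
      rw [(hder t ⟨ht.1.le, ht.2.le⟩).deriv]
      have ht0 : 0 < t := ha.trans ht.1
      have h3 := hDb t ht0 ht.2.le
      have h4 : D t ≤ |D t| := le_abs_self _
      have h5 : 0 ≤ t ^ k := by positivity
      have h6 : D t * t - ((k : ℝ) + 1) * v (q + t • ν) ≤ 0 := by nlinarith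
      have h7 : D t * t ^ (k + 1) - v (q + t • ν) * (((k + 1 : ℕ) : ℝ) * t ^ k) =
          (D t * t - ((k : ℝ) + 1) * v (q + t • ν)) * t ^ k := by
        push_cast
        ring
      rw [h7]
      exact div_nonpos_of_nonpos_of_nonneg (mul_nonpos_of_nonpos_of_nonneg h6 h5) (by positivity)
  constructor
  · exact hmono (left_mem_Icc.mpr hab) (right_mem_Icc.mpr hab) hab
  · have h := hanti (left_mem_Icc.mpr hab) (right_mem_Icc.mpr hab) hab
    have hb : 0 < b := ha.trans_le hab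
    simp only at h
    rw [div_le_div_iff₀ (by positivity) (by positivity)] at h
    exact h

end

end ExtStar
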