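import Pool.Agent.H631.ES.Defs
import Pool.Agent.H631.ES.X14
import Pool.Agent.H631.ES.X20

open Set Metric Filter Topology MeasureTheory

namespace ExtStar

noncomputable section

/-! TARGET: prove the following -/

theorem normal_cmp (d : ℕ) (L : ℝ) (hL : 0 ≤ L) : ∃ C : ℝ, 1 ≤ C ∧
    ∀ (Ω : Set (E d)) (v : E d → ℝ) (r : ℝ) (q ν q' ν' : E d), IsOpen Ω → 0 < r → r ≤ 1 →
      TB Ω r q ν → TB Ω r q' ν' → Quasi L Ω v → ‖q - q'‖ ≤ r / 10 →
      v (q' + (r / 2) • ν') ≤ C * v (q + (r / 2) • ν) := by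
  obtain ⟨C, hC, hchain⟩ := chain d L hL
  refine ⟨Real.exp (C * (3 / 5)), Real.one_le_exp (by positivity), ?_⟩
  intro Ω v r q ν q' ν' hΩ hr hr1 h h' hv hq
  obtain ⟨A, hA⟩ : ∃ A, A = q + (r / 2) • ν := ⟨_, rfl⟩
  obtain ⟨A', hA'⟩ : ∃ A', A' = q' + (r / 2) • ν' := ⟨_, rfl⟩
  rw [← hA, ← hA']
  have hball : ball A (r / 2) ⊆ Ω := by
    rw [hA]
    exact TB_ball Ω r (r / 2) (by linarith) (by linarith) q ν h
  have hAΩ : A ∈ Ω := hball (mem_ball_self (by linarith))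
  have hdist : ‖A' - A‖ ≤ 3 / 20 * r := by
    have h1 := normal_lip Ω r hr q ν q' ν' h h'
    have h2 : A' - A = (q' - q) + (r / 2) • (ν' - ν) := by
      rw [hA, hA', smul_sub]
      abel
    have h3 : ‖ν' - ν‖ ≤ ‖q - q'‖ / r := by rw [norm_sub_rev]; exact h1
    calc ‖A' - A‖ ≤ ‖q' - q‖ + ‖(r / 2) • (ν' - ν)‖ := by rw [h2]; exact norm_add_le _ _
      _ = ‖q - q'‖ + r / 2 * ‖ν' - ν‖ := by
          rw [norm_smul, Real.norm_eq_abs, abs_of_pos (by linarith), norm_sub_rev q' q]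
      _ ≤ ‖q - q'‖ + r / 2 * (‖q - q'‖ / r) := by
          have := mul_le_mul_of_nonneg_left h3 (by linarith : (0 : ℝ) ≤ r / 2)
          linarith
      _ = 3 / 2 * ‖q - q'‖ := by field_simp; ring
      _ ≤ 3 / 20 * r := by linarith
  have hseg : ∀ w ∈ segment ℝ A' A, ball w (r / 4) ⊆ Ω := by
    intro w hw
    have h4 : w ∈ closedBall A (3 / 20 * r) := by
      refine (convex_closedBall A (3 / 20 * r)).segment_subset ?_ ?_ hw
      · rw [mem_closedBall, dist_eq_norm]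
        exact hdist
      · exact mem_closedBall_self (by linarith)
    rw [mem_closedBall] at h4
    refine (ball_subset_ball' ?_).trans hball
    linarith
  have h5 := hchain v Ω A' A (r / 4) hΩ (by linarith) (by linarith) hv hseg
  have h6 : 0 ≤ v A := (hv.2 A hAΩ).1
  refine h5.trans (mul_le_mul_of_nonneg_right ?_ h6)
  apply Real.exp_le_exp.mpr
  calc C / (r / 4) * ‖A' - A‖ ≤ C / (r / 4) * (3 / 20 * r) :=
        mul_le_mul_of_nonneg_left hdist (by positivity)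
    _ = C * (3 / 5) := by field_simp; ring

end

end ExtStar
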