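import Pool.Agent.H631.ES.Defs
import Pool.Agent.H631.ES.X19
import Pool.Agent.H631.ES.X20
import Pool.Agent.H631.ES.X32
import Pool.Agent.H631.ES.X33

open Set Metric Filter Topology MeasureTheory

namespace ExtStar

noncomputable section

/-! TARGET: prove the following -/

theorem depth_bd (d : ℕ) (L : ℝ) (hL : 0 ≤ L) : ∃ (m : ℕ) (C : ℝ), 1 ≤ C ∧
    ∀ (Ω : Set (E d)) (v : E d → ℝ) (r : ℝ) (q ν p : E d), IsOpen Ω → BC Ω r → 0 < r → r ≤ 1 →
      TB Ω r q ν → Quasi L Ω v → p ∈ Ω ∩ ball q (r / 20) →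
      v p * (infDist p Ωᶜ) ^ m ≤ C * r ^ m * v (q + (r / 2) • ν) := by
  obtain ⟨m, hm⟩ := normal_mono d L hL
  obtain ⟨C, hC1, hC⟩ := normal_cmp d L hL
  refine ⟨m, C, hC1, ?_⟩
  intro Ω v r q ν p hΩ hB hr hr1 hT hv hp
  have hqc : q ∈ Ωᶜ := by
    have h1 : q ∈ frontier Ω := hT.1
    rw [hΩ.frontier_eq] at h1
    exact h1.2
  have hne : (Ωᶜ).Nonempty := ⟨q, hqc⟩
  have hpq : dist p q < r / 20 := hp.2
  have hle : infDist p Ωᶜ ≤ dist p q := infDist_le_dist_of_mem hqc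
  obtain ⟨hpos, -⟩ := infDist_ball Ω hΩ hne p hp.1
  obtain ⟨q', ν', hT', hpe⟩ := near_point Ω hΩ hne r hr hB p hp.1 (by linarith)
  set h := infDist p Ωᶜ with hh
  have hν' : ‖ν'‖ = 1 := hT'.2.1
  have hqq : ‖q - q'‖ ≤ r / 10 := by
    have e : q - q' = (q - p) + h • ν' := by
      rw [eq_comm] at hpe
      have : h • ν' = p - q' := by rw [← hpe]; abel
      rw [this]; abel
    rw [e]
    refine (norm_add_le _ _).trans ?_
    have e1 : ‖q - p‖ = dist p q := by rw [dist_comm, dist_eq_norm]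
    have e2 : ‖h • ν'‖ = h := by rw [norm_smul, hν', mul_one, Real.norm_of_nonneg hpos.le]
    rw [e1, e2]
    linarith
  have h1 := (hm Ω v r q' ν' h (r / 2) hΩ hr1 hT' hv hpos (by linarith) (by linarith)).1
  have h2 := hC Ω v r q ν q' ν' hΩ hr hr1 hT hT' hv hqq
  rw [← hpe] at h1
  have hc : q + (r / 2) • ν ∈ Ω :=
    TB_ball Ω r (r / 2) (by linarith) (by linarith) q ν hT (mem_ball_self (by linarith))
  have hv0 : 0 ≤ v (q + (r / 2) • ν) := (hv.2 _ hc).1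
  have h3 : (r / 2) ^ m ≤ r ^ m := pow_le_pow_left₀ (by linarith) (by linarith) m
  calc v p * h ^ m ≤ v (q' + (r / 2) • ν') * (r / 2) ^ m := h1
    _ ≤ (C * v (q + (r / 2) • ν)) * (r / 2) ^ m := mul_le_mul_of_nonneg_right h2 (by positivity)
    _ ≤ (C * v (q + (r / 2) • ν)) * r ^ m := mul_le_mul_of_nonneg_left h3 (by positivity)
    _ = C * r ^ m * v (q + (r / 2) • ν) := by ring

end

end ExtStar
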