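import Pool.Agent.H631.ES.Defs
import Pool.Agent.H631.ES.X19
import Pool.Agent.H631.ES.X20
import Pool.Agent.H631.ES.X27
import Pool.Agent.H631.ES.X34

open Set Metric Filter Topology MeasureTheory

namespace ExtStar

noncomputable section

/-! TARGET: prove the following -/

theorem carleson (d : ℕ) (L : ℝ) (hL : 0 ≤ L) : ∃ C : ℝ, 1 ≤ C ∧
    ∀ (Ω : Set (E d)) (v : E d → ℝ) (r : ℝ) (q ν p : E d), IsOpen Ω → BC Ω r → 0 < r → r ≤ 1 →
      TB Ω r q ν → Quasi L Ω v → ContinuousOn v (closure Ω) → (∀ x ∈ frontier Ω, v x = 0) →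
      (∀ x ∈ Ω, v x ≤ 1) → p ∈ Ω ∩ ball q (r / 25) → v p ≤ C * v (q + (r / 2) • ν) := by
  obtain ⟨m, C₁, hC₁, hdep⟩ := depth_bd d L hL
  obtain ⟨C₂, hC₂, hdec⟩ := bdry_decay d L hL
  set e : ℝ := min (1 / 8) (1 / (16 * C₂ * 2 ^ (m + 1))) with he
  have he0 : 0 < e := lt_min (by norm_num) (by positivity)
  have he1 : e ≤ 1 / 8 := min_le_left _ _
  have he2 : e * (16 * C₂ * 2 ^ (m + 1)) ≤ 1 := by
    have h1 : e ≤ 1 / (16 * C₂ * 2 ^ (m + 1)) := min_le_right _ _
    rwa [le_div_iff₀ (by positivity)] at h1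
  refine ⟨2 * C₁ * (100 / e) ^ m, ?_, ?_⟩
  · have h1 : (1 : ℝ) ≤ 100 / e := by rw [le_div_iff₀ he0]; linarith
    have h2 : (1 : ℝ) ≤ (100 / e) ^ m := one_le_pow₀ h1
    nlinarith
  intro Ω v r q ν p hΩ hB hr hr1 hT hQ hc hfr hv1 hp
  have hv0 : ∀ x ∈ Ω, 0 ≤ v x := fun x hx => (hQ.2 x hx).1
  have hA : q + (r / 2) • ν ∈ Ω := by
    apply hT.2.2.1
    rw [mem_ball, dist_eq_norm]
    have h1 : q + (r / 2) • ν - (q + r • ν) = (-(r / 2)) • ν := by
      rw [add_sub_add_left_eq_sub, ← sub_smul]; congr 1; ring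
    rw [h1, norm_smul, hT.2.1, mul_one, Real.norm_eq_abs, abs_neg, abs_of_pos (by positivity)]
    linarith
  have hvA := hv0 _ hA
  have hne : (Ωᶜ).Nonempty := ⟨q - r • ν, hT.2.2.2 (mem_ball_self hr)⟩
  set ω : E d → ℝ := fun x => r / 20 - ‖x - q‖ with hω
  set D : Set (E d) := Ω ∩ ball q (r / 20) with hD
  have hωpos : ∀ x ∈ D, 0 < ω x := by
    intro x hx
    have := hx.2
    rw [mem_ball, dist_eq_norm] at this
    simp only [hω]; linarith
  have hωle : ∀ x, ω x ≤ r / 20 := by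
    intro x
    have := norm_nonneg (x - q)
    simp only [hω]; linarith
  set V : Set ℝ := (fun x => v x * ω x ^ m) '' D with hV
  have hVb : BddAbove V := by
    refine ⟨1, ?_⟩
    rintro _ ⟨x, hx, rfl⟩
    have h1 : ω x ^ m ≤ 1 := pow_le_one₀ (hωpos x hx).le (by linarith [hωle x])
    exact mul_le_one₀ (hv1 x hx.1) (pow_nonneg (hωpos x hx).le _) h1
  have hpD : p ∈ D := ⟨hp.1, ball_subset_ball (by linarith) hp.2⟩
  have hωp : r / 100 ≤ ω p := by
    have := hp.2
    rw [mem_ball, dist_eq_norm] at this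
    simp only [hω]; linarith
  have hVn : V.Nonempty := ⟨_, p, hpD, rfl⟩
  set S : ℝ := sSup V with hS
  have hle : ∀ x ∈ D, v x * ω x ^ m ≤ S := fun x hx => le_csSup hVb ⟨x, hx, rfl⟩
  have hpS : v p * (r / 100) ^ m ≤ S := by
    refine le_trans ?_ (hle p hpD)
    exact mul_le_mul_of_nonneg_left (pow_le_pow_left₀ (by positivity) hωp m) (hv0 p hp.1)
  have hkey : S * e ^ m ≤ 2 * C₁ * r ^ m * v (q + (r / 2) • ν) := by
    by_cases hS0 : S ≤ 0
    · have h1 : S * e ^ m ≤ 0 := mul_nonpos_of_nonpos_of_nonneg hS0 (by positivity)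
      exact h1.trans (by positivity)
    push Not at hS0
    obtain ⟨_, ⟨z, hz, rfl⟩, hzS⟩ := exists_lt_of_lt_csSup hVn (show S / 2 < sSup V by
      rw [← hS]; linarith)
    simp only at hzS
    have hωz := hωpos z hz
    have hvz : 0 < v z := by
      have h1 : 0 < v z * ω z ^ m := by linarith
      exact (mul_pos_iff_of_pos_right (by positivity)).1 h1
    obtain ⟨hd0, hdball⟩ := infDist_ball Ω hΩ hne z hz.1
    by_cases hcase : e * ω z ≤ infDist z Ωᶜ
    · have h1 := hdep Ω v r q ν z hΩ hB hr hr1 hT hQ hz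
      have h2 : v z * (e * ω z) ^ m ≤ v z * (infDist z Ωᶜ) ^ m :=
        mul_le_mul_of_nonneg_left (pow_le_pow_left₀ (by positivity) hcase m) hvz.le
      rw [mul_pow] at h2
      have h3 : S / 2 * e ^ m ≤ v z * ω z ^ m * e ^ m :=
        mul_le_mul_of_nonneg_right hzS.le (by positivity)
      have h4 : v z * ω z ^ m * e ^ m = v z * (e ^ m * ω z ^ m) := by ring
      linarith
    · exfalso
      push Not at hcase
      have hez : e * ω z ≤ 1 / 8 * ω z := mul_le_mul_of_nonneg_right he1 hωz.le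
      have hωz1 := hωle z
      obtain ⟨q', ν', hT', hzq⟩ := near_point Ω hΩ hne r hr hB z hz.1 (by linarith)
      have hzn : ‖z - q'‖ = infDist z Ωᶜ := by
        have h1 : z - q' = infDist z Ωᶜ • ν' := by
          conv_lhs => rw [hzq]
          rw [add_sub_cancel_left]
        rw [h1, norm_smul, hT'.2.1, mul_one, Real.norm_eq_abs, abs_of_pos hd0]
      have hR0 : 0 < ω z / 4 := by positivity
      have hT'' := TB_mono Ω r (ω z / 4) hR0 (by linarith) q' ν' hT'
      have hsup : ∀ x ∈ Ω ∩ ball q' (ω z / 4), v x ≤ 2 ^ (m + 1) * v z := by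
        intro x hx
        have h1 := hx.2
        rw [mem_ball, dist_eq_norm] at h1
        have h2 : ‖x - q‖ ≤ ‖x - q'‖ + ‖z - q'‖ + ‖z - q‖ := by
          have e1 : x - q = (x - q') + (q' - z) + (z - q) := by abel
          rw [e1]
          refine (norm_add_le _ _).trans ?_
          refine add_le_add ((norm_add_le _ _).trans ?_) le_rfl
          rw [norm_sub_rev q' z]
        have h3 : ω z = r / 20 - ‖z - q‖ := rfl
        have h4 : ω z / 2 ≤ ω x := by
          have : ω x = r / 20 - ‖x - q‖ := rfl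
          rw [this]
          rw [hzn] at h2
          linarith
        have hxD : x ∈ D := by
          refine ⟨hx.1, ?_⟩
          rw [mem_ball, dist_eq_norm]
          have : ω x = r / 20 - ‖x - q‖ := rfl
          linarith
        have h5 := hle x hxD
        have h6 : v x * (ω z / 2) ^ m ≤ v x * ω x ^ m :=
          mul_le_mul_of_nonneg_left (pow_le_pow_left₀ (by positivity) h4 m) (hv0 x hx.1)
        have h7 : v x * (ω z / 2) ^ m ≤ 2 * (v z * ω z ^ m) := by linarith
        rw [div_pow, mul_div_assoc', div_le_iff₀ (by positivity)] at h7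
        have h8 : v x * ω z ^ m ≤ (2 ^ (m + 1) * v z) * ω z ^ m := by
          calc v x * ω z ^ m ≤ 2 * (v z * ω z ^ m) * 2 ^ m := h7
            _ = _ := by ring
        exact le_of_mul_le_mul_right h8 (by positivity)
      have hzR : z ∈ Ω ∩ ball q' (ω z / 4) := by
        refine ⟨hz.1, ?_⟩
        rw [mem_ball, dist_eq_norm, hzn]
        linarith
      have h9 := hdec Ω q' ν' (ω z / 4) v (2 ^ (m + 1) * v z) z hΩ hR0 (by linarith) hT'' hc hfr hQ
        hsup hzR
      rw [hzn] at h9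
      have h10 : infDist z Ωᶜ / (ω z / 4) ≤ 4 * e := by
        rw [div_le_iff₀ hR0]; linarith
      have h11 : C₂ * (infDist z Ωᶜ / (ω z / 4)) * (2 ^ (m + 1) * v z) ≤
          C₂ * (4 * e) * (2 ^ (m + 1) * v z) := by
        apply mul_le_mul_of_nonneg_right _ (by positivity)
        exact mul_le_mul_of_nonneg_left h10 (by linarith)
      have h12 : C₂ * (4 * e) * (2 ^ (m + 1) * v z) = 1 / 4 * (e * (16 * C₂ * 2 ^ (m + 1))) * v z := by
        ring
      have h13 : 1 / 4 * (e * (16 * C₂ * 2 ^ (m + 1))) * v z ≤ 1 / 4 * v z := by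
        apply mul_le_mul_of_nonneg_right _ hvz.le
        linarith
      linarith
  have h1 : v p * (r / 100) ^ m * e ^ m ≤ 2 * C₁ * r ^ m * v (q + (r / 2) • ν) :=
    (mul_le_mul_of_nonneg_right hpS (by positivity)).trans hkey
  have h2 : v p * (r ^ m * (e / 100) ^ m) ≤ r ^ m * (2 * C₁ * v (q + (r / 2) • ν)) := by
    calc v p * (r ^ m * (e / 100) ^ m) = v p * (r / 100) ^ m * e ^ m := by
          rw [div_pow, div_pow]; ring
      _ ≤ _ := h1
      _ = _ := by ring
  have h3 : v p * (e / 100) ^ m ≤ 2 * C₁ * v (q + (r / 2) • ν) := by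
    have hrm : 0 < r ^ m := by positivity
    have : r ^ m * (v p * (e / 100) ^ m) ≤ r ^ m * (2 * C₁ * v (q + (r / 2) • ν)) := by
      linarith
    exact le_of_mul_le_mul_left this hrm
  have h4 : (e / 100) ^ m * (100 / e) ^ m = 1 := by
    rw [← mul_pow]
    have : e / 100 * (100 / e) = 1 := by field_simp
    rw [this, one_pow]
  calc v p = (v p * (e / 100) ^ m) * (100 / e) ^ m := by rw [mul_assoc, h4, mul_one]
    _ ≤ (2 * C₁ * v (q + (r / 2) • ν)) * (100 / e) ^ m :=
        mul_le_mul_of_nonneg_right h3 (by positivity)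
    _ = _ := by ring

end

end ExtStar
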