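import Pool.Agent.H631.ES.Defs
import Pool.Agent.H631.ES.X13
import Pool.Agent.H631.ES.X19
import Pool.Agent.H631.ES.X20
import Pool.Agent.H631.ES.X27
import Pool.Agent.H631.ES.X35

open Set Metric Filter Topology MeasureTheory

namespace ExtStar

noncomputable section

/-! TARGET: prove the following -/

theorem bdry_grad (d : ℕ) (L : ℝ) (hL : 0 ≤ L) : ∃ C : ℝ, 1 ≤ C ∧
    ∀ (Ω : Set (E d)) (v : E d → ℝ) (r : ℝ) (q ν p : E d), IsOpen Ω → BC Ω r → 0 < r → r ≤ 1 →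
      TB Ω r q ν → Quasi L Ω v → ContinuousOn v (closure Ω) → (∀ x ∈ frontier Ω, v x = 0) →
      (∀ x ∈ Ω, v x ≤ 1) → p ∈ Ω ∩ ball q (r / 100) → ‖fderiv ℝ v p‖ ≤ C / r * v (q + (r / 2) • ν) := by
  obtain ⟨C1, hC1, H1⟩ := grad_harnack d L hL
  obtain ⟨C2, hC2, H2⟩ := bdry_decay d L hL
  obtain ⟨C3, hC3, H3⟩ := carleson d L hL
  refine ⟨max 1 (100 * C1 * C2 * C3), le_max_left _ _, ?_⟩
  intro Ω v r q ν p hΩ hB hr hr1 hT hQ hvc hv0 hv1 hp
  have hqf : q ∈ frontier Ω := hT.1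
  have hqc : q ∈ Ωᶜ := by
    rw [hΩ.frontier_eq] at hqf
    exact hqf.2
  have hne : (Ωᶜ).Nonempty := ⟨q, hqc⟩
  obtain ⟨hh0, hhb⟩ := infDist_ball Ω hΩ hne p hp.1
  set h := infDist p Ωᶜ with hh
  have hpq : dist p q < r / 100 := hp.2
  have hhq : h < r / 100 := (infDist_le_dist_of_mem hqc).trans_lt hpq
  obtain ⟨q', ν', hT', hpe⟩ := near_point Ω hΩ hne r hr hB p hp.1 (by linarith)
  rw [← hh] at hpe
  have hν' : ‖ν'‖ = 1 := hT'.2.1
  have hpq' : ‖p - q'‖ = h := by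
    rw [hpe, add_sub_cancel_left, norm_smul, hν', mul_one, Real.norm_of_nonneg hh0.le]
  have hAΩ : q + (r / 2) • ν ∈ Ω := by
    apply hT.2.2.1
    rw [mem_ball, dist_eq_norm]
    have : q + (r / 2) • ν - (q + r • ν) = (-(r / 2)) • ν := by module
    rw [this, norm_smul, hT.2.1, mul_one, norm_neg, Real.norm_of_nonneg (by linarith)]
    linarith
  have hA0 : 0 ≤ v (q + (r / 2) • ν) := (hQ.2 _ hAΩ).1
  set A := v (q + (r / 2) • ν) with hA
  have hS : ∀ x ∈ Ω ∩ ball q' (r / 100), v x ≤ C3 * A := by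
    intro x hx
    apply H3 Ω v r q ν x hΩ hB hr hr1 hT hQ hvc hv0 hv1
    refine ⟨hx.1, ?_⟩
    have h1 : dist x q' < r / 100 := hx.2
    have h2 : dist q' p = h := by rw [dist_comm, dist_eq_norm, hpq']
    have h3 : dist x q ≤ dist x q' + dist q' p + dist p q := by
      have := dist_triangle4 x q' p q
      linarith
    rw [mem_ball]
    linarith
  have hd := H2 Ω q' ν' (r / 100) v (C3 * A) p hΩ (by linarith) (by linarith)
    (TB_mono Ω r (r / 100) (by linarith) (by linarith) q' ν' hT') hvc hv0 hQ hS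
    ⟨hp.1, by rw [mem_ball, dist_eq_norm, hpq']; exact hhq⟩
  rw [hpq'] at hd
  have hg := H1 v p h hh0 (by linarith) ⟨hQ.1.mono hhb, fun x hx => hQ.2 x (hhb hx)⟩
  calc ‖fderiv ℝ v p‖ ≤ C1 / h * v p := hg
    _ ≤ C1 / h * (C2 * (h / (r / 100)) * (C3 * A)) :=
        mul_le_mul_of_nonneg_left hd (by positivity)
    _ = (100 * C1 * C2 * C3) / r * A := by field_simp
    _ ≤ max 1 (100 * C1 * C2 * C3) / r * A := by
        apply mul_le_mul_of_nonneg_right _ hA0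
        exact div_le_div_of_nonneg_right (le_max_right _ _) hr.le

end

end ExtStar
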