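import Pool.Agent.H631.ES.Defs
import Pool.Agent.H631.ES.X13
import Pool.Agent.H631.ES.X14
import Pool.Agent.H631.ES.X16
import Pool.Agent.H631.ES.X19
import Pool.Agent.H631.ES.X20
import Pool.Agent.H631.ES.X28
import Pool.Agent.H631.ES.X32
import Pool.Agent.H631.ES.X36

open Set Metric Filter Topology MeasureTheory

namespace ExtStar

noncomputable section

/-! TARGET: prove the following -/

theorem loc_grad {d : ℕ} (f : ℝ → ℝ) (L c ε c₁ : ℝ) (Ω : Set (E d)) (r : ℝ) (h : Ctx f L c ε c₁ Ω r) :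
    ∃ r₂ : ℝ, 0 < r₂ ∧ r₂ ≤ 1 ∧ ∀ r₁ : ℝ, 0 < r₁ → ∃ C : ℝ, 0 < C ∧ ∀ v : E d → ℝ, Sol f Ω v →
      ∀ P : E d, ball P r₁ ⊆ Ω → ∀ y ∈ Ω ∩ ball P r₂, ‖fderiv ℝ v y‖ ≤ C * min (v P) (1 - v P) := by
  obtain ⟨C₅, hC₅, hup⟩ := upper_lin f L c ε c₁ Ω r h
  obtain ⟨-, hRC, hΩ, hstar, hBC, hr, hr1⟩ := h
  have hL : 0 ≤ L := hRC.1.le
  have hne : (Ωᶜ).Nonempty := ⟨0, hstar.1⟩
  obtain ⟨Cg, hCg, hgrad⟩ := grad_harnack d L hL
  obtain ⟨Cc, hCc, hchain⟩ := chain d L hL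
  obtain ⟨m, hmono⟩ := normal_mono d L hL
  obtain ⟨Cb, hCb, hbdry⟩ := bdry_grad d L hL
  have hC₅0 : 0 < C₅ := by linarith
  set r₂ : ℝ := min (r / 400) (1 / (4 * C₅)) with hr₂
  have hr₂0 : 0 < r₂ := lt_min (by positivity) (by positivity)
  have hr₂a : r₂ ≤ r / 400 := min_le_left _ _
  have hr₂b : r₂ * (4 * C₅) ≤ 1 := by
    have : r₂ ≤ 1 / (4 * C₅) := min_le_right _ _
    rwa [le_div_iff₀ (by positivity)] at this
  have hr₂1 : r₂ ≤ 1 := by linarith
  refine ⟨r₂, hr₂0, hr₂1, fun r₁ hr₁ => ?_⟩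
  refine ⟨Cg / r₂ * Real.exp Cc + Cb / r * (1 / r₁ ^ m + 2), ?_, ?_⟩
  · have : 0 < Cb := by linarith
    positivity
  intro v hv P hP y hy
  obtain ⟨hyΩ, hyP⟩ := hy
  have hPΩ : P ∈ Ω := hP (mem_ball_self hr₁)
  obtain ⟨hq1, hq2⟩ := sol_quasi f L c ε c₁ hRC Ω hΩ v hv
  obtain ⟨hD0, hDball⟩ := infDist_ball Ω hΩ hne P hPΩ
  set D : ℝ := infDist P Ωᶜ with hD
  have hDr₁ : r₁ ≤ D := by
    rw [hD, le_infDist hne]
    intro z hz
    by_contra hlt
    rw [not_le] at hlt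
    exact hz (hP (by rwa [mem_ball, dist_comm]))
  obtain ⟨hvP0, hvP1⟩ := hv.2.2.2.1 P hPΩ
  have hmin0 : 0 ≤ min (v P) (1 - v P) := le_min hvP0.le (by linarith)
  have hyP' : ‖y - P‖ < r₂ := by rwa [mem_ball, dist_eq_norm] at hyP
  have hCb0 : 0 < Cb := by linarith
  by_cases hcase : 2 * r₂ ≤ D
  · have hsub : ∀ w : E d, dist w P ≤ dist y P → ball w r₂ ⊆ Ω := by
      intro w hw z hz
      apply hDball
      rw [mem_ball] at hz hyP ⊢
      have := dist_triangle z w P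
      linarith
    have hqy : Quasi L (ball y r₂) v :=
      ⟨hq1.1.mono (hsub y le_rfl), fun x hx => hq1.2 x (hsub y le_rfl hx)⟩
    have hqy' : Quasi L (ball y r₂) (fun x => 1 - v x) :=
      ⟨hq2.1.mono (hsub y le_rfl), fun x hx => hq2.2 x (hsub y le_rfl hx)⟩
    have g1 := hgrad v y r₂ hr₂0 hr₂1 hqy
    have g2 := hgrad (fun x => 1 - v x) y r₂ hr₂0 hr₂1 hqy'
    rw [fderiv_const_sub, norm_neg] at g2
    have hseg : ∀ w ∈ segment ℝ y P, ball w r₂ ⊆ Ω := by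
      intro w hw
      apply hsub
      have h1 : segment ℝ y P ⊆ closedBall P (dist y P) :=
        (convex_closedBall P (dist y P)).segment_subset (mem_closedBall.mpr le_rfl)
          (mem_closedBall_self dist_nonneg)
      exact mem_closedBall.mp (h1 hw)
    have c1 := hchain v Ω y P r₂ hΩ hr₂0 hr₂1 hq1 hseg
    have c2 := hchain (fun x => 1 - v x) Ω y P r₂ hΩ hr₂0 hr₂1 hq2 hseg
    have hexp : Real.exp (Cc / r₂ * ‖y - P‖) ≤ Real.exp Cc := by
      rw [Real.exp_le_exp, div_mul_eq_mul_div, div_le_iff₀ hr₂0]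
      exact mul_le_mul_of_nonneg_left hyP'.le hCc.le
    have k1 : v y ≤ Real.exp Cc * v P :=
      c1.trans (mul_le_mul_of_nonneg_right hexp hvP0.le)
    have k2 : 1 - v y ≤ Real.exp Cc * (1 - v P) :=
      c2.trans (mul_le_mul_of_nonneg_right hexp (by linarith))
    have hgr : 0 ≤ Cg / r₂ := by positivity
    have l1 : ‖fderiv ℝ v y‖ ≤ Cg / r₂ * Real.exp Cc * v P := by
      rw [mul_assoc]
      exact g1.trans (mul_le_mul_of_nonneg_left k1 hgr)
    have l2 : ‖fderiv ℝ v y‖ ≤ Cg / r₂ * Real.exp Cc * (1 - v P) := by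
      rw [mul_assoc]
      exact g2.trans (mul_le_mul_of_nonneg_left k2 hgr)
    have l3 : ‖fderiv ℝ v y‖ ≤ Cg / r₂ * Real.exp Cc * min (v P) (1 - v P) := by
      rcases min_choice (v P) (1 - v P) with hmn | hmn <;> rw [hmn] <;> assumption
    have l4 : 0 ≤ Cb / r * (1 / r₁ ^ m + 2) * min (v P) (1 - v P) :=
      mul_nonneg (by positivity) hmin0
    rw [add_mul]
    linarith
  · rw [not_le] at hcase
    obtain ⟨q, ν, hTB, hPq⟩ := near_point Ω hΩ hne r hr hBC P hPΩ (by rw [← hD]; linarith)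
    rw [← hD] at hPq
    have hν := hTB.2.1
    have hyq : y ∈ ball q (r / 100) := by
      rw [mem_ball]
      have h1 : dist P q = D := by
        rw [dist_eq_norm, hPq, add_sub_cancel_left, norm_smul, hν, mul_one,
          Real.norm_of_nonneg hD0.le]
      have h2 := dist_triangle y P q
      rw [mem_ball] at hyP
      linarith
    have b1 := hbdry Ω v r q ν y hΩ hBC hr hr1 hTB hq1 hv.2.1 hv.2.2.1
      (fun x hx => (hv.2.2.2.1 x hx).2) ⟨hyΩ, hyq⟩
    have hA : q + (r / 2) • ν ∈ Ω := by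
      apply hTB.2.2.1
      rw [mem_ball, dist_eq_norm]
      have : q + (r / 2) • ν - (q + r • ν) = (-(r / 2)) • ν := by
        rw [add_sub_add_left_eq_sub, ← sub_smul]
        congr 1
        ring
      rw [this, norm_smul, hν, mul_one, norm_neg, Real.norm_of_nonneg (by positivity)]
      linarith
    obtain ⟨hA0, hA1⟩ := hv.2.2.2.1 _ hA
    have m1 := (hmono Ω v r q ν D (r / 2) hΩ hr1 hTB hq1 hD0 (by linarith) (by linarith)).2
    rw [← hPq] at m1
    have hpow : (r / 2) ^ m ≤ 1 := pow_le_one₀ (by positivity) (by linarith)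
    have hpow2 : r₁ ^ m ≤ D ^ m := pow_le_pow_left₀ hr₁.le hDr₁ m
    have hr₁m : 0 < r₁ ^ m := by positivity
    have n1 : v (q + (r / 2) • ν) * r₁ ^ m ≤ v P := by
      calc v (q + (r / 2) • ν) * r₁ ^ m ≤ v (q + (r / 2) • ν) * D ^ m :=
            mul_le_mul_of_nonneg_left hpow2 hA0.le
        _ ≤ v P * (r / 2) ^ m := m1
        _ ≤ v P * 1 := mul_le_mul_of_nonneg_left hpow hvP0.le
        _ = v P := mul_one _
    have n2 : v (q + (r / 2) • ν) ≤ 1 / r₁ ^ m * v P := by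
      rw [div_mul_eq_mul_div, one_mul, le_div_iff₀ hr₁m]
      exact n1
    have hvP : v P ≤ 1 / 2 := by
      have h1 := hup v hv P hPΩ
      rw [← hD] at h1
      nlinarith
    have n3 : v (q + (r / 2) • ν) ≤ 2 * (1 - v P) := by linarith
    have n4 : v (q + (r / 2) • ν) ≤ (1 / r₁ ^ m + 2) * min (v P) (1 - v P) := by
      have hrm : 0 ≤ 1 / r₁ ^ m := by positivity
      rcases min_choice (v P) (1 - v P) with hmn | hmn <;> rw [hmn]
      · nlinarith
      · have : 0 ≤ 1 / r₁ ^ m * (1 - v P) := mul_nonneg hrm (by linarith)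
        nlinarith
    have n5 : ‖fderiv ℝ v y‖ ≤ Cb / r * ((1 / r₁ ^ m + 2) * min (v P) (1 - v P)) :=
      b1.trans (mul_le_mul_of_nonneg_left n4 (by positivity))
    have l4 : 0 ≤ Cg / r₂ * Real.exp Cc * min (v P) (1 - v P) :=
      mul_nonneg (by positivity) hmin0
    rw [add_mul, mul_assoc (Cb / r)]
    linarith

end

end ExtStar
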