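import Pool.Agent.H631.ES.Defs
import Pool.Agent.H631.ES.X14

open Set Metric Filter Topology MeasureTheory

namespace ExtStar

noncomputable section

/-! TARGET: prove the following -/

theorem ball_harnack (d : ℕ) (L : ℝ) (hL : 0 ≤ L) : ∃ c₅ : ℝ, 0 < c₅ ∧
    ∀ (Ω : Set (E d)) (p : E d → ℝ) (P y : E d) (R : ℝ), IsOpen Ω → Quasi L Ω p → 0 < R → R ≤ 1 →
      ball P R ⊆ Ω → y ∈ ball P (3 * R / 4) → c₅ * p P ≤ p y := by
  obtain ⟨C, hC, hch⟩ := chain d L hL
  refine ⟨Real.exp (-(3 * C)), Real.exp_pos _, ?_⟩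
  intro Ω p P y R hΩ hq hR hR1 hball hy
  have h34 : ball P (3 * R / 4) ⊆ ball P R := ball_subset_ball (by linarith)
  have hyΩ : y ∈ Ω := hball (h34 hy)
  have hP : P ∈ ball P (3 * R / 4) := mem_ball_self (by linarith)
  have hseg : ∀ w ∈ segment ℝ P y, ball w (R / 4) ⊆ Ω := by
    intro w hw
    have hwb : w ∈ ball P (3 * R / 4) := (convex_ball P (3 * R / 4)).segment_subset hP hy hw
    refine Subset.trans ?_ hball
    intro z hz
    rw [mem_ball] at hz hwb ⊢
    calc dist z P ≤ dist z w + dist w P := dist_triangle _ _ _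
      _ < R := by linarith
  have h1 := hch p Ω P y (R / 4) hΩ (by linarith) (by linarith) hq hseg
  have hpy : 0 ≤ p y := (hq.2 y hyΩ).1
  have hd : ‖P - y‖ < 3 * R / 4 := by
    rw [mem_ball, dist_comm, dist_eq_norm] at hy
    exact hy
  have h2 : C / (R / 4) * ‖P - y‖ ≤ 3 * C := by
    have e : C / (R / 4) * ‖P - y‖ = 4 * C * ‖P - y‖ / R := by
      field_simp
    rw [e, div_le_iff₀ hR]
    nlinarith
  have h3 : p P ≤ Real.exp (3 * C) * p y :=
    h1.trans (mul_le_mul_of_nonneg_right (Real.exp_le_exp.2 h2) hpy)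
  have h4 : Real.exp (-(3 * C)) * Real.exp (3 * C) = 1 := by
    rw [← Real.exp_add]
    simp
  calc Real.exp (-(3 * C)) * p P ≤ Real.exp (-(3 * C)) * (Real.exp (3 * C) * p y) :=
        mul_le_mul_of_nonneg_left h3 (Real.exp_pos _).le
    _ = (Real.exp (-(3 * C)) * Real.exp (3 * C)) * p y := by ring
    _ = p y := by rw [h4, one_mul]

end

end ExtStar
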