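import Pool.Agent.H631.ES.Defs
import Pool.Agent.H631.ES.X02
import Pool.Agent.H631.ES.X03
import Pool.Agent.H631.ES.X04
import Pool.Agent.H631.ES.X05
import Pool.Agent.H631.ES.X18

open Set Metric Filter Topology MeasureTheory

namespace ExtStar

noncomputable section

/-! TARGET: prove the following -/

theorem loc_int {d : ℕ} (f : ℝ → ℝ) (L c ε c₁ : ℝ) (hR : RC f L c ε c₁) (Ω : Set (E d)) (hΩ : IsOpen Ω)
    (hs : Star0 Ω) (u v : E d → ℝ) (hu : Sol f Ω u) (hv : Sol f Ω v) (k : ℝ) (hk : 1 ≤ k) (s₀ : E d)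
    (ρ μ g : ℝ) (hρ : 0 < ρ) (hb : ball s₀ ρ ⊆ Ω) (hμ : 0 ≤ μ)
    (hz : ∀ s ∈ ball s₀ ρ, -μ ≤ v (k • s) - u s)
    (hg : ∀ s ∈ ball s₀ ρ, g ≤ (k ^ 2 - 1) * f (v (k • s)))
    (hμg : μ * (8 * (d : ℝ) / ρ ^ 2 + L + 1) ≤ g) : u s₀ ≤ v (k • s₀) := by
  rcases hμ.eq_or_lt with h0 | hμpos
  · have := hz s₀ (mem_ball_self hρ)
    rw [← h0] at this
    linarith
  obtain ⟨hL, _, _, _, _, _, _, hLip, _, _⟩ := hR
  obtain ⟨hu2, _, _, hupos, hulap⟩ := hu
  obtain ⟨hv2, _, _, hvpos, hvlap⟩ := hv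
  have hmem : ∀ x ∈ closedBall s₀ (ρ / 2), x ∈ ball s₀ ρ := by
    intro x hx
    rw [mem_closedBall] at hx
    rw [mem_ball]
    linarith
  have hcu : ∀ x ∈ ball s₀ ρ, ContDiffAt ℝ 2 u x := fun x hx =>
    hu2.contDiffAt (hΩ.mem_nhds (hb hx))
  have hcv : ∀ x ∈ ball s₀ ρ, ContDiffAt ℝ 2 v (k • x) := fun x hx =>
    hv2.contDiffAt (hΩ.mem_nhds ((star_mem Ω hs k hk).1 x (hb hx)))
  have hcvk : ∀ x ∈ ball s₀ ρ, ContDiffAt ℝ 2 (fun y => v (k • y)) x := by
    intro x hx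
    have h1 : ContDiffAt ℝ 2 (fun y : E d => k • y) x := (contDiff_const_smul k).contDiffAt
    exact ContDiffAt.comp x (hcv x hx) h1
  have hcn : ∀ x : E d, ContDiffAt ℝ 2 (fun y : E d => ‖y - s₀‖ ^ 2) x := by
    intro x
    exact ((contDiff_id.sub contDiff_const).norm_sq ℝ).contDiffAt
  set C : ℝ := 4 * μ / ρ ^ 2 with hC
  have hCpos : 0 < C := by rw [hC]; positivity
  have hcsub : ∀ x ∈ ball s₀ ρ, ContDiffAt ℝ 2 (fun y => v (k • y) - u y) x := fun x hx =>
    (hcvk x hx).sub (hcu x hx)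
  have hcC : ∀ x : E d, ContDiffAt ℝ 2 (fun y : E d => C * ‖y - s₀‖ ^ 2) x := fun x =>
    contDiffAt_const.mul (hcn x)
  have hcz : ∀ x ∈ ball s₀ ρ, ContDiffAt ℝ 2 (fun y => (v (k • y) - u y) + C * ‖y - s₀‖ ^ 2) x :=
    fun x hx => (hcsub x hx).add (hcC x)
  have key := comp_compact (closedBall s₀ (ρ / 2)) (isCompact_closedBall s₀ (ρ / 2))
    (fun y => (v (k • y) - u y) + C * ‖y - s₀‖ ^ 2)
    (fun x hx => (hcz x (hmem x hx)).continuousAt.continuousWithinAt) ?_ s₀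
    (mem_closedBall_self (by positivity))
  · simp only [sub_self, norm_zero] at key
    nlinarith [key]
  · intro x hx hneg
    have hxb := hmem x hx
    have hzx := hz x hxb
    have hgx := hg x hxb
    try simp only at hneg
    have hn0 : 0 ≤ C * ‖x - s₀‖ ^ 2 := by positivity
    refine ⟨?_, hcz x hxb, ?_⟩
    · apply ball_subset_interior_closedBall
      rw [mem_ball]
      rw [mem_closedBall] at hx
      rcases hx.lt_or_eq with h | h
      · exact h
      · exfalso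
        rw [dist_eq_norm] at h
        rw [h] at hneg
        have : C * (ρ / 2) ^ 2 = μ := by
          rw [hC]; field_simp; ring
        rw [this] at hneg
        linarith
    · have e1 : lap (fun y => (v (k • y) - u y) + C * ‖y - s₀‖ ^ 2) x
          = lap (fun y => v (k • y) - u y) x + lap (fun y : E d => C * ‖y - s₀‖ ^ 2) x :=
        lap_add _ _ x (hcsub x hxb) (hcC x)
      have e2 : lap (fun y => v (k • y) - u y) x = lap (fun y => v (k • y)) x - lap u x :=
        lap_sub _ _ x (hcvk x hxb) (hcu x hxb)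
      have e3 : lap (fun y => v (k • y)) x = k ^ 2 * lap v (k • x) := lap_scale k v x (hcv x hxb)
      have e4 : lap (fun y : E d => C * ‖y - s₀‖ ^ 2) x = C * lap (fun y : E d => ‖y - s₀‖ ^ 2) x :=
        lap_smul C _ x (hcn x)
      have e5 := lap_normsq s₀ x
      have hkx : k • x ∈ Ω := (star_mem Ω hs k hk).1 x (hb hxb)
      have e6 := hvlap (k • x) hkx
      have e7 := hulap x (hb hxb)
      have hv1 := hvpos (k • x) hkx
      have hu1 := hupos x (hb hxb)
      have hl := hLip (u x) ⟨hu1.1.le, hu1.2⟩ (v (k • x)) ⟨hv1.1.le, hv1.2⟩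
      have hd : 0 ≤ u x - v (k • x) := by linarith
      rw [abs_of_nonneg hd] at hl
      have hl2 := (abs_le.mp hl).2
      have hl3 : L * (u x - v (k • x)) ≤ L * μ := mul_le_mul_of_nonneg_left (by linarith) hL.le
      rw [e1, e2, e3, e4, e5]
      have e6' : lap v (k • x) = - f (v (k • x)) := by linarith
      have e7' : lap u x = - f (u x) := by linarith
      rw [e6', e7']
      have hCd : C * (2 * (d : ℝ)) = μ * (8 * (d : ℝ) / ρ ^ 2) := by
        rw [hC]; ring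
      rw [hCd]
      nlinarith [hgx, hl2, hl3, hμg, hμpos]

end

end ExtStar
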