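import Pool.Agent.H631.ES.Defs
import Pool.Agent.H631.ES.X02
import Pool.Agent.H631.ES.X03
import Pool.Agent.H631.ES.X04
import Pool.Agent.H631.ES.X05
import Pool.Agent.H631.ES.X18
import Pool.Agent.H631.ES.X20

open Set Metric Filter Topology MeasureTheory

namespace ExtStar

noncomputable section

/-! TARGET: prove the following -/

theorem lap_aff' {d : ℕ} (z w : E d → ℝ) (C B : ℝ) (x : E d) (hz : ContDiffAt ℝ 2 z x)
    (hw : ContDiffAt ℝ 2 w x) :
    ContDiffAt ℝ 2 (fun y => z y + (C + B * w y)) x ∧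
    lap (fun y => z y + (C + B * w y)) x = lap z x + B * lap w x := by
  have h1 : ContDiffAt ℝ 2 (fun y => B * w y) x := contDiffAt_const.mul hw
  have h2 : ContDiffAt ℝ 2 (fun y => C + B * w y) x := contDiffAt_const.add h1
  refine ⟨hz.add h2, ?_⟩
  rw [lap_add z (fun y => C + B * w y) x hz h2]
  rw [lap_add (fun _ => C) (fun y => B * w y) x contDiffAt_const h1, lap_const, lap_smul B w x hw]
  ring

theorem contDiff_gauss' {d : ℕ} (α : ℝ) (a : E d) :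
    ContDiff ℝ 2 (fun y : E d => Real.exp (-(α * ‖y - a‖ ^ 2))) := by
  have h1 : ContDiff ℝ 2 (fun y : E d => ‖y - a‖ ^ 2) :=
    (contDiff_id.sub contDiff_const).norm_sq ℝ
  exact ((contDiff_const.mul h1).neg).exp

theorem z_facts' {d : ℕ} (f : ℝ → ℝ) (L c ε c₁ : ℝ) (Ω : Set (E d)) (u v : E d → ℝ) (k : ℝ)
    (hRC : RC f L c ε c₁) (hO : IsOpen Ω) (hs : Star0 Ω) (hu : Sol f Ω u) (hv : Sol f Ω v)
    (hk : 1 ≤ k) :
    ContinuousOn (fun s => v (k • s) - u s) (closure Ω) ∧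
    (∀ s ∈ closure Ω, s ∉ Ω → 0 ≤ v (k • s) - u s) ∧
    (∀ s ∈ Ω, ContDiffAt ℝ 2 (fun s => v (k • s) - u s) s ∧ 0 ≤ (k ^ 2 - 1) * f (v (k • s)) ∧
      lap (fun s => v (k • s) - u s) s ≤
        L * |v (k • s) - u s| - (k ^ 2 - 1) * f (v (k • s))) := by
  obtain ⟨hL, hc, hε, hε1, hc1, hf0, hf1, hlip, hlow, hmon⟩ := hRC
  obtain ⟨hu2, huc, huf, hup, hul⟩ := hu
  obtain ⟨hv2, hvc, hvf, hvp, hvl⟩ := hv
  obtain ⟨hm1, hm2⟩ := star_mem Ω hs k hk
  have hks : Continuous (fun s : E d => k • s) := continuous_const_smul k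
  refine ⟨?_, ?_, ?_⟩
  · exact (hvc.comp hks.continuousOn hm2).sub huc
  · intro s hs1 hs2
    have h1 : u s = 0 := huf s ⟨hs1, by rwa [hO.interior_eq]⟩
    rw [h1, sub_zero]
    by_cases h2 : k • s ∈ Ω
    · exact (hvp _ h2).1.le
    · exact (hvf _ ⟨hm2 s hs1, by rwa [hO.interior_eq]⟩).ge
  · intro s hsΩ
    have hksΩ := hm1 s hsΩ
    have hvk : ContDiffAt ℝ 2 v (k • s) := hv2.contDiffAt (hO.mem_nhds hksΩ)
    have huk : ContDiffAt ℝ 2 u s := hu2.contDiffAt (hO.mem_nhds hsΩ)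
    have hvks : ContDiffAt ℝ 2 (fun y => v (k • y)) s := by
      have h3 : ContDiffAt ℝ 2 (fun y : E d => k • y) s := (contDiff_const_smul k).contDiffAt
      exact ContDiffAt.comp s hvk h3
    have hva : v (k • s) ∈ Icc (0 : ℝ) 1 := ⟨(hvp _ hksΩ).1.le, (hvp _ hksΩ).2⟩
    have hua : u s ∈ Icc (0 : ℝ) 1 := ⟨(hup _ hsΩ).1.le, (hup _ hsΩ).2⟩
    refine ⟨hvks.sub huk, ?_, ?_⟩
    · have h4 := hlow _ hva
      have h5 : 0 ≤ min (v (k • s)) (1 - v (k • s)) :=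
        le_min hva.1 (by linarith [hva.2])
      have h6 : 0 ≤ f (v (k • s)) := (mul_nonneg hc.le h5).trans h4
      have h7 : 0 ≤ k ^ 2 - 1 := by nlinarith
      exact mul_nonneg h7 h6
    · rw [lap_sub _ _ _ hvks huk, lap_scale k v s hvk]
      have e1 := hvl _ hksΩ
      have e2 := hul _ hsΩ
      have e3 := hlip _ hva _ hua
      have e4 : lap v (k • s) = - f (v (k • s)) := by linarith
      have e5 : lap u s = - f (u s) := by linarith
      rw [e4, e5]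
      have e6 := (abs_le.mp e3).1
      nlinarith [e6]

theorem b2_facts' {d : ℕ} (L ρ a M μ : ℝ) (ye s : E d) (hL : 0 ≤ L) (hρ : 0 < ρ) (hρ1 : ρ ≤ 1)
    (ha : a = 2 * d + 2) (hM : 0 < M)
    (hM1 : 1 ≤ M * (Real.exp (-(a / 4)) - Real.exp (-a)))
    (hM2 : L + 1 ≤ M * (2 * a * Real.exp (-(4 * a)))) (hμ : 0 < μ)
    (h1 : ρ / 2 ≤ ‖s - ye‖) (h2 : ‖s - ye‖ ≤ 2 * ρ) :
    0 ≤ M * μ * Real.exp (-(a / 4)) + (-(M * μ)) * Real.exp (-(a / ρ ^ 2 * ‖s - ye‖ ^ 2)) ∧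
    (-(M * μ)) * lap (fun y : E d => Real.exp (-(a / ρ ^ 2 * ‖y - ye‖ ^ 2))) s < -(L * μ) ∧
    (ρ ≤ ‖s - ye‖ →
      μ ≤ M * μ * Real.exp (-(a / 4)) + (-(M * μ)) * Real.exp (-(a / ρ ^ 2 * ‖s - ye‖ ^ 2))) := by
  have hd : (0:ℝ) ≤ d := Nat.cast_nonneg d
  have ha0 : 0 < a := by rw [ha]; positivity
  have hMμ : 0 < M * μ := mul_pos hM hμ
  have hsq : (ρ / 2) ^ 2 ≤ ‖s - ye‖ ^ 2 := pow_le_pow_left₀ (by positivity) h1 2
  have hsq2 : ‖s - ye‖ ^ 2 ≤ (2 * ρ) ^ 2 := pow_le_pow_left₀ (norm_nonneg _) h2 2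
  have hα : 0 < a / ρ ^ 2 := by positivity
  refine ⟨?_, ?_, ?_⟩
  · have h3 : a / 4 ≤ a / ρ ^ 2 * ‖s - ye‖ ^ 2 := by
      calc a / 4 = a / ρ ^ 2 * (ρ / 2) ^ 2 := by field_simp; ring
        _ ≤ _ := mul_le_mul_of_nonneg_left hsq hα.le
    have h4 : Real.exp (-(a / ρ ^ 2 * ‖s - ye‖ ^ 2)) ≤ Real.exp (-(a / 4)) :=
      Real.exp_le_exp.mpr (by linarith)
    have h5 := mul_le_mul_of_nonneg_left h4 hMμ.le
    linarith
  · rw [lap_gauss]
    have h3 : a / ρ ^ 2 * ‖s - ye‖ ^ 2 ≤ 4 * a := by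
      calc a / ρ ^ 2 * ‖s - ye‖ ^ 2 ≤ a / ρ ^ 2 * (2 * ρ) ^ 2 := mul_le_mul_of_nonneg_left hsq2 hα.le
        _ = 4 * a := by field_simp; ring
    have h4 : Real.exp (-(4 * a)) ≤ Real.exp (-(a / ρ ^ 2 * ‖s - ye‖ ^ 2)) :=
      Real.exp_le_exp.mpr (by linarith)
    have h5 : a * 2 ≤ 4 * (a / ρ ^ 2) ^ 2 * ‖s - ye‖ ^ 2 - 2 * (d : ℝ) * (a / ρ ^ 2) := by
      have h6 : (a / ρ ^ 2) * a ≤ 4 * (a / ρ ^ 2) ^ 2 * ‖s - ye‖ ^ 2 := by
        calc (a / ρ ^ 2) * a = 4 * (a / ρ ^ 2) ^ 2 * (ρ / 2) ^ 2 := by field_simp; ring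
          _ ≤ _ := mul_le_mul_of_nonneg_left hsq (by positivity)
      have h7 : a ≤ a / ρ ^ 2 := by
        rw [le_div_iff₀ (by positivity)]
        have : ρ ^ 2 ≤ 1 := by nlinarith
        nlinarith
      have h8 : (a / ρ ^ 2) * a - 2 * (d : ℝ) * (a / ρ ^ 2) = (a / ρ ^ 2) * 2 := by
        have : a - 2 * (d : ℝ) = 2 := by rw [ha]; ring
        calc (a / ρ ^ 2) * a - 2 * (d : ℝ) * (a / ρ ^ 2) = (a / ρ ^ 2) * (a - 2 * d) := by ring
          _ = _ := by rw [this]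
      nlinarith
    have h9 : (a * 2) * Real.exp (-(4 * a)) ≤
        (4 * (a / ρ ^ 2) ^ 2 * ‖s - ye‖ ^ 2 - 2 * (d : ℝ) * (a / ρ ^ 2)) *
          Real.exp (-(a / ρ ^ 2 * ‖s - ye‖ ^ 2)) :=
      mul_le_mul h5 h4 (Real.exp_pos _).le (by linarith)
    have h10 := mul_le_mul_of_nonneg_left h9 hMμ.le
    have h11 : (L + 1) * μ ≤ M * μ * (a * 2 * Real.exp (-(4 * a))) := by
      have := mul_le_mul_of_nonneg_right hM2 hμ.le
      nlinarith
    nlinarith
  · intro h3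
    have h4 : a ≤ a / ρ ^ 2 * ‖s - ye‖ ^ 2 := by
      have h5 : ρ ^ 2 ≤ ‖s - ye‖ ^ 2 := pow_le_pow_left₀ hρ.le h3 2
      calc a = a / ρ ^ 2 * ρ ^ 2 := by field_simp
        _ ≤ _ := mul_le_mul_of_nonneg_left h5 hα.le
    have h5 : Real.exp (-(a / ρ ^ 2 * ‖s - ye‖ ^ 2)) ≤ Real.exp (-a) :=
      Real.exp_le_exp.mpr (by linarith)
    have h6 := mul_le_mul_of_nonneg_left h5 hMμ.le
    have h7 := mul_le_mul_of_nonneg_right hM1 hμ.le
    nlinarith

theorem step1' {d : ℕ} (L ρ a M μ : ℝ) (Ω : Set (E d)) (z : E d → ℝ) (q ye : E d)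
    (hL : 0 ≤ L) (hρ : 0 < ρ) (hρ1 : ρ ≤ 1) (ha : a = 2 * d + 2) (hM : 0 < M)
    (hM1 : 1 ≤ M * (Real.exp (-(a / 4)) - Real.exp (-a)))
    (hM2 : L + 1 ≤ M * (2 * a * Real.exp (-(4 * a)))) (hμ : 0 < μ)
    (hO : IsOpen Ω)
    (hzc : ContinuousOn z (closure Ω)) (hzb : ∀ s ∈ closure Ω, s ∉ Ω → 0 ≤ z s)
    (hzl : ∀ s ∈ Ω, ContDiffAt ℝ 2 z s ∧ lap z s ≤ L * |z s|)
    (hzμ : ∀ s ∈ Ω ∩ ball q (2 * ρ), -μ ≤ z s)
    (hqe : ‖q - ye‖ = ρ / 2) (hye : ∀ s ∈ closure Ω, ρ / 2 ≤ ‖s - ye‖) :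
    ∀ s ∈ closure Ω ∩ closedBall q (3 * ρ / 2),
      0 ≤ z s + (M * μ * Real.exp (-(a / 4)) +
        (-(M * μ)) * Real.exp (-(a / ρ ^ 2 * ‖s - ye‖ ^ 2))) := by
  have hub : ∀ s ∈ closedBall q (3 * ρ / 2), ‖s - ye‖ ≤ 2 * ρ := by
    intro s hs
    rw [mem_closedBall, dist_eq_norm] at hs
    calc ‖s - ye‖ = ‖(s - q) + (q - ye)‖ := by rw [sub_add_sub_cancel]
      _ ≤ ‖s - q‖ + ‖q - ye‖ := norm_add_le _ _
      _ ≤ 2 * ρ := by rw [hqe]; linarith
  apply comp_compact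
  · exact (isCompact_closedBall q (3 * ρ / 2)).inter_left isClosed_closure
  · apply ContinuousOn.add (hzc.mono inter_subset_left)
    exact (continuous_const.add (continuous_const.mul
      (contDiff_gauss' (a / ρ ^ 2) ye).continuous)).continuousOn
  · intro x hx hneg
    have hx1 := hye x hx.1
    have hx2 := hub x hx.2
    obtain ⟨hb0, hbl, hbμ⟩ := b2_facts' L ρ a M μ ye x hL hρ hρ1 ha hM hM1 hM2 hμ hx1 hx2
    have hxΩ : x ∈ Ω := by
      by_contra hcon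
      have := hzb x hx.1 hcon
      linarith
    have hxb : x ∈ ball q (2 * ρ) := by
      have h3 := hx.2
      rw [mem_closedBall] at h3
      rw [mem_ball]
      linarith
    have hzx := hzμ x ⟨hxΩ, hxb⟩
    have hlt : ‖x - q‖ < 3 * ρ / 2 := by
      have h3 := hx.2
      rw [mem_closedBall, dist_eq_norm] at h3
      rcases lt_or_eq_of_le h3 with h4 | h4
      · exact h4
      · exfalso
        have h5 : ρ ≤ ‖x - ye‖ := by
          have h6 : ‖x - q‖ ≤ ‖x - ye‖ + ‖q - ye‖ := by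
            calc ‖x - q‖ = ‖(x - ye) - (q - ye)‖ := by rw [sub_sub_sub_cancel_right]
              _ ≤ _ := norm_sub_le _ _
          rw [h4, hqe] at h6
          linarith
        have h6 := hbμ h5
        linarith
    refine ⟨?_, ?_, ?_⟩
    · rw [mem_interior]
      refine ⟨Ω ∩ ball q (3 * ρ / 2), ?_, hO.inter isOpen_ball, hxΩ, ?_⟩
      · exact inter_subset_inter subset_closure ball_subset_closedBall
      · rw [mem_ball, dist_eq_norm]; exact hlt
    · exact (lap_aff' z _ _ _ x (hzl x hxΩ).1 (contDiff_gauss' (a / ρ ^ 2) ye).contDiffAt).1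
    · rw [(lap_aff' z _ _ _ x (hzl x hxΩ).1 (contDiff_gauss' (a / ρ ^ 2) ye).contDiffAt).2]
      have h7 := (hzl x hxΩ).2
      have h8 : |z x| ≤ μ := abs_le.mpr ⟨hzx, by linarith⟩
      have h9 := mul_le_mul_of_nonneg_left h8 hL
      linarith

theorem step2' {d : ℕ} (L R a₁ μ g : ℝ) (z : E d → ℝ) (yi : E d) (hL : 0 ≤ L) (hR : 0 < R)
    (hR1 : R ≤ 1) (ha₁ : 0 < a₁) (hμ : 0 < μ)
    (hg : L * (μ + a₁) + 2 * d * a₁ < g)
    (hz : ∀ s ∈ closedBall yi R, ContDiffAt ℝ 2 z s ∧ lap z s ≤ L * |z s| - g ∧ -μ ≤ z s) :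
    ∀ s ∈ closedBall yi R, 0 ≤ z s + ((μ - a₁ * R ^ 2) + a₁ * ‖s - yi‖ ^ 2) := by
  have hn : ContDiff ℝ 2 (fun y : E d => ‖y - yi‖ ^ 2) :=
    (contDiff_id.sub contDiff_const).norm_sq ℝ
  apply comp_compact _ (isCompact_closedBall yi R)
  · apply ContinuousOn.add
    · intro s hs
      exact (hz s hs).1.continuousAt.continuousWithinAt
    · exact (continuous_const.add (continuous_const.mul hn.continuous)).continuousOn
  · intro x hx hneg
    obtain ⟨hz2, hzl, hzμ⟩ := hz x hx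
    have hx' := hx
    rw [mem_closedBall, dist_eq_norm] at hx'
    have hlt : ‖x - yi‖ < R := by
      rcases lt_or_eq_of_le hx' with h4 | h4
      · exact h4
      · exfalso
        rw [h4] at hneg
        linarith
    refine ⟨?_, ?_, ?_⟩
    · rw [mem_interior]
      refine ⟨ball yi R, ball_subset_closedBall, isOpen_ball, ?_⟩
      rw [mem_ball, dist_eq_norm]; exact hlt
    · exact (lap_aff' z _ _ _ x hz2 hn.contDiffAt).1
    · rw [(lap_aff' z _ _ _ x hz2 hn.contDiffAt).2, lap_normsq]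
      have h5 : |z x| ≤ μ + a₁ := by
        rw [abs_le]
        constructor
        · linarith
        · have h6 : 0 ≤ a₁ * ‖x - yi‖ ^ 2 := by positivity
          have h7 : a₁ * R ^ 2 ≤ a₁ := by
            have : R ^ 2 ≤ 1 := by nlinarith
            nlinarith
          linarith
      have h8 := mul_le_mul_of_nonneg_left h5 hL
      nlinarith

theorem b1_facts' {d : ℕ} (L σ a' m₁ : ℝ) (yi s : E d) (hL : 0 ≤ L) (hσ : 0 < σ) (hσ1 : σ ≤ 1)
    (ha : a' = 2 * d + L + 1) (hm : 0 < m₁) (h1 : σ / 2 ≤ ‖s - yi‖) :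
    (-m₁) * lap (fun y : E d => Real.exp (-(a' / σ ^ 2 * ‖y - yi‖ ^ 2))) s
      ≤ -(L * (m₁ * Real.exp (-(a' / σ ^ 2 * ‖s - yi‖ ^ 2)))) := by
  have hd : (0:ℝ) ≤ d := Nat.cast_nonneg d
  have ha0 : 1 ≤ a' := by rw [ha]; linarith
  have hsq : (σ / 2) ^ 2 ≤ ‖s - yi‖ ^ 2 := pow_le_pow_left₀ (by positivity) h1 2
  have hα : 0 < a' / σ ^ 2 := by positivity
  rw [lap_gauss]
  have h5 : L ≤ 4 * (a' / σ ^ 2) ^ 2 * ‖s - yi‖ ^ 2 - 2 * (d : ℝ) * (a' / σ ^ 2) := by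
    have h6 : (a' / σ ^ 2) * a' ≤ 4 * (a' / σ ^ 2) ^ 2 * ‖s - yi‖ ^ 2 := by
      calc (a' / σ ^ 2) * a' = 4 * (a' / σ ^ 2) ^ 2 * (σ / 2) ^ 2 := by field_simp; ring
        _ ≤ _ := mul_le_mul_of_nonneg_left hsq (by positivity)
    have h7 : 1 ≤ a' / σ ^ 2 := by
      rw [le_div_iff₀ (by positivity)]
      have : σ ^ 2 ≤ 1 := by nlinarith
      linarith
    have h8 : (a' / σ ^ 2) * a' - 2 * (d : ℝ) * (a' / σ ^ 2) = (a' / σ ^ 2) * (L + 1) := by
      have : a' - 2 * (d : ℝ) = L + 1 := by rw [ha]; ring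
      calc (a' / σ ^ 2) * a' - 2 * (d : ℝ) * (a' / σ ^ 2) = (a' / σ ^ 2) * (a' - 2 * d) := by ring
        _ = _ := by rw [this]
    nlinarith
  have h9 := mul_le_mul_of_nonneg_right h5 (Real.exp_pos (-(a' / σ ^ 2 * ‖s - yi‖ ^ 2))).le
  have h10 := mul_le_mul_of_nonneg_left h9 hm.le
  linarith

theorem step3' {d : ℕ} (L σ a' m₁ a M μ : ℝ) (z : E d → ℝ) (yi ye : E d)
    (hL : 0 ≤ L) (hσ : 0 < σ) (hσ1 : 2 * σ ≤ 1)
    (ha' : a' = 2 * d + L + 1) (hm : 0 < m₁)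
    (ha : a = 2 * d + 2) (hM : 0 < M)
    (hM1 : 1 ≤ M * (Real.exp (-(a / 4)) - Real.exp (-a)))
    (hM2 : L + 1 ≤ M * (2 * a * Real.exp (-(4 * a)))) (hμ : 0 < μ)
    (hzc : ContinuousOn z (closedBall yi σ))
    (hzl : ∀ s ∈ ball yi σ, ContDiffAt ℝ 2 z s ∧ lap z s ≤ L * |z s| ∧ -μ ≤ z s)
    (hze : ∀ s ∈ closedBall yi σ, σ ≤ ‖s - ye‖ ∧ ‖s - ye‖ ≤ 3 * σ)
    (h1 : ∀ s ∈ closedBall yi σ, 0 ≤ z s + (M * μ * Real.exp (-(a / 4)) +
        (-(M * μ)) * Real.exp (-(a / (2 * σ) ^ 2 * ‖s - ye‖ ^ 2))))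
    (h2 : ∀ s, ‖s - yi‖ = σ / 2 → m₁ ≤ z s) :
    ∀ s ∈ {s : E d | σ / 2 ≤ ‖s - yi‖} ∩ closedBall yi σ,
      0 ≤ (z s + (m₁ * Real.exp (-a') + (-m₁) * Real.exp (-(a' / σ ^ 2 * ‖s - yi‖ ^ 2)))) +
        (M * μ * Real.exp (-(a / 4)) +
        (-(M * μ)) * Real.exp (-(a / (2 * σ) ^ 2 * ‖s - ye‖ ^ 2))) := by
  have hd : (0:ℝ) ≤ d := Nat.cast_nonneg d
  have ha0 : 0 < a' := by rw [ha']; linarith
  have hcl : IsClosed {s : E d | σ / 2 ≤ ‖s - yi‖} :=
    isClosed_le continuous_const (continuous_id.sub continuous_const).norm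
  apply comp_compact _ ((isCompact_closedBall yi σ).inter_left hcl)
  · apply ContinuousOn.add
    · apply ContinuousOn.add (hzc.mono inter_subset_right)
      exact (continuous_const.add (continuous_const.mul
        (contDiff_gauss' (a' / σ ^ 2) yi).continuous)).continuousOn
    · exact (continuous_const.add (continuous_const.mul
        (contDiff_gauss' (a / (2 * σ) ^ 2) ye).continuous)).continuousOn
  · intro x hx hneg
    have hxa : σ / 2 ≤ ‖x - yi‖ := hx.1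
    have hxb := hx.2
    rw [mem_closedBall, dist_eq_norm] at hxb
    obtain ⟨he1, he2⟩ := hze x hx.2
    obtain ⟨hb0, hbl, hbμ⟩ := b2_facts' L (2 * σ) a M μ ye x hL (by linarith) hσ1 ha hM hM1 hM2 hμ
      (by linarith) (by linarith)
    have hlt1 : ‖x - yi‖ < σ := by
      rcases lt_or_eq_of_le hxb with h4 | h4
      · exact h4
      · exfalso
        have h5 := h1 x hx.2
        rw [h4] at hneg
        have h6 : a' / σ ^ 2 * σ ^ 2 = a' := by field_simp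
        rw [h6] at hneg
        linarith
    have hlt2 : σ / 2 < ‖x - yi‖ := by
      rcases lt_or_eq_of_le hxa with h4 | h4
      · exact h4
      · exfalso
        have h5 := h2 x h4.symm
        have h6 : Real.exp (-(a' / σ ^ 2 * ‖x - yi‖ ^ 2)) ≤ 1 := by
          rw [Real.exp_le_one_iff]
          have : 0 ≤ a' / σ ^ 2 * ‖x - yi‖ ^ 2 := by positivity
          linarith
        have h7 := mul_le_mul_of_nonneg_left h6 hm.le
        have h8 : 0 < m₁ * Real.exp (-a') := mul_pos hm (Real.exp_pos _)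
        linarith
    have hxball : x ∈ ball yi σ := by rw [mem_ball, dist_eq_norm]; exact hlt1
    obtain ⟨hz2, hzl2, hzμ⟩ := hzl x hxball
    have e1 := lap_aff' z _ (m₁ * Real.exp (-a')) (-m₁) x hz2
      (contDiff_gauss' (a' / σ ^ 2) yi).contDiffAt
    have e2 := lap_aff' _ _ (M * μ * Real.exp (-(a / 4))) (-(M * μ)) x e1.1
      (contDiff_gauss' (a / (2 * σ) ^ 2) ye).contDiffAt
    refine ⟨?_, e2.1, ?_⟩
    · rw [mem_interior]
      refine ⟨{s : E d | σ / 2 < ‖s - yi‖} ∩ ball yi σ, ?_, ?_, hlt2, hxball⟩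
      · intro y hy
        have h3 : σ / 2 < ‖y - yi‖ := hy.1
        have h4 : σ / 2 ≤ ‖y - yi‖ := h3.le
        exact ⟨h4, ball_subset_closedBall hy.2⟩
      · exact (isOpen_lt continuous_const (continuous_id.sub continuous_const).norm).inter
          isOpen_ball
    · rw [e2.2, e1.2]
      have hb1 := b1_facts' L σ a' m₁ yi x hL hσ (by linarith) ha' hm hxa
      have h8 : 0 < m₁ * Real.exp (-a') := mul_pos hm (Real.exp_pos _)
      have h9 : 0 < m₁ * Real.exp (-(a' / σ ^ 2 * ‖x - yi‖ ^ 2)) := mul_pos hm (Real.exp_pos _)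
      have h5 : |z x| ≤ μ + m₁ * Real.exp (-(a' / σ ^ 2 * ‖x - yi‖ ^ 2)) := by
        rw [abs_le]
        constructor
        · linarith
        · linarith
      have h10 := mul_le_mul_of_nonneg_left h5 hL
      linarith

theorem loc_bdry (d : ℕ) (L ρ : ℝ) (hL : 0 ≤ L) (hρ : 0 < ρ) (hρ1 : ρ ≤ 1) : ∃ c₃ : ℝ, 0 < c₃ ∧
    ∀ (f : ℝ → ℝ) (c ε c₁ : ℝ) (Ω : Set (E d)) (u v : E d → ℝ) (k : ℝ) (q ν : E d) (h μ g : ℝ),
      RC f L c ε c₁ → IsOpen Ω → Star0 Ω → Sol f Ω u → Sol f Ω v → 1 ≤ k → TB Ω ρ q ν →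
      0 < h → h ≤ ρ / 4 → 0 ≤ μ → (∀ s ∈ Ω ∩ ball q (2 * ρ), -μ ≤ v (k • s) - u s) →
      (∀ s ∈ ball (q + (ρ / 2) • ν) (3 * ρ / 8), g ≤ (k ^ 2 - 1) * f (v (k • s))) →
      μ ≤ c₃ * g → u (q + h • ν) ≤ v (k • (q + h • ν)) := by
  have hd : (0:ℝ) ≤ d := Nat.cast_nonneg d
  obtain ⟨σ, rfl⟩ : ∃ σ, ρ = 2 * σ := ⟨ρ / 2, by ring⟩
  have hσ0 : 0 < σ := by linarith
  obtain ⟨a, ha⟩ : ∃ a : ℝ, a = 2 * d + 2 := ⟨_, rfl⟩
  have ha0 : 0 < a := by rw [ha]; positivity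
  obtain ⟨a', ha'⟩ : ∃ a' : ℝ, a' = 2 * d + L + 1 := ⟨_, rfl⟩
  have ha'0 : 0 < a' := by rw [ha']; positivity
  have hE : 0 < Real.exp (-(a / 4)) - Real.exp (-a) := by
    have : Real.exp (-a) < Real.exp (-(a / 4)) := Real.exp_lt_exp.mpr (by linarith)
    linarith
  obtain ⟨M, hM⟩ : ∃ M : ℝ, M = 1 / (Real.exp (-(a / 4)) - Real.exp (-a)) +
    (L + 1) / (2 * a * Real.exp (-(4 * a))) := ⟨_, rfl⟩
  have hMa : 0 < 1 / (Real.exp (-(a / 4)) - Real.exp (-a)) := by positivity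
  have hMb : 0 < (L + 1) / (2 * a * Real.exp (-(4 * a))) := by positivity
  have hM0 : 0 < M := by rw [hM]; linarith
  have hM1 : 1 ≤ M * (Real.exp (-(a / 4)) - Real.exp (-a)) := by
    have h1 : 1 / (Real.exp (-(a / 4)) - Real.exp (-a)) *
        (Real.exp (-(a / 4)) - Real.exp (-a)) = 1 := by field_simp
    have h2 := mul_pos hMb hE
    rw [hM, add_mul, h1]
    linarith
  have hM2 : L + 1 ≤ M * (2 * a * Real.exp (-(4 * a))) := by
    have h1 : (L + 1) / (2 * a * Real.exp (-(4 * a))) * (2 * a * Real.exp (-(4 * a))) = L + 1 := by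
      field_simp
    have h2 : 0 < 1 / (Real.exp (-(a / 4)) - Real.exp (-a)) * (2 * a * Real.exp (-(4 * a))) := by
      positivity
    rw [hM, add_mul, h1]
    linarith
  obtain ⟨K, hK⟩ : ∃ K : ℝ, K = L + 2 * d + 1 := ⟨_, rfl⟩
  have hK0 : 0 < K := by rw [hK]; positivity
  obtain ⟨c₃, hc₃⟩ : ∃ c₃ : ℝ, c₃ = min (1 / (4 * (L + 1))) (min (σ ^ 2 / (256 * K))
    (σ ^ 2 * Real.exp (-a') * a' / (32 * K * M * a))) := ⟨_, rfl⟩
  have hc₃0 : 0 < c₃ := by rw [hc₃]; positivity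
  have hc1' : c₃ ≤ 1 / (4 * (L + 1)) := by rw [hc₃]; exact min_le_left _ _
  have hc2' : c₃ ≤ σ ^ 2 / (256 * K) := by
    rw [hc₃]; exact (min_le_right _ _).trans (min_le_left _ _)
  have hc3' : c₃ ≤ σ ^ 2 * Real.exp (-a') * a' / (32 * K * M * a) := by
    rw [hc₃]; exact (min_le_right _ _).trans (min_le_right _ _)
  refine ⟨c₃, hc₃0, ?_⟩
  intro f c ε c₁ Ω u v k q ν h μ g hRC hO hs hu hv hk hTB hh0 hh1 hμ0 hzμ hg hμg
  have hTB' := TB_mono Ω (2 * σ) σ hσ0 (by linarith) q ν hTB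
  obtain ⟨hqf, hν, hbi, hbe⟩ := hTB'
  have hs0Ω : q + h • ν ∈ Ω := by
    apply hbi
    rw [mem_ball, dist_eq_norm]
    have h1 : q + h • ν - (q + σ • ν) = (h - σ) • ν := by rw [sub_smul]; abel
    rw [h1, norm_smul, hν, mul_one, Real.norm_eq_abs, abs_sub_comm, abs_of_pos (by linarith)]
    linarith
  obtain ⟨hzc, hzb, hzl⟩ := z_facts' f L c ε c₁ Ω u v k hRC hO hs hu hv hk
  rcases hμ0.eq_or_lt with hμ | hμ
  · have hmem : q + h • ν ∈ ball q (2 * (2 * σ)) := by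
      rw [mem_ball, dist_eq_norm, add_sub_cancel_left, norm_smul, hν, mul_one, Real.norm_eq_abs,
        abs_of_pos hh0]
      linarith
    have := hzμ (q + h • ν) ⟨hs0Ω, hmem⟩
    linarith
  · have hgpos : 0 < g := by
      by_contra hcon
      push Not at hcon
      have := mul_nonpos_of_nonneg_of_nonpos hc₃0.le hcon
      linarith
    have h2σ : 2 * σ / 2 = σ := by ring
    rw [h2σ] at hg
    obtain ⟨z, hz⟩ : ∃ z : E d → ℝ, z = fun s => v (k • s) - u s := ⟨_, rfl⟩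
    have hzs : ∀ s, v (k • s) - u s = z s := fun s => by rw [hz]
    rw [← hz] at hzc
    simp only [hzs] at hzb hzl hzμ
    have hzeta : (fun s => z s) = z := rfl
    obtain ⟨yi, hyi⟩ : ∃ yi : E d, yi = q + σ • ν := ⟨_, rfl⟩
    obtain ⟨ye, hye⟩ : ∃ ye : E d, ye = q - σ • ν := ⟨_, rfl⟩
    rw [← hyi] at hbi hg
    rw [← hye] at hbe
    have hqi : ‖yi - q‖ = σ := by
      rw [hyi, add_sub_cancel_left, norm_smul, hν, mul_one, Real.norm_eq_abs, abs_of_pos hσ0]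
    have hqe : ‖q - ye‖ = σ := by
      rw [hye, sub_sub_cancel, norm_smul, hν, mul_one, Real.norm_eq_abs, abs_of_pos hσ0]
    have hcli : closedBall yi σ ⊆ closure Ω := by
      rw [← closure_ball yi hσ0.ne']
      exact closure_mono hbi
    have hext : ∀ s ∈ closure Ω, σ ≤ ‖s - ye‖ := by
      intro s hs1
      by_contra hcon
      push Not at hcon
      have hsm : s ∈ ball ye σ := by rw [mem_ball, dist_eq_norm]; exact hcon
      obtain ⟨y, hy1, hy2⟩ := mem_closure_iff.mp hs1 (ball ye σ) isOpen_ball hsm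
      exact hbe hy1 hy2
    have hballq : ∀ s ∈ closedBall yi σ, ‖s - q‖ ≤ 2 * σ := by
      intro s hs1
      rw [mem_closedBall, dist_eq_norm] at hs1
      calc ‖s - q‖ = ‖(s - yi) + (yi - q)‖ := by rw [sub_add_sub_cancel]
        _ ≤ ‖s - yi‖ + ‖yi - q‖ := norm_add_le _ _
        _ ≤ 2 * σ := by rw [hqi]; linarith
    have hzl1 : ∀ s ∈ Ω, ContDiffAt ℝ 2 z s ∧ lap z s ≤ L * |z s| := by
      intro s hs1
      obtain ⟨e1, e2, e3⟩ := hzl s hs1
      exact ⟨e1, by linarith⟩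
    have S1 := step1' L (2 * σ) a M μ Ω z q ye hL hρ hρ1 ha hM0 hM1 hM2 hμ hO hzc hzb hzl1 hzμ
      (by rw [hqe]; ring) (fun s hs1 => by rw [h2σ]; exact hext s hs1)
    obtain ⟨a₁, ha₁⟩ : ∃ a₁ : ℝ, a₁ = g / (4 * K) := ⟨_, rfl⟩
    have ha₁0 : 0 < a₁ := by rw [ha₁]; positivity
    have hKa : K * a₁ = g / 4 := by rw [ha₁]; field_simp
    have hLμ : L * μ ≤ g / 4 := by
      have h1 : L * μ ≤ (L + 1) * (c₃ * g) :=
        mul_le_mul (by linarith) hμg hμ0 (by linarith)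
      have h2 : c₃ * g ≤ 1 / (4 * (L + 1)) * g := mul_le_mul_of_nonneg_right hc1' hgpos.le
      have h3 : (L + 1) * (1 / (4 * (L + 1)) * g) = g / 4 := by
        have : L + 1 ≠ 0 := by positivity
        field_simp
      calc L * μ ≤ (L + 1) * (c₃ * g) := h1
        _ ≤ (L + 1) * (1 / (4 * (L + 1)) * g) := mul_le_mul_of_nonneg_left h2 (by linarith)
        _ = g / 4 := h3
    have S2 := step2' L (11 * σ / 16) a₁ μ g z yi hL (by linarith) (by linarith) ha₁0 hμ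
      (by
        have : (L + 2 * d) * a₁ ≤ g / 4 := by
          calc (L + 2 * d) * a₁ ≤ K * a₁ := by
                apply mul_le_mul_of_nonneg_right _ ha₁0.le
                rw [hK]; linarith
            _ = g / 4 := hKa
        nlinarith)
      (by
        intro s hs1
        have hs2 : s ∈ ball yi σ := by
          rw [mem_closedBall] at hs1
          rw [mem_ball]
          linarith
        obtain ⟨e1, e2, e3⟩ := hzl s (hbi hs2)
        have e4 : g ≤ (k ^ 2 - 1) * f (v (k • s)) := by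
          apply hg
          rw [mem_closedBall] at hs1
          rw [mem_ball]
          linarith
        refine ⟨e1, by linarith, ?_⟩
        apply hzμ
        refine ⟨hbi hs2, ?_⟩
        rw [mem_ball, dist_eq_norm]
        have := hballq s (ball_subset_closedBall hs2)
        linarith)
    obtain ⟨m₁, hm₁⟩ : ∃ m₁ : ℝ, m₁ = a₁ * σ ^ 2 / 8 := ⟨_, rfl⟩
    have hm₁0 : 0 < m₁ := by rw [hm₁]; positivity
    have hμ2 : μ ≤ a₁ * σ ^ 2 / 64 := by
      calc μ ≤ c₃ * g := hμg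
        _ ≤ σ ^ 2 / (256 * K) * g := mul_le_mul_of_nonneg_right hc2' hgpos.le
        _ = a₁ * σ ^ 2 / 64 := by rw [ha₁]; field_simp; ring
    have S3 := step3' L σ a' m₁ a M μ z yi ye hL hσ0 hρ1 ha' hm₁0 ha hM0 hM1 hM2 hμ
      (hzc.mono hcli)
      (by
        intro s hs1
        refine ⟨(hzl1 s (hbi hs1)).1, (hzl1 s (hbi hs1)).2, ?_⟩
        apply hzμ
        refine ⟨hbi hs1, ?_⟩
        rw [mem_ball, dist_eq_norm]
        have := hballq s (ball_subset_closedBall hs1)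
        linarith)
      (by
        intro s hs1
        refine ⟨hext s (hcli hs1), ?_⟩
        calc ‖s - ye‖ = ‖(s - q) + (q - ye)‖ := by rw [sub_add_sub_cancel]
          _ ≤ ‖s - q‖ + ‖q - ye‖ := norm_add_le _ _
          _ ≤ 3 * σ := by rw [hqe]; have := hballq s hs1; linarith)
      (by
        intro s hs1
        apply S1
        refine ⟨hcli hs1, ?_⟩
        rw [mem_closedBall, dist_eq_norm]
        have := hballq s hs1
        linarith)
      (by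
        intro s hs1
        have hs2 : s ∈ closedBall yi (11 * σ / 16) := by
          rw [mem_closedBall, dist_eq_norm, hs1]
          linarith
        have e1 := S2 s hs2
        rw [hs1] at e1
        rw [hm₁]
        have e2 : 0 < a₁ * σ ^ 2 := by positivity
        nlinarith)
    have hn1 : ‖q + h • ν - yi‖ = σ - h := by
      have h1 : q + h • ν - yi = (h - σ) • ν := by rw [hyi, sub_smul]; abel
      rw [h1, norm_smul, hν, mul_one, Real.norm_eq_abs, abs_sub_comm, abs_of_pos (by linarith)]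
    have hn2 : ‖q + h • ν - ye‖ = σ + h := by
      have h1 : q + h • ν - ye = (σ + h) • ν := by rw [hye, add_smul]; abel
      rw [h1, norm_smul, hν, mul_one, Real.norm_eq_abs, abs_of_pos (by linarith)]
    have hmem0 : q + h • ν ∈ {s : E d | σ / 2 ≤ ‖s - yi‖} ∩ closedBall yi σ := by
      constructor
      · change σ / 2 ≤ ‖q + h • ν - yi‖
        rw [hn1]
        linarith
      · rw [mem_closedBall, dist_eq_norm, hn1]
        linarith
    have F := S3 _ hmem0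
    rw [hn1, hn2] at F
    obtain ⟨t, ht⟩ : ∃ t : ℝ, t = h / σ := ⟨_, rfl⟩
    have hht : h = t * σ := by rw [ht]; field_simp
    have ht0 : 0 < t := by rw [ht]; positivity
    have ht1 : t ≤ 1 := by
      rw [ht, div_le_one hσ0]
      linarith
    have f1 : a' / σ ^ 2 * (σ - h) ^ 2 = a' * (1 - t) ^ 2 := by
      rw [hht]; field_simp
    have f2 : a / (2 * σ) ^ 2 * (σ + h) ^ 2 = a / 4 * (1 + t) ^ 2 := by
      rw [hht]; field_simp; ring
    rw [f1, f2] at F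
    have g1 : Real.exp (-a') * (1 + a' * t) ≤ Real.exp (-(a' * (1 - t) ^ 2)) := by
      calc Real.exp (-a') * (1 + a' * t) ≤ Real.exp (-a') * Real.exp (a' * t) := by
            apply mul_le_mul_of_nonneg_left _ (Real.exp_pos _).le
            have := Real.add_one_le_exp (a' * t)
            linarith
        _ = Real.exp (-a' + a' * t) := by rw [Real.exp_add]
        _ ≤ Real.exp (-(a' * (1 - t) ^ 2)) := by
            apply Real.exp_le_exp.mpr
            have : (1 - t) ^ 2 ≤ 1 - t := by nlinarith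
            nlinarith
    have g2 : Real.exp (-(a / 4)) - Real.exp (-(a / 4 * (1 + t) ^ 2)) ≤ a * t := by
      have e1 : Real.exp (-(a / 4 * (1 + t) ^ 2)) =
          Real.exp (-(a / 4)) * Real.exp (-(a / 4 * (2 * t + t ^ 2))) := by
        rw [← Real.exp_add]; congr 1; ring
      have e2 := Real.add_one_le_exp (-(a / 4 * (2 * t + t ^ 2)))
      have e3 : Real.exp (-(a / 4)) ≤ 1 := by
        rw [Real.exp_le_one_iff]; linarith
      have e4 : 1 - Real.exp (-(a / 4 * (2 * t + t ^ 2))) ≤ a * t := by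
        have : t ^ 2 ≤ t := by nlinarith
        nlinarith
      have e5 : 0 ≤ a * t := by positivity
      rw [e1]
      calc Real.exp (-(a / 4)) - Real.exp (-(a / 4)) * Real.exp (-(a / 4 * (2 * t + t ^ 2)))
          = Real.exp (-(a / 4)) * (1 - Real.exp (-(a / 4 * (2 * t + t ^ 2)))) := by ring
        _ ≤ Real.exp (-(a / 4)) * (a * t) :=
            mul_le_mul_of_nonneg_left e4 (Real.exp_pos _).le
        _ ≤ 1 * (a * t) := mul_le_mul_of_nonneg_right e3 e5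
        _ = a * t := one_mul _
    have g3 : M * μ * a ≤ m₁ * Real.exp (-a') * a' := by
      have e1 : μ ≤ σ ^ 2 * Real.exp (-a') * a' / (32 * K * M * a) * g :=
        hμg.trans (mul_le_mul_of_nonneg_right hc3' hgpos.le)
      calc M * μ * a = (M * a) * μ := by ring
        _ ≤ (M * a) * (σ ^ 2 * Real.exp (-a') * a' / (32 * K * M * a) * g) :=
            mul_le_mul_of_nonneg_left e1 (by positivity)
        _ = m₁ * Real.exp (-a') * a' := by rw [hm₁, ha₁]; field_simp; ring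
    have g4 := mul_le_mul_of_nonneg_left g1 hm₁0.le
    have g5 := mul_le_mul_of_nonneg_left g2 (mul_pos hM0 hμ).le
    have g6 := mul_le_mul_of_nonneg_right g3 ht0.le
    have g7 : 0 ≤ z (q + h • ν) := by nlinarith
    have g8 := hzs (q + h • ν)
    linarith

end

end ExtStar
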