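import Pool.Agent.H631.ES.Defs
import Pool.Agent.H631.ES.X16
import Pool.Agent.H631.ES.X18
import Pool.Agent.H631.ES.X19
import Pool.Agent.H631.ES.X20
import Pool.Agent.H631.ES.X37
import Pool.Agent.H631.ES.X38
import Pool.Agent.H631.ES.X39
import Pool.Agent.H631.ES.X40

open Set Metric Filter Topology MeasureTheory

namespace ExtStar

noncomputable section

/-! TARGET: prove the following -/

theorem loc {d : ℕ} (f : ℝ → ℝ) (L c ε c₁ : ℝ) (Ω : Set (E d)) (r : ℝ) (h : Ctx f L c ε c₁ Ω r)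
    (k₁ Km : ℝ) (hk₁ : 1 < k₁) (hKm : k₁ ≤ Km) : ∃ ρ₀ r₃ C c₄ : ℝ, 0 < ρ₀ ∧ 0 < r₃ ∧ 0 < C ∧ 0 < c₄ ∧
      Km * ρ₀ < r₃ / 2 ∧ ∀ u v : E d → ℝ, Sol f Ω u → Sol f Ω v → ∀ k : ℝ, k₁ ≤ k → k ≤ Km →
      ∀ s₀ ∈ Ω, ∃ m : ℝ, 0 ≤ m ∧ (∀ y ∈ Ω ∩ ball (k • s₀) r₃, ‖fderiv ℝ v y‖ ≤ C * m) ∧
        ∀ μ : ℝ, 0 ≤ μ → μ ≤ c₄ * m → (∀ s ∈ Ω ∩ ball s₀ ρ₀, -μ ≤ v (k • s) - u s) →
          u s₀ ≤ v (k • s₀) := by
  obtain ⟨hRe, hRC, hΩ, hS, hB, hr0, hr1⟩ := h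
  have hCtx : Ctx f L c ε c₁ Ω r := ⟨hRe, hRC, hΩ, hS, hB, hr0, hr1⟩
  have hL : 0 < L := hRC.1
  have hc : 0 < c := hRC.2.1
  have hfmin := hRC.2.2.2.2.2.2.2.2.1
  have hne : (Ωᶜ).Nonempty := ⟨0, hS.1⟩
  have hKm1 : 1 < Km := lt_of_lt_of_le hk₁ hKm
  have hKm0 : 0 < Km := by linarith
  obtain ⟨r₂, hr₂, hr₂1, hgrad⟩ := loc_grad f L c ε c₁ Ω r hCtx
  obtain ⟨c₅, hc₅, hharn⟩ := ball_harnack d L hL.le
  obtain ⟨ρ, hρdef⟩ : ∃ ρ, ρ = min r (r₂ / (16 * Km)) / 2 := ⟨_, rfl⟩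
  have hρ0 : 0 < ρ := by rw [hρdef]; positivity
  have hρr : ρ ≤ r := by
    have : min r (r₂ / (16 * Km)) ≤ r := min_le_left _ _
    rw [hρdef]; linarith
  have hρ1 : ρ ≤ 1 := hρr.trans hr1
  have hρK : ρ * Km ≤ r₂ / 32 := by
    have h1 : min r (r₂ / (16 * Km)) ≤ r₂ / (16 * Km) := min_le_right _ _
    have h2 : ρ ≤ r₂ / (16 * Km) / 2 := by rw [hρdef]; linarith
    calc ρ * Km ≤ (r₂ / (16 * Km) / 2) * Km := mul_le_mul_of_nonneg_right h2 hKm0.le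
      _ = r₂ / 32 := by field_simp; norm_num
  obtain ⟨C, hC, hCg⟩ := hgrad (ρ / 8) (by positivity)
  obtain ⟨c₃, hc₃, hbd⟩ := loc_bdry d L ρ hL.le hρ0 hρ1
  have hk1sq : 0 < k₁ ^ 2 - 1 := by nlinarith
  obtain ⟨G₀, hG₀def⟩ : ∃ G, G = (k₁ ^ 2 - 1) * c * c₅ := ⟨_, rfl⟩
  have hG₀ : 0 < G₀ := by rw [hG₀def]; positivity
  obtain ⟨W, hWdef⟩ : ∃ W, W = 8 * (d : ℝ) / (3 * ρ / 16) ^ 2 + L + 1 := ⟨_, rfl⟩
  have hW : 0 < W := by rw [hWdef]; positivity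
  refine ⟨3 * ρ, r₂ / 2, C, min (G₀ / W) (c₃ * G₀), by positivity, by positivity, hC, by positivity, ?_, ?_⟩
  · nlinarith
  intro u v hu hv k hkl hku s₀ hs₀
  have hk1 : 1 ≤ k := by linarith
  have hk0 : 0 < k := by linarith
  obtain ⟨hQ1, hQ2⟩ := sol_quasi f L c ε c₁ hRC Ω hΩ v hv
  have hkρ : k * ρ ≤ r₂ / 32 := by nlinarith
  -- the gain
  have gain : ∀ P : E d, ∀ R : ℝ, 0 < R → R ≤ 1 → ball P R ⊆ Ω → ∀ y ∈ ball P (3 * R / 4),
      G₀ * min (v P) (1 - v P) ≤ (k ^ 2 - 1) * f (v y) := by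
    intro P R hR hR1 hsub y hy
    have hP : P ∈ Ω := hsub (mem_ball_self hR)
    have hyΩ : y ∈ Ω := hsub (ball_subset_ball (by linarith) hy)
    have e1 := hharn Ω v P y R hΩ hQ1 hR hR1 hsub hy
    have e2 := hharn Ω (fun x => 1 - v x) P y R hΩ hQ2 hR hR1 hsub hy
    have hvP := hv.2.2.2.1 P hP
    have hvy := hv.2.2.2.1 y hyΩ
    have hm0 : 0 ≤ min (v P) (1 - v P) := le_min hvP.1.le (by linarith [hvP.2])
    have e3 : c₅ * min (v P) (1 - v P) ≤ min (v y) (1 - v y) := by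
      refine le_min ?_ ?_
      · exact (mul_le_mul_of_nonneg_left (min_le_left _ _) hc₅.le).trans e1
      · exact (mul_le_mul_of_nonneg_left (min_le_right _ _) hc₅.le).trans e2
    have e4 := hfmin (v y) ⟨hvy.1.le, hvy.2⟩
    have e5 : c * (c₅ * min (v P) (1 - v P)) ≤ f (v y) :=
      (mul_le_mul_of_nonneg_left e3 hc.le).trans e4
    have e6 : k₁ ^ 2 - 1 ≤ k ^ 2 - 1 := by nlinarith
    have e7 : 0 ≤ c * (c₅ * min (v P) (1 - v P)) := by positivity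
    calc G₀ * min (v P) (1 - v P) = (k₁ ^ 2 - 1) * (c * (c₅ * min (v P) (1 - v P))) := by
          rw [hG₀def]; ring
      _ ≤ (k ^ 2 - 1) * (c * (c₅ * min (v P) (1 - v P))) := mul_le_mul_of_nonneg_right e6 e7
      _ ≤ (k ^ 2 - 1) * f (v y) := mul_le_mul_of_nonneg_left e5 (by linarith)
  rcases le_or_gt (ρ / 4) (infDist s₀ Ωᶜ) with hA | hBc
  · -- interior
    obtain ⟨hd0, hdb⟩ := infDist_ball Ω hΩ hne s₀ hs₀
    have hb4 : ball s₀ (ρ / 4) ⊆ Ω := (ball_subset_ball hA).trans hdb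
    have hPb : ball (k • s₀) (k * (ρ / 4)) ⊆ Ω := star_ball Ω hS s₀ (ρ / 4) k hk1 hb4
    have hRpos : 0 < k * (ρ / 4) := by positivity
    have hR1 : k * (ρ / 4) ≤ 1 := by nlinarith
    have hP : k • s₀ ∈ Ω := hPb (mem_ball_self hRpos)
    have hvP := hv.2.2.2.1 _ hP
    refine ⟨min (v (k • s₀)) (1 - v (k • s₀)), le_min hvP.1.le (by linarith [hvP.2]), ?_, ?_⟩
    · rintro y ⟨hy1, hy2⟩
      refine hCg v hv (k • s₀) ((ball_subset_ball (by nlinarith)).trans hPb) y ⟨hy1, ?_⟩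
      exact ball_subset_ball (by linarith) hy2
    · intro μ hμ0 hμ hz
      refine loc_int f L c ε c₁ hRC Ω hΩ hS u v hu hv k hk1 s₀ (3 * ρ / 16) μ
        (G₀ * min (v (k • s₀)) (1 - v (k • s₀))) (by positivity)
        ((ball_subset_ball (by linarith)).trans hb4) hμ0 ?_ ?_ ?_
      · intro s hs
        refine hz s ⟨hb4 (ball_subset_ball (by linarith) hs), ball_subset_ball (by linarith) hs⟩
      · intro s hs
        refine gain (k • s₀) (k * (ρ / 4)) hRpos hR1 hPb (k • s) ?_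
        rw [mem_ball, dist_eq_norm] at hs ⊢
        rw [← smul_sub, norm_smul, Real.norm_of_nonneg hk0.le]
        nlinarith
      · rw [← hWdef]
        have hm0 : 0 ≤ min (v (k • s₀)) (1 - v (k • s₀)) := le_min hvP.1.le (by linarith [hvP.2])
        calc μ * W ≤ (min (G₀ / W) (c₃ * G₀) * min (v (k • s₀)) (1 - v (k • s₀))) * W :=
              mul_le_mul_of_nonneg_right hμ hW.le
          _ ≤ (G₀ / W * min (v (k • s₀)) (1 - v (k • s₀))) * W := by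
              refine mul_le_mul_of_nonneg_right (mul_le_mul_of_nonneg_right (min_le_left _ _) hm0) hW.le
          _ = G₀ * min (v (k • s₀)) (1 - v (k • s₀)) := by field_simp
  · -- boundary
    obtain ⟨hd0, hdb⟩ := infDist_ball Ω hΩ hne s₀ hs₀
    have hBρ : BC Ω ρ := by
      intro q hq
      obtain ⟨ν, hν⟩ := hB q hq
      exact ⟨ν, TB_mono Ω r ρ hρ0 hρr q ν hν⟩
    obtain ⟨q, ν, hTB, hsq⟩ := near_point Ω hΩ hne ρ hρ0 hBρ s₀ hs₀ (by linarith)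
    obtain ⟨η, hη⟩ : ∃ η, η = infDist s₀ Ωᶜ := ⟨_, rfl⟩
    rw [← hη] at hsq hBc hd0
    have hν1 : ‖ν‖ = 1 := hTB.2.1
    have hb2 : ball (q + (ρ / 2) • ν) (ρ / 2) ⊆ Ω := TB_ball Ω ρ (ρ / 2) (by positivity) (by linarith) q ν hTB
    have hPb : ball (k • (q + (ρ / 2) • ν)) (k * (ρ / 2)) ⊆ Ω :=
      star_ball Ω hS _ (ρ / 2) k hk1 hb2
    have hRpos : 0 < k * (ρ / 2) := by positivity
    have hR1 : k * (ρ / 2) ≤ 1 := by nlinarith
    have hP : k • (q + (ρ / 2) • ν) ∈ Ω := hPb (mem_ball_self hRpos)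
    have hvP := hv.2.2.2.1 _ hP
    have hm0 : 0 ≤ min (v (k • (q + (ρ / 2) • ν))) (1 - v (k • (q + (ρ / 2) • ν))) :=
      le_min hvP.1.le (by linarith [hvP.2])
    refine ⟨min (v (k • (q + (ρ / 2) • ν))) (1 - v (k • (q + (ρ / 2) • ν))), hm0, ?_, ?_⟩
    · rintro y ⟨hy1, hy2⟩
      refine hCg v hv (k • (q + (ρ / 2) • ν)) ((ball_subset_ball (by nlinarith)).trans hPb) y ⟨hy1, ?_⟩
      rw [mem_ball] at hy2 ⊢
      have e1 : dist (k • s₀) (k • (q + (ρ / 2) • ν)) ≤ k * ρ := by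
        rw [dist_eq_norm, ← smul_sub, norm_smul, Real.norm_of_nonneg hk0.le]
        refine mul_le_mul_of_nonneg_left ?_ hk0.le
        rw [hsq]
        have : q + η • ν - (q + (ρ / 2) • ν) = (η - ρ / 2) • ν := by rw [sub_smul]; abel
        rw [this, norm_smul, hν1, mul_one, Real.norm_eq_abs, abs_le]
        constructor <;> linarith
      have e2 := dist_triangle y (k • s₀) (k • (q + (ρ / 2) • ν))
      linarith
    · intro μ hμ0 hμ hz
      have key := hbd f c ε c₁ Ω u v k q ν η μ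
        (G₀ * min (v (k • (q + (ρ / 2) • ν))) (1 - v (k • (q + (ρ / 2) • ν))))
        hRC hΩ hS hu hv hk1 hTB hd0 hBc.le hμ0 ?_ ?_ ?_
      · rw [hsq]; exact key
      · rintro s ⟨hs1, hs2⟩
        refine hz s ⟨hs1, ?_⟩
        rw [mem_ball] at hs2 ⊢
        have e1 : dist q s₀ ≤ ρ / 4 := by
          rw [hsq, dist_eq_norm]
          have : q - (q + η • ν) = -(η • ν) := by abel
          rw [this, norm_neg, norm_smul, hν1, mul_one, Real.norm_of_nonneg hd0.le]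
          exact hBc.le
        have e2 := dist_triangle s q s₀
        linarith
      · intro s hs
        refine gain (k • (q + (ρ / 2) • ν)) (k * (ρ / 2)) hRpos hR1 hPb (k • s) ?_
        rw [mem_ball, dist_eq_norm] at hs ⊢
        rw [← smul_sub, norm_smul, Real.norm_of_nonneg hk0.le]
        nlinarith
      · calc μ ≤ min (G₀ / W) (c₃ * G₀) * min (v (k • (q + (ρ / 2) • ν))) (1 - v (k • (q + (ρ / 2) • ν))) := hμ
          _ ≤ (c₃ * G₀) * min (v (k • (q + (ρ / 2) • ν))) (1 - v (k • (q + (ρ / 2) • ν))) :=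
              mul_le_mul_of_nonneg_right (min_le_right _ _) hm0
          _ = c₃ * (G₀ * min (v (k • (q + (ρ / 2) • ν))) (1 - v (k • (q + (ρ / 2) • ν)))) := by ring

end

end ExtStar
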