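import Pool.Agent.H631.ES.Defs
import Pool.Agent.H631.ES.X18

open Set Metric Filter Topology MeasureTheory

namespace ExtStar

noncomputable section

/-! TARGET: prove the following -/

theorem ray_lip {d : ℕ} (Ω : Set (E d)) (hΩ : IsOpen Ω) (hs : Star0 Ω) (v : E d → ℝ)
    (hv : ContDiffOn ℝ 2 v Ω) (s : E d) (hs' : s ∈ Ω) (a b B : ℝ) (ha : 1 ≤ a) (hb : 1 ≤ b)
    (hB : ∀ t ∈ uIcc a b, ‖fderiv ℝ v (t • s)‖ ≤ B) : |v (a • s) - v (b • s)| ≤ B * |a - b| * ‖s‖ := by
  have hmem : ∀ t ∈ uIcc a b, t • s ∈ Ω := by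
    intro t ht
    have h1 : 1 ≤ t := le_trans (le_inf ha hb) ht.1
    exact (star_mem Ω hs t h1).1 s hs'
  have hder : ∀ t ∈ uIcc a b, HasDerivWithinAt (fun t : ℝ => v (t • s)) (fderiv ℝ v (t • s) s)
      (uIcc a b) t := by
    intro t ht
    have h1 : DifferentiableAt ℝ v (t • s) :=
      (hv.differentiableOn (by norm_num)).differentiableAt (hΩ.mem_nhds (hmem t ht))
    have h2 : HasDerivAt (fun t : ℝ => t • s) s t := by
      simpa using (hasDerivAt_id t).smul_const s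
    exact (h1.hasFDerivAt.comp_hasDerivAt t h2).hasDerivWithinAt
  have hbd : ∀ t ∈ uIcc a b, ‖fderiv ℝ v (t • s) s‖ ≤ B * ‖s‖ := by
    intro t ht
    exact ((fderiv ℝ v (t • s)).le_opNorm s).trans
      (mul_le_mul_of_nonneg_right (hB t ht) (norm_nonneg s))
  have h3 := Convex.norm_image_sub_le_of_norm_hasDerivWithin_le hder hbd (convex_uIcc a b)
    right_mem_uIcc left_mem_uIcc
  rw [Real.norm_eq_abs, Real.norm_eq_abs] at h3
  refine h3.trans (le_of_eq ?_)
  ring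

end

end ExtStar
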