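import Pool.Agent.H631.ES.Defs
import Pool.Agent.H631.ES.X18
import Pool.Agent.H631.ES.X41
import Pool.Agent.H631.ES.X42

open Set Metric Filter Topology MeasureTheory

namespace ExtStar

noncomputable section

/-! TARGET: prove the following -/

theorem log_diff_aux_os (a b ρ : ℝ) (ha : 0 ≤ a) (hb : 0 ≤ b) (hρ : 0 < ρ) (hab : |a - b| ≤ ρ) :
    |Real.log (1 + a) - Real.log (1 + b)| * a ≤ ρ * (1 + ρ) := by
  have hlog : ∀ x y : ℝ, 0 ≤ y → y ≤ x → Real.log (1+x) - Real.log (1+y) ≤ (x-y)/(1+y) := by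
    intro x y hy hxy
    rw [← Real.log_div (by linarith) (by linarith)]
    calc Real.log ((1+x)/(1+y)) ≤ (1+x)/(1+y) - 1 :=
          Real.log_le_sub_one_of_pos (div_pos (by linarith) (by linarith))
      _ = (x-y)/(1+y) := by
          have : (1+y) ≠ 0 := by linarith
          field_simp; ring
  rcases le_total b a with h | h
  · have h0 : 0 ≤ Real.log (1+a) - Real.log (1+b) :=
      sub_nonneg.mpr (Real.log_le_log (by linarith) (by linarith))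
    rw [abs_of_nonneg h0]
    have h1 := hlog a b hb h
    have h2 : a - b ≤ ρ := (le_abs_self _).trans hab
    have h3 : (a-b)/(1+b) ≤ ρ/(1+b) := div_le_div_of_nonneg_right h2 (by linarith)
    calc _ ≤ ρ/(1+b) * a := mul_le_mul_of_nonneg_right (h1.trans h3) ha
      _ = ρ * (a/(1+b)) := by ring
      _ ≤ ρ * (1+ρ) := by
        refine mul_le_mul_of_nonneg_left ?_ hρ.le
        rw [div_le_iff₀ (by linarith)]
        nlinarith [mul_nonneg hb hρ.le]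
  · rw [abs_sub_comm]
    have h0 : 0 ≤ Real.log (1+b) - Real.log (1+a) :=
      sub_nonneg.mpr (Real.log_le_log (by linarith) (by linarith))
    rw [abs_of_nonneg h0]
    have h1 := hlog b a ha h
    have h2 : b - a ≤ ρ := by have := neg_abs_le (a-b); linarith
    have h3 : (b-a)/(1+a) ≤ ρ/(1+a) := div_le_div_of_nonneg_right h2 (by linarith)
    calc _ ≤ ρ/(1+a) * a := mul_le_mul_of_nonneg_right (h1.trans h3) ha
      _ = ρ * (a/(1+a)) := by ring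
      _ ≤ ρ * (1+ρ) := by
        refine mul_le_mul_of_nonneg_left ?_ hρ.le
        rw [div_le_iff₀ (by linarith)]
        nlinarith [mul_nonneg ha hρ.le]

theorem one_step {d : ℕ} (f : ℝ → ℝ) (L c ε c₁ : ℝ) (Ω : Set (E d)) (r : ℝ) (h : Ctx f L c ε c₁ Ω r)
    (k₁ k₀ : ℝ) (hk₁ : 1 < k₁) (hk₀ : k₁ ≤ k₀)
    (hA : ∀ u v : E d → ℝ, Sol f Ω u → Sol f Ω v → ∀ k : ℝ, k₀ ≤ k → ∀ s ∈ Ω, u s ≤ v (k • s)) :
    ∃ δ₀ : ℝ, 0 < δ₀ ∧ ∀ δ : ℝ, 0 < δ → δ ≤ δ₀ → ∃ η : ℝ, 0 < η ∧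
      ∀ u v : E d → ℝ, Sol f Ω u → Sol f Ω v → ∀ t t' : ℝ, 0 ≤ t' → t' ≤ t → t ≤ k₀ → t - t' ≤ η →
        (∀ s ∈ Ω, u s ≤ v ((k₁ + δ * Real.log (1 + ‖s‖) + t) • s)) →
        ∀ s ∈ Ω, u s ≤ v ((k₁ + δ * Real.log (1 + ‖s‖) + t') • s) := by
  obtain ⟨ρ₀, r₃, C, c₄, hρ₀, hr₃, hC, hc₄, hKρ, hloc⟩ :=
    loc f L c ε c₁ Ω r h k₁ (2*k₀) hk₁ (by linarith)
  obtain ⟨-, -, hΩ, hstar, -, -, -⟩ := id h
  obtain ⟨M, hM⟩ : ∃ M : ℝ, M = min (r₃/8) (c₄/(2*C)) := ⟨_, rfl⟩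
  have hMpos : 0 < M := by rw [hM]; exact lt_min (by positivity) (by positivity)
  have hM1 : M ≤ r₃/8 := hM ▸ min_le_left _ _
  have hM2 : C * (2*M) ≤ c₄ := by
    have : M ≤ c₄/(2*C) := hM ▸ min_le_right _ _
    rw [le_div_iff₀ (by positivity)] at this
    linarith
  refine ⟨M/(ρ₀*(1+ρ₀)), by positivity, ?_⟩
  intro δ hδ hδ'
  have hδM : δ * (ρ₀*(1+ρ₀)) ≤ M := by rwa [le_div_iff₀ (by positivity)] at hδ'
  obtain ⟨Rb, hRb⟩ : ∃ Rb : ℝ, Rb = Real.exp ((k₀-k₁)/δ) - 1 := ⟨_, rfl⟩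
  have hRb0 : 0 ≤ Rb := by
    have := Real.one_le_exp (x := (k₀-k₁)/δ) (div_nonneg (by linarith) hδ.le)
    linarith
  refine ⟨M/(Rb+ρ₀+1), by positivity, ?_⟩
  intro u v hu hv t t' ht' htt' htk hη H s₀ hs₀
  have hn0 : 0 ≤ ‖s₀‖ := norm_nonneg s₀
  have hlogpos : 0 ≤ Real.log (1+‖s₀‖) := Real.log_nonneg (by linarith)
  rcases le_or_gt Rb ‖s₀‖ with hcase | hcase
  · apply hA u v hu hv _ _ s₀ hs₀
    have h1 : Real.exp ((k₀-k₁)/δ) ≤ 1 + ‖s₀‖ := by linarith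
    have h2 : (k₀-k₁)/δ ≤ Real.log (1+‖s₀‖) :=
      (Real.le_log_iff_exp_le (by linarith)).mpr h1
    rw [div_le_iff₀ hδ] at h2
    nlinarith
  · obtain ⟨k, hk⟩ : ∃ k : ℝ, k = k₁ + δ * Real.log (1+‖s₀‖) + t' := ⟨_, rfl⟩
    rw [← hk]
    have hk1 : k₁ ≤ k := by rw [hk]; nlinarith [mul_nonneg hδ.le hlogpos]
    have hk2 : k ≤ 2*k₀ := by
      have h1 : 1 + ‖s₀‖ ≤ Real.exp ((k₀-k₁)/δ) := by linarith
      have h2 : Real.log (1+‖s₀‖) ≤ (k₀-k₁)/δ :=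
        (Real.log_le_iff_le_exp (by linarith)).mpr h1
      rw [le_div_iff₀ hδ] at h2
      rw [hk]; nlinarith
    obtain ⟨m, hm, hfd, hmu⟩ := hloc u v hu hv k hk1 hk2 s₀ hs₀
    have hCm : 0 ≤ C * m := mul_nonneg hC.le hm
    apply hmu (C*m*(2*M)) (by positivity) (by nlinarith)
    rintro s ⟨hsΩ, hsb⟩
    have hss : ‖s - s₀‖ < ρ₀ := by rw [← dist_eq_norm]; exact hsb
    have hsn : |‖s‖ - ‖s₀‖| ≤ ρ₀ := (abs_norm_sub_norm_le _ _).trans hss.le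
    have hs0 : 0 ≤ ‖s‖ := norm_nonneg s
    have hsn2 : ‖s‖ ≤ Rb + ρ₀ := by
      have := (le_abs_self _).trans hsn
      linarith
    obtain ⟨k', hk'⟩ : ∃ k' : ℝ, k' = k₁ + δ * Real.log (1+‖s‖) + t := ⟨_, rfl⟩
    have hlogs : 0 ≤ Real.log (1+‖s‖) := Real.log_nonneg (by linarith)
    have hk'1 : k₁ ≤ k' := by rw [hk']; nlinarith [mul_nonneg hδ.le hlogs]
    have hH : u s ≤ v (k' • s) := by rw [hk']; exact H s hsΩ
    have hdiff : |k - k'| * ‖s‖ ≤ 2*M := by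
      have e1 : |k - k'| ≤ δ * |Real.log (1+‖s‖) - Real.log (1+‖s₀‖)| + M/(Rb+ρ₀+1) := by
        have e2 : k - k' = -(δ * (Real.log (1+‖s‖) - Real.log (1+‖s₀‖))) + -(t - t') := by
          rw [hk, hk']; ring
        rw [e2]
        refine (abs_add_le _ _).trans ?_
        rw [abs_neg, abs_neg, abs_mul, abs_of_pos hδ, abs_of_nonneg (by linarith : 0 ≤ t - t')]
        linarith
      have e3 := log_diff_aux_os ‖s‖ ‖s₀‖ ρ₀ hs0 hn0 hρ₀ hsn
      have e4 : M/(Rb+ρ₀+1) * ‖s‖ ≤ M := by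
        rw [div_mul_eq_mul_div, div_le_iff₀ (by positivity)]
        nlinarith
      calc |k - k'| * ‖s‖ ≤ (δ * |Real.log (1+‖s‖) - Real.log (1+‖s₀‖)| + M/(Rb+ρ₀+1)) * ‖s‖ :=
            mul_le_mul_of_nonneg_right e1 hs0
        _ = δ * (|Real.log (1+‖s‖) - Real.log (1+‖s₀‖)| * ‖s‖) + M/(Rb+ρ₀+1) * ‖s‖ := by ring
        _ ≤ δ * (ρ₀ * (1+ρ₀)) + M := add_le_add (mul_le_mul_of_nonneg_left e3 hδ.le) e4
        _ ≤ 2*M := by linarith
    have hray := ray_lip Ω hΩ hstar v hv.1 s hsΩ k k' (C*m) (by linarith) (by linarith) (by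
      intro τ hτ
      have hτ1 : min k k' ≤ τ := hτ.1
      have hτge : 1 ≤ τ := le_trans (le_min (by linarith) (by linarith)) hτ1
      apply hfd
      refine ⟨(star_mem Ω hstar τ hτge).1 s hsΩ, ?_⟩
      rw [mem_ball, dist_eq_norm]
      have hτk : |τ - k| ≤ |k - k'| := by
        have := abs_sub_left_of_mem_uIcc hτ
        rw [abs_sub_comm k k']
        exact this
      have e5 : τ • s - k • s₀ = (τ - k) • s + k • (s - s₀) := by
        rw [sub_smul, smul_sub]; abel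
      rw [e5]
      have hkpos : 0 < k := by linarith
      calc _ ≤ ‖(τ - k) • s‖ + ‖k • (s - s₀)‖ := norm_add_le _ _
        _ = |τ - k| * ‖s‖ + k * ‖s - s₀‖ := by
            rw [norm_smul, norm_smul, Real.norm_eq_abs, Real.norm_eq_abs, abs_of_pos hkpos]
        _ ≤ |k - k'| * ‖s‖ + 2 * k₀ * ρ₀ := by
            refine add_le_add (mul_le_mul_of_nonneg_right hτk hs0) ?_
            exact mul_le_mul hk2 hss.le (norm_nonneg _) (by linarith)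
        _ < r₃ := by linarith)
    have e6 : v (k' • s) - v (k • s) ≤ C*m*(2*M) := by
      calc v (k' • s) - v (k • s) ≤ |v (k • s) - v (k' • s)| := by
            rw [abs_sub_comm]; exact le_abs_self _
        _ ≤ C*m*|k-k'| * ‖s‖ := hray
        _ = C*m*(|k-k'| * ‖s‖) := by ring
        _ ≤ C*m*(2*M) := mul_le_mul_of_nonneg_left hdiff hCm
    linarith

end

end ExtStar
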