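import Pool.Agent.H631.ES.Defs
import Pool.Agent.H631.ES.X31
import Pool.Agent.H631.ES.X43

open Set Metric Filter Topology MeasureTheory

namespace ExtStar

noncomputable section

/-! TARGET: prove the following -/

theorem all_steps {d : ℕ} (f : ℝ → ℝ) (L c ε c₁ : ℝ) (Ω : Set (E d)) (r : ℝ) (h : Ctx f L c ε c₁ Ω r)
    (k₁ : ℝ) (hk₁ : 1 < k₁) : ∃ δ₀ : ℝ, 0 < δ₀ ∧ ∀ δ : ℝ, 0 < δ → δ ≤ δ₀ →
      ∀ u v : E d → ℝ, Sol f Ω u → Sol f Ω v →
        ∀ s ∈ Ω, u s ≤ v ((k₁ + δ * Real.log (1 + ‖s‖)) • s) := by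
  obtain ⟨kA, hkA1, hkA⟩ := stepA f L c ε c₁ Ω r h
  set k₀ : ℝ := max k₁ kA with hk₀
  have hk₀1 : k₁ ≤ k₀ := le_max_left _ _
  have hk₀2 : kA ≤ k₀ := le_max_right _ _
  have hA : ∀ u v : E d → ℝ, Sol f Ω u → Sol f Ω v → ∀ k : ℝ, k₀ ≤ k →
      ∀ s ∈ Ω, u s ≤ v (k • s) := fun u v hu hv k hk => hkA u v hu hv k (hk₀2.trans hk)
  obtain ⟨δ₀, hδ₀, hstep⟩ := one_step f L c ε c₁ Ω r h k₁ k₀ hk₁ hk₀1 hA
  refine ⟨δ₀, hδ₀, ?_⟩
  intro δ hδ hδ' u v hu hv
  obtain ⟨η, hη, hη'⟩ := hstep δ hδ hδ'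
  have hk₀pos : 0 < k₀ := by linarith
  have hlog : ∀ s : E d, 0 ≤ Real.log (1 + ‖s‖) := by
    intro s
    apply Real.log_nonneg
    have := norm_nonneg s
    linarith
  have claim : ∀ n : ℕ, ∀ s ∈ Ω,
      u s ≤ v ((k₁ + δ * Real.log (1 + ‖s‖) + max (k₀ - n * η) 0) • s) := by
    intro n
    induction n with
    | zero =>
      intro s hs
      apply hA u v hu hv _ _ s hs
      have h1 := hlog s
      have h2 : max (k₀ - ((0 : ℕ) : ℝ) * η) 0 = k₀ := by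
        rw [Nat.cast_zero, zero_mul, sub_zero]
        exact max_eq_left hk₀pos.le
      rw [h2]
      have h3 : 0 ≤ δ * Real.log (1 + ‖s‖) := mul_nonneg hδ.le h1
      linarith
    | succ n ih =>
      refine hη' u v hu hv (max (k₀ - n * η) 0) (max (k₀ - ((n + 1 : ℕ) : ℝ) * η) 0)
        (le_max_right _ _) ?_ ?_ ?_ ih
      · apply max_le_max _ le_rfl
        push_cast
        nlinarith
      · apply max_le _ hk₀pos.le
        have : 0 ≤ (n : ℝ) * η := mul_nonneg (Nat.cast_nonneg _) hη.le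
        linarith
      · rw [sub_le_iff_le_add]
        apply max_le
        · have := le_max_left (k₀ - ((n + 1 : ℕ) : ℝ) * η) 0
          push_cast at this ⊢
          nlinarith
        · have := le_max_right (k₀ - ((n + 1 : ℕ) : ℝ) * η) 0
          linarith
  obtain ⟨n, hn⟩ := exists_nat_ge (k₀ / η)
  intro s hs
  have h1 := claim n s hs
  have h2 : max (k₀ - n * η) 0 = 0 := by
    apply max_eq_right
    rw [div_le_iff₀ hη] at hn
    linarith
  rw [h2, add_zero] at h1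
  exact h1

end

end ExtStar
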