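import Pool.Agent.H631.ES.Defs
import Pool.Agent.H631.ES.X44

open Set Metric Filter Topology MeasureTheory

namespace ExtStar

noncomputable section

/-! TARGET: prove the following -/

theorem uniq0_aux {d : ℕ} (f : ℝ → ℝ) (L c ε c₁ : ℝ) (Ω : Set (E d)) (r : ℝ)
    (h : Ctx f L c ε c₁ Ω r)
    (u v : E d → ℝ) (hu : Sol f Ω u) (hv : Sol f Ω v) : ∀ s ∈ Ω, u s ≤ v s := by
  intro s hs
  have hopen : IsOpen Ω := h.2.2.1
  have hstar : StarConvex ℝ 0 Ωᶜ := h.2.2.2.1.2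
  have hmem : ∀ k : ℝ, 1 ≤ k → k • s ∈ Ω := by
    intro k hk
    by_contra hcon
    have h1 : k • s ∈ Ωᶜ := hcon
    have h2 := hstar.smul_mem h1 (inv_nonneg.mpr (by linarith)) (inv_le_one_of_one_le₀ hk)
    rw [smul_smul, inv_mul_cancel₀ (by linarith), one_smul] at h2
    exact h2 hs
  have hcont : ∀ x ∈ Ω, ContinuousAt v x := fun x hx =>
    hv.1.continuousOn.continuousAt (hopen.mem_nhds hx)
  have step1 : ∀ k₁ : ℝ, 1 < k₁ → u s ≤ v (k₁ • s) := by
    intro k₁ hk₁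
    obtain ⟨δ₀, hδ₀, H⟩ := all_steps f L c ε c₁ Ω r h k₁ hk₁
    have hc : ContinuousAt v (k₁ • s) := hcont _ (hmem k₁ hk₁.le)
    have hg : ContinuousAt (fun δ : ℝ => (k₁ + δ * Real.log (1 + ‖s‖)) • s) 0 := by
      apply Continuous.continuousAt
      fun_prop
    have hg0 : (fun δ : ℝ => (k₁ + δ * Real.log (1 + ‖s‖)) • s) 0 = k₁ • s := by simp
    have hcg : Tendsto (fun δ : ℝ => v ((k₁ + δ * Real.log (1 + ‖s‖)) • s)) (𝓝 0)
        (𝓝 (v (k₁ • s))) := by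
      have h3 : Tendsto (fun δ : ℝ => (k₁ + δ * Real.log (1 + ‖s‖)) • s) (𝓝 0) (𝓝 (k₁ • s)) := by
        have := hg.tendsto
        simp only [zero_mul, add_zero] at this
        exact this
      exact hc.tendsto.comp h3
    have hcg' : Tendsto (fun δ : ℝ => v ((k₁ + δ * Real.log (1 + ‖s‖)) • s)) (𝓝[>] 0)
        (𝓝 (v (k₁ • s))) := hcg.mono_left nhdsWithin_le_nhds
    refine ge_of_tendsto hcg' ?_
    filter_upwards [Ioc_mem_nhdsGT hδ₀] with δ hδ
    exact H δ hδ.1 hδ.2 u v hu hv s hs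
  have hlim : Tendsto (fun k : ℝ => v (k • s)) (𝓝[>] 1) (𝓝 (v s)) := by
    have h4 : Tendsto (fun k : ℝ => k • s) (𝓝 1) (𝓝 s) := by
      have : ContinuousAt (fun k : ℝ => k • s) 1 := by
        apply Continuous.continuousAt
        fun_prop
      have h5 := this.tendsto
      simp only [one_smul] at h5
      exact h5
    exact ((hcont s hs).tendsto.comp h4).mono_left nhdsWithin_le_nhds
  refine ge_of_tendsto hlim ?_
  filter_upwards [self_mem_nhdsWithin] with k hk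
  exact step1 k hk

theorem uniq0 {d : ℕ} (f : ℝ → ℝ) (L c ε c₁ : ℝ) (Ω : Set (E d)) (r : ℝ) (h : Ctx f L c ε c₁ Ω r)
    (u v : E d → ℝ) (hu : Sol f Ω u) (hv : Sol f Ω v) : ∀ s ∈ Ω, u s = v s := by
  intro s hs
  exact le_antisymm (uniq0_aux f L c ε c₁ Ω r h u v hu hv s hs)
    (uniq0_aux f L c ε c₁ Ω r h v u hv hu s hs)

end

end ExtStar
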