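import Pool.Agent.H631.ES.Defs
import Pool.Agent.H631.ES.X02
import Pool.Agent.H631.ES.X03
import Pool.Agent.H631.ES.X05

open Set Metric Filter Topology MeasureTheory

namespace ExtStar

noncomputable section

/-! TARGET: prove the following -/

theorem sol_le_one {d : ℕ} (f : ℝ → ℝ) (hf : React f) (Ω : Set (E d)) (hΩ : IsOpen Ω) (u : E d → ℝ)
    (h1 : ContDiffOn ℝ 2 u Ω) (h2 : ContinuousOn u (closure Ω)) (h3 : ∀ x ∈ frontier Ω, u x = 0)
    (h4 : ∀ x ∈ Ω, 0 < u x) (h5 : ∃ C : ℝ, ∀ x ∈ Ω, |u x| ≤ C) (h6 : ∀ x ∈ Ω, -lap u x = f (u x)) :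
    ∀ x ∈ Ω, u x ≤ 1 := by
  intro x₁ hx₁
  by_contra hcon
  push Not at hcon
  obtain ⟨C, hC⟩ := h5
  have hC1 : u x₁ ≤ C := (le_abs_self _).trans (hC x₁ hx₁)
  obtain ⟨s₀, hs₀⟩ : ∃ s₀ : ℝ, s₀ = (u x₁ + 1) / 2 := ⟨_, rfl⟩
  have hs1 : 1 < s₀ := by rw [hs₀]; linarith
  have hs2 : s₀ < u x₁ := by rw [hs₀]; linarith
  have hfc : Continuous f := hf.1.continuous
  have hne : (Icc s₀ C).Nonempty := ⟨s₀, le_rfl, by linarith⟩
  obtain ⟨sm, hsm, hmax⟩ := (isCompact_Icc (a := s₀) (b := C)).exists_isMaxOn hne hfc.continuousOn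
  obtain ⟨m, hm⟩ : ∃ m : ℝ, m = - f sm := ⟨_, rfl⟩
  have hm0 : 0 < m := by
    have := hf.2.2.2.1 sm (lt_of_lt_of_le hs1 hsm.1)
    rw [hm]; linarith
  have hfm : ∀ s ∈ Icc s₀ C, f s ≤ -m := by
    intro s hs
    have := hmax hs
    rw [hm]
    simpa using this
  obtain ⟨a, ha⟩ : ∃ a : ℝ, a = m / (4 * (d : ℝ) + 1) := ⟨_, rfl⟩
  have hd : (0:ℝ) ≤ (d : ℝ) := Nat.cast_nonneg d
  have hden : (0:ℝ) < 4 * (d : ℝ) + 1 := by linarith
  have ha0 : 0 < a := by rw [ha]; positivity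
  have had : a * (2 * (d : ℝ)) < m := by
    rw [ha, div_mul_eq_mul_div, div_lt_iff₀ hden]
    nlinarith
  obtain ⟨ρ, hρ⟩ : ∃ ρ : ℝ, ρ = Real.sqrt (C / a) := ⟨_, rfl⟩
  have hC0 : 0 < C := by linarith
  have hρ2 : a * ρ ^ 2 = C := by
    rw [hρ, Real.sq_sqrt (by positivity)]
    field_simp
  have hρ0 : 0 ≤ ρ := by rw [hρ]; exact Real.sqrt_nonneg _
  have hK : IsCompact (closedBall x₁ ρ ∩ closure Ω) :=
    (isCompact_closedBall x₁ ρ).inter_right isClosed_closure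
  obtain ⟨z, hz⟩ : ∃ z : E d → ℝ, z = fun y => (a * ‖y - x₁‖ ^ 2 + s₀) - u y := ⟨_, rfl⟩
  have hq : ContDiff ℝ 2 (fun y : E d => ‖y - x₁‖ ^ 2) := by
    have h1 : ContDiff ℝ 2 (fun y : E d => y - x₁) := contDiff_id.sub contDiff_const
    exact h1.norm_sq ℝ
  have hzc : ContinuousOn z (closedBall x₁ ρ ∩ closure Ω) := by
    rw [hz]
    refine ContinuousOn.sub ?_ (h2.mono inter_subset_right)
    exact ((hq.continuous.const_smul a).add continuous_const).continuousOn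
  have hmain := comp_compact (closedBall x₁ ρ ∩ closure Ω) hK z hzc (by
    intro x hxK hzx
    rw [hz] at hzx
    beta_reduce at hzx
    have hnn : 0 ≤ a * ‖x - x₁‖ ^ 2 := by positivity
    have hux : s₀ < u x := by linarith
    have hxΩ : x ∈ Ω := by
      by_contra hnot
      have hfr : x ∈ frontier Ω := by
        rw [frontier, hΩ.interior_eq]
        exact ⟨hxK.2, hnot⟩
      rw [h3 x hfr] at hux
      linarith
    have huC : u x ≤ C := (le_abs_self _).trans (hC x hxΩ)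
    have hlt : ‖x - x₁‖ < ρ := by
      have h7 : a * ‖x - x₁‖ ^ 2 < a * ρ ^ 2 := by rw [hρ2]; linarith
      have h8 : ‖x - x₁‖ ^ 2 < ρ ^ 2 := lt_of_mul_lt_mul_left h7 ha0.le
      exact lt_of_pow_lt_pow_left₀ 2 hρ0 h8
    have hnh : (ball x₁ ρ ∩ Ω) ∈ 𝓝 x :=
      (isOpen_ball.inter hΩ).mem_nhds ⟨by rwa [mem_ball, dist_eq_norm], hxΩ⟩
    have huat : ContDiffAt ℝ 2 u x := h1.contDiffAt (hΩ.mem_nhds hxΩ)
    have hqa : ContDiffAt ℝ 2 (fun y : E d => a * ‖y - x₁‖ ^ 2) x :=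
      contDiffAt_const.mul hq.contDiffAt
    have hga : ContDiffAt ℝ 2 (fun y : E d => a * ‖y - x₁‖ ^ 2 + s₀) x :=
      hqa.add contDiffAt_const
    refine ⟨?_, ?_, ?_⟩
    · exact mem_interior_iff_mem_nhds.mpr (Filter.mem_of_superset hnh
        (inter_subset_inter ball_subset_closedBall subset_closure))
    · rw [hz]; exact hga.sub huat
    · rw [hz, lap_sub (fun y : E d => a * ‖y - x₁‖ ^ 2 + s₀) u x hga huat,
        lap_add (fun y : E d => a * ‖y - x₁‖ ^ 2) (fun _ => s₀) x hqa contDiffAt_const,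
        lap_smul a (fun y : E d => ‖y - x₁‖ ^ 2) x hq.contDiffAt, lap_normsq, lap_const]
      have h9 := h6 x hxΩ
      have h10 := hfm (u x) ⟨hux.le, huC⟩
      linarith)
  have hfin := hmain x₁ ⟨mem_closedBall_self hρ0, subset_closure hx₁⟩
  rw [hz] at hfin
  simp at hfin
  linarith

end

end ExtStar
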