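import Pool.Agent.H631.ES.Defs
import Pool.Agent.H631.ES.X15
import Pool.Agent.H631.ES.X17
import Pool.Agent.H631.ES.X21
import Pool.Agent.H631.ES.X22
import Pool.Agent.H631.ES.X45

open Set Metric Filter Topology MeasureTheory

namespace ExtStar

noncomputable section

/-! TARGET: prove the following -/

theorem main :
  ∀ (d : ℕ) (γ : ℝ) (f : ℝ → ℝ) (Ω : Set (EuclideanSpace ℝ (Fin d))),
    0 < γ → γ ≤ 1 →
    ContDiff ℝ 1 f →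
    (∀ R : ℝ, ∃ C : ℝ, ∀ x y : ℝ, abs x ≤ R → abs y ≤ R →
        abs (deriv f x - deriv f y) ≤ C * (abs (x - y)) ^ γ) →
    f 0 = 0 → f 1 = 0 → (∀ s : ℝ, 1 < s → f s < 0) → deriv f 1 < 0 →
    (∀ s : ℝ, 0 < s → s < 1 → 0 < f s) → 0 < deriv f 0 →
    IsOpen Ω → IsConnected Ω →
    (∃ r : ℝ, 0 < r ∧ ∃ M : ℝ, ∀ p ∈ frontier Ω,
        ∃ ν : EuclideanSpace ℝ (Fin d), ‖ν‖ = 1 ∧
        ∃ φ : EuclideanSpace ℝ (Fin d) → ℝ, ContDiff ℝ 2 φ ∧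
          (∀ (y : EuclideanSpace ℝ (Fin d)) (t : ℝ), φ (y + t • ν) = φ y) ∧
          (∀ y : EuclideanSpace ℝ (Fin d),
              ‖iteratedFDeriv ℝ 1 φ y‖ ≤ M ∧ ‖iteratedFDeriv ℝ 2 φ y‖ ≤ M) ∧
          (∀ y z : EuclideanSpace ℝ (Fin d),
              ‖iteratedFDeriv ℝ 2 φ y - iteratedFDeriv ℝ 2 φ z‖ ≤ M * ‖y - z‖ ^ γ) ∧
          ∀ x ∈ Metric.ball p r, (x ∈ Ω ↔ φ (x - p) < inner ℝ (x - p) ν)) →
    (∃ x₀ ∈ Ωᶜ, StarConvex ℝ x₀ Ωᶜ) →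
    ∀ u v : EuclideanSpace ℝ (Fin d) → ℝ,
      (ContDiffOn ℝ 2 u Ω ∧ ContinuousOn u (closure Ω) ∧
        (∀ x ∈ frontier Ω, u x = 0) ∧ (∀ x ∈ Ω, 0 < u x) ∧
        (∃ C : ℝ, ∀ x ∈ Ω, abs (u x) ≤ C) ∧
        ∀ x ∈ Ω, -(Finset.univ.sum (fun i : Fin d => iteratedFDeriv ℝ 2 u x
            (fun _ => EuclideanSpace.single i (1 : ℝ)))) = f (u x)) →
      (ContDiffOn ℝ 2 v Ω ∧ ContinuousOn v (closure Ω) ∧
          (∀ x ∈ frontier Ω, v x = 0) ∧ (∀ x ∈ Ω, 0 < v x) ∧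
          (∃ C : ℝ, ∀ x ∈ Ω, abs (v x) ≤ C) ∧
          ∀ x ∈ Ω, -(Finset.univ.sum (fun i : Fin d => iteratedFDeriv ℝ 2 v x
              (fun _ => EuclideanSpace.single i (1 : ℝ)))) = f (v x)) →
        ∀ x ∈ Ω, v x = u x := by
  intro d γ f Ω hγ hγ1 hf1 hfH hf0 hf1' hfneg hfd1 hfpos hfd0 hΩ hconn hgr hst u v hu hv x hx
  obtain ⟨r, hr, M, hg⟩ := hgr
  obtain ⟨x₀, hx₀, hstar⟩ := hst
  obtain ⟨hu1, hu2, hu3, hu4, hu5, hu6⟩ := hu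
  obtain ⟨hv1, hv2, hv3, hv4, hv5, hv6⟩ := hv
  have hR : React f := ⟨hf1, hf0, hf1', hfneg, hfd1, hfpos, hfd0⟩
  obtain ⟨L, c, ε, c₁, hRC⟩ := react_const f hR
  obtain ⟨r', hr', hr'1, hBC⟩ := graph_BC Ω hΩ r M hr (fun p hp => by
    obtain ⟨ν, hν, φ, h1, h2, h3, h4, h5⟩ := hg p hp
    exact ⟨ν, hν, φ, h1, h2, h3, h5⟩)
  have hule := sol_le_one f hR Ω hΩ u hu1 hu2 hu3 hu4 hu5 hu6
  have hvle := sol_le_one f hR Ω hΩ v hv1 hv2 hv3 hv4 hv5 hv6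
  have hSu : Sol f Ω u := ⟨hu1, hu2, hu3, fun y hy => ⟨hu4 y hy, hule y hy⟩, hu6⟩
  have hSv : Sol f Ω v := ⟨hv1, hv2, hv3, fun y hy => ⟨hv4 y hy, hvle y hy⟩, hv6⟩
  have hstar0 : Star0 ((fun x => x + x₀) ⁻¹' Ω) := by
    refine ⟨?_, ?_⟩
    · change ¬ ((0 : E d) + x₀ ∈ Ω)
      rw [zero_add]
      exact hx₀
    · intro y hy a b ha hb hab
      have h1 : y + x₀ ∈ Ωᶜ := hy
      have h2 := hstar h1 ha hb hab
      change ¬ (a • (0 : E d) + b • y + x₀ ∈ Ω)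
      have h3 : a • (0 : E d) + b • y + x₀ = a • x₀ + b • (y + x₀) := by
        have h4 : x₀ = (a + b) • x₀ := by rw [hab, one_smul]
        calc a • (0 : E d) + b • y + x₀ = b • y + x₀ := by rw [smul_zero, zero_add]
          _ = b • y + (a + b) • x₀ := by rw [← h4]
          _ = a • x₀ + b • (y + x₀) := by rw [add_smul, smul_add]; abel
      rw [h3]
      exact h2
  have hctx : Ctx f L c ε c₁ ((fun x => x + x₀) ⁻¹' Ω) r' :=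
    ⟨hR, hRC, hΩ.preimage (continuous_id.add continuous_const), hstar0, BC_shift Ω x₀ r' hBC, hr',
      hr'1⟩
  have key := uniq0 f L c ε c₁ ((fun x => x + x₀) ⁻¹' Ω) r' hctx (fun x => u (x + x₀))
    (fun x => v (x + x₀)) (Sol_shift f Ω x₀ u hSu) (Sol_shift f Ω x₀ v hSv) (x - x₀)
    (by change x - x₀ + x₀ ∈ Ω; rw [sub_add_cancel]; exact hx)
  have key2 : u (x - x₀ + x₀) = v (x - x₀ + x₀) := key
  rw [sub_add_cancel] at key2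
  exact key2.symm

end

end ExtStar
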