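import Pool.Agent.H631.ES.X01
import Pool.Agent.H631.ES.X02
import Pool.Agent.H631.ES.X03
import Pool.Agent.H631.ES.X04
import Pool.Agent.H631.ES.X05
import Pool.Agent.H631.ES.X06
import Pool.Agent.H631.ES.X07
import Pool.Agent.H631.ES.X08
import Pool.Agent.H631.ES.X09
import Pool.Agent.H631.ES.X10
import Pool.Agent.H631.ES.X11
import Pool.Agent.H631.ES.X12
import Pool.Agent.H631.ES.X13
import Pool.Agent.H631.ES.X14
import Pool.Agent.H631.ES.X15
import Pool.Agent.H631.ES.X16
import Pool.Agent.H631.ES.X17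
import Pool.Agent.H631.ES.X18
import Pool.Agent.H631.ES.X19
import Pool.Agent.H631.ES.X20
import Pool.Agent.H631.ES.X21
import Pool.Agent.H631.ES.X22
import Pool.Agent.H631.ES.X23
import Pool.Agent.H631.ES.X24
import Pool.Agent.H631.ES.X25
import Pool.Agent.H631.ES.X26
import Pool.Agent.H631.ES.X27
import Pool.Agent.H631.ES.X28
import Pool.Agent.H631.ES.X29
import Pool.Agent.H631.ES.X30
import Pool.Agent.H631.ES.X31
import Pool.Agent.H631.ES.X32
import Pool.Agent.H631.ES.X33
import Pool.Agent.H631.ES.X34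
import Pool.Agent.H631.ES.X35
import Pool.Agent.H631.ES.X36
import Pool.Agent.H631.ES.X37
import Pool.Agent.H631.ES.X38
import Pool.Agent.H631.ES.X39
import Pool.Agent.H631.ES.X40
import Pool.Agent.H631.ES.X41
import Pool.Agent.H631.ES.X42
import Pool.Agent.H631.ES.X43
import Pool.Agent.H631.ES.X44
import Pool.Agent.H631.ES.X45
import Pool.Agent.H631.ES.X46
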