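import Mathlib

set_option autoImplicit false

open Set Metric Filter Topology MeasureTheory

namespace ExtStar

noncomputable section

abbrev E (d : ℕ) := EuclideanSpace ℝ (Fin d)

/-- the Laplacian, as a sum of pure second derivatives -/
def lap {d : ℕ} (u : E d → ℝ) (x : E d) : ℝ :=
  Finset.univ.sum (fun i : Fin d => iteratedFDeriv ℝ 2 u x (fun _ => EuclideanSpace.single i (1 : ℝ)))

/-- a positive solution with values in `(0,1]` of `-Δu = f(u)` in `Ω`, `u = 0` on the boundary -/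
def Sol {d : ℕ} (f : ℝ → ℝ) (Ω : Set (E d)) (u : E d → ℝ) : Prop :=
  ContDiffOn ℝ 2 u Ω ∧ ContinuousOn u (closure Ω) ∧ (∀ x ∈ frontier Ω, u x = 0) ∧
    (∀ x ∈ Ω, 0 < u x ∧ u x ≤ 1) ∧ ∀ x ∈ Ω, -lap u x = f (u x)

/-- positive reactions -/
def React (f : ℝ → ℝ) : Prop :=
  ContDiff ℝ 1 f ∧ f 0 = 0 ∧ f 1 = 0 ∧ (∀ s : ℝ, 1 < s → f s < 0) ∧ deriv f 1 < 0 ∧
    (∀ s : ℝ, 0 < s → s < 1 → 0 < f s) ∧ 0 < deriv f 0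

/-- two sided ball condition of radius `r` at the boundary point `q` with inner normal `ν` -/
def TB {d : ℕ} (Ω : Set (E d)) (r : ℝ) (q ν : E d) : Prop :=
  q ∈ frontier Ω ∧ ‖ν‖ = 1 ∧ ball (q + r • ν) r ⊆ Ω ∧ ball (q - r • ν) r ⊆ Ωᶜ

/-- two sided ball condition at every boundary point -/
def BC {d : ℕ} (Ω : Set (E d)) (r : ℝ) : Prop :=
  ∀ q ∈ frontier Ω, ∃ ν : E d, TB Ω r q ν

/-- the complement is star shaped about the origin -/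
def Star0 {d : ℕ} (Ω : Set (E d)) : Prop := (0 : E d) ∈ Ωᶜ ∧ StarConvex ℝ 0 Ωᶜ

/-- `p` satisfies `|Δp| ≤ L p`, `p ≥ 0` on `U` -/
def Quasi {d : ℕ} (L : ℝ) (U : Set (E d)) (p : E d → ℝ) : Prop :=
  ContDiffOn ℝ 2 p U ∧ ∀ x ∈ U, 0 ≤ p x ∧ |lap p x| ≤ L * p x

/-- compactly supported weights for the mean value property -/
def eta {d : ℕ} (x : E d) : ℝ := (max 0 (1 - ‖x‖ ^ 2)) ^ 3
def wgt {d : ℕ} (x : E d) : ℝ := (max 0 (1 - ‖x‖ ^ 2)) ^ 4 / 8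

/-- constants attached to a reaction -/
def RC (f : ℝ → ℝ) (L c ε c₁ : ℝ) : Prop :=
  0 < L ∧ 0 < c ∧ 0 < ε ∧ ε < 1 ∧ 0 < c₁ ∧ f 0 = 0 ∧ f 1 = 0 ∧
    (∀ a ∈ Icc (0 : ℝ) 1, ∀ b ∈ Icc (0 : ℝ) 1, |f a - f b| ≤ L * |a - b|) ∧
    (∀ s ∈ Icc (0 : ℝ) 1, c * min s (1 - s) ≤ f s) ∧
    (∀ a b : ℝ, 1 - ε ≤ a → a ≤ b → b ≤ 1 → c₁ * (b - a) ≤ f a - f b)

/-- standing assumptions -/
def Ctx {d : ℕ} (f : ℝ → ℝ) (L c ε c₁ : ℝ) (Ω : Set (E d)) (r : ℝ) : Prop :=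
  React f ∧ RC f L c ε c₁ ∧ IsOpen Ω ∧ Star0 Ω ∧ BC Ω r ∧ 0 < r ∧ r ≤ 1

end

end ExtStar
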