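import Pool.Agent.H631.ES.All

open Set Metric Filter Topology MeasureTheory

namespace ExtStar

noncomputable section

theorem dil_le {d : ℕ} (f : ℝ → ℝ) (L c ε c₁ : ℝ) (Ω : Set (E d)) (r : ℝ)
    (h : Ctx f L c ε c₁ Ω r)
    (u v : E d → ℝ) (hu : Sol f Ω u) (hv : Sol f Ω v) (s : E d) (hs : s ∈ Ω) (k₁ : ℝ)
    (hk : 1 ≤ k₁) : k₁ • s ∈ Ω ∧ u s ≤ v (k₁ • s) := by
  have hopen : IsOpen Ω := h.2.2.1
  have hstar : StarConvex ℝ 0 Ωᶜ := h.2.2.2.1.2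
  have hmem : ∀ k : ℝ, 1 ≤ k → k • s ∈ Ω := (fun k hk => (star_mem Ω h.2.2.2.1 k hk).1 s hs)
  refine ⟨hmem k₁ hk, ?_⟩
  rcases eq_or_lt_of_le hk with rfl | hk₁
  · rw [one_smul]
    exact uniq0_aux f L c ε c₁ Ω r h u v hu hv s hs
  have hcont : ∀ x ∈ Ω, ContinuousAt v x := fun x hx =>
    hv.1.continuousOn.continuousAt (hopen.mem_nhds hx)
  obtain ⟨δ₀, hδ₀, H⟩ := all_steps f L c ε c₁ Ω r h k₁ hk₁
  have hc : ContinuousAt v (k₁ • s) := hcont _ (hmem k₁ hk₁.le)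
  have hg : ContinuousAt (fun δ : ℝ => (k₁ + δ * Real.log (1 + ‖s‖)) • s) 0 := by
    apply Continuous.continuousAt
    fun_prop
  have hcg : Tendsto (fun δ : ℝ => v ((k₁ + δ * Real.log (1 + ‖s‖)) • s)) (𝓝 0)
      (𝓝 (v (k₁ • s))) := by
    have h3 : Tendsto (fun δ : ℝ => (k₁ + δ * Real.log (1 + ‖s‖)) • s) (𝓝 0) (𝓝 (k₁ • s)) := by
      have := hg.tendsto
      simp only [zero_mul, add_zero] at this
      exact this
    exact hc.tendsto.comp h3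
  have hcg' : Tendsto (fun δ : ℝ => v ((k₁ + δ * Real.log (1 + ‖s‖)) • s)) (𝓝[>] 0)
      (𝓝 (v (k₁ • s))) := hcg.mono_left nhdsWithin_le_nhds
  refine ge_of_tendsto hcg' ?_
  filter_upwards [Ioc_mem_nhdsGT hδ₀] with δ hδ
  exact H δ hδ.1 hδ.2 u v hu hv s hs

/-- positive bounded solutions -/
def PBS {d : ℕ} (f : ℝ → ℝ) (Ω : Set (E d)) (u : E d → ℝ) : Prop :=
  ContDiffOn ℝ 2 u Ω ∧ ContinuousOn u (closure Ω) ∧ (∀ x ∈ frontier Ω, u x = 0) ∧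
    (∀ x ∈ Ω, 0 < u x) ∧ (∃ C : ℝ, ∀ x ∈ Ω, |u x| ≤ C) ∧ ∀ x ∈ Ω, -lap u x = f (u x)

theorem final (d : ℕ) (γ : ℝ) (f : ℝ → ℝ) (Ω : Set (E d)) (hγ : 0 < γ) (hγ1 : γ ≤ 1)
    (hf : ContDiff ℝ 1 f ∧
      (∀ R : ℝ, ∃ C : ℝ, ∀ x y : ℝ, |x| ≤ R → |y| ≤ R → |deriv f x - deriv f y| ≤ C * |x - y| ^ γ) ∧
      f 0 = 0 ∧ f 1 = 0 ∧ (∀ s : ℝ, 1 < s → f s < 0) ∧ deriv f 1 < 0 ∧
      (∀ s : ℝ, 0 < s → s < 1 → 0 < f s) ∧ 0 < deriv f 0) (hΩ : IsOpen Ω)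
    (hC2 : ∃ r : ℝ, 0 < r ∧ ∃ M : ℝ, ∀ p ∈ frontier Ω, ∃ ν : E d, ‖ν‖ = 1 ∧
      ∃ φ : E d → ℝ, ContDiff ℝ 2 φ ∧
      (∀ (y : E d) (t : ℝ), φ (y + t • ν) = φ y) ∧
      (∀ y : E d, ‖iteratedFDeriv ℝ 1 φ y‖ ≤ M ∧ ‖iteratedFDeriv ℝ 2 φ y‖ ≤ M) ∧
      (∀ y z : E d, ‖iteratedFDeriv ℝ 2 φ y - iteratedFDeriv ℝ 2 φ z‖ ≤ M * ‖y - z‖ ^ γ) ∧
      ∀ x ∈ Metric.ball p r, (x ∈ Ω ↔ φ (x - p) < inner ℝ (x - p) ν))
    (x₀ : E d) (hstar : StarConvex ℝ x₀ Ωᶜ) :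
    (∀ u v : E d → ℝ, PBS f Ω u → PBS f Ω v → ∀ x ∈ Ω, u x = v x) ∧
      ∀ u : E d → ℝ, PBS f Ω u → ∀ x ∈ Ω, ∀ k : ℝ, 1 ≤ k →
        x₀ + k • (x - x₀) ∈ Ω ∧ u x ≤ u (x₀ + k • (x - x₀)) := by
  obtain ⟨f1, f2, f3, f4, f5, f6, f7, f8⟩ := hf
  have hR : React f := ⟨f1, f3, f4, f5, f6, f7, f8⟩
  have hSol : ∀ w : E d → ℝ, PBS f Ω w → Sol f Ω w := by
    intro w hw
    obtain ⟨w1, w2, w3, w4, w5, w6⟩ := hw
    exact ⟨w1, w2, w3, fun z hz => ⟨w4 z hz, sol_le_one f hR Ω hΩ w w1 w2 w3 w4 w5 w6 z hz⟩, w6⟩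
  by_cases hne : (Ωᶜ).Nonempty
  · obtain ⟨y, hy⟩ := hne
    have hx₀ : x₀ ∈ Ωᶜ := by
      have := hstar hy (zero_le_one) (le_refl (0 : ℝ)) (by norm_num)
      simpa using this
    obtain ⟨r, hr, M, hg⟩ := hC2
    obtain ⟨L, c, ε, c₁, hRC⟩ := react_const f hR
    obtain ⟨r', hr', hr'1, hBC⟩ := graph_BC Ω hΩ r M hr (fun p hp => by
      obtain ⟨ν, hν, φ, h1, h2, h3, h4, h5⟩ := hg p hp
      exact ⟨ν, hν, φ, h1, h2, h3, h5⟩)
    have hstar0 : Star0 ((fun x => x + x₀) ⁻¹' Ω) := by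
      refine ⟨?_, ?_⟩
      · change ¬ ((0 : E d) + x₀ ∈ Ω)
        rw [zero_add]
        exact hx₀
      · intro y hy a b ha hb hab
        have h1 : y + x₀ ∈ Ωᶜ := hy
        have h2 := hstar h1 ha hb hab
        change ¬ (a • (0 : E d) + b • y + x₀ ∈ Ω)
        have h3 : a • (0 : E d) + b • y + x₀ = a • x₀ + b • (y + x₀) := by
          have h4 : x₀ = (a + b) • x₀ := by rw [hab, one_smul]
          calc a • (0 : E d) + b • y + x₀ = b • y + x₀ := by rw [smul_zero, zero_add]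
            _ = b • y + (a + b) • x₀ := by rw [← h4]
            _ = a • x₀ + b • (y + x₀) := by rw [add_smul, smul_add]; abel
        rw [h3]
        exact h2
    have hctx : Ctx f L c ε c₁ ((fun x => x + x₀) ⁻¹' Ω) r' :=
      ⟨hR, hRC, hΩ.preimage (continuous_id.add continuous_const), hstar0, BC_shift Ω x₀ r' hBC,
        hr', hr'1⟩
    have key : ∀ u v : E d → ℝ, PBS f Ω u → PBS f Ω v → ∀ x ∈ Ω, ∀ k : ℝ, 1 ≤ k →
        x₀ + k • (x - x₀) ∈ Ω ∧ u x ≤ v (x₀ + k • (x - x₀)) := by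
      intro u v hu hv x hx k hk
      have h1 := dil_le f L c ε c₁ ((fun x => x + x₀) ⁻¹' Ω) r' hctx (fun x => u (x + x₀))
        (fun x => v (x + x₀)) (Sol_shift f Ω x₀ u (hSol u hu)) (Sol_shift f Ω x₀ v (hSol v hv))
        (x - x₀) (by change x - x₀ + x₀ ∈ Ω; rw [sub_add_cancel]; exact hx) k hk
      obtain ⟨h2, h3⟩ := h1
      have h2' : k • (x - x₀) + x₀ ∈ Ω := h2
      have h3' : u (x - x₀ + x₀) ≤ v (k • (x - x₀) + x₀) := h3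
      rw [sub_add_cancel, add_comm (k • (x - x₀)) x₀] at h3'
      rw [add_comm (k • (x - x₀)) x₀] at h2'
      exact ⟨h2', h3'⟩
    refine ⟨?_, fun u hu x hx k hk => key u u hu hu x hx k hk⟩
    intro u v hu hv x hx
    have h1 := (key u v hu hv x hx 1 le_rfl).2
    have h2 := (key v u hv hu x hx 1 le_rfl).2
    rw [one_smul, add_sub_cancel] at h1 h2
    exact le_antisymm h1 h2
  · have huniv : Ω = univ := by
      rw [Set.not_nonempty_iff_eq_empty] at hne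
      exact Set.compl_empty_iff.mp hne
    have key : ∀ w : E d → ℝ, PBS f Ω w → ∀ x ∈ Ω, w x = 1 := by
      intro w hw x hx
      have hS := hSol w hw
      refine le_antisymm (hS.2.2.2.1 x hx).2 ?_
      refine le_of_forall_pos_lt_add fun e he => ?_
      have he' : 0 < min (e / 2) (1 / 2) := by positivity
      have he1 : min (e / 2) (1 / 2) < 1 := lt_of_le_of_lt (min_le_right _ _) (by norm_num)
      obtain ⟨R, hR0, hR1⟩ := near_one d f hR _ he' he1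
      have := hR1 Ω w x hΩ hS (by rw [huniv]; exact subset_univ _)
      have h2 := min_le_left (e / 2) (1 / 2 : ℝ)
      linarith
    refine ⟨fun u v hu hv x hx => by rw [key u hu x hx, key v hv x hx], ?_⟩
    intro u hu x hx k hk
    have hm : x₀ + k • (x - x₀) ∈ Ω := by rw [huniv]; exact mem_univ _
    exact ⟨hm, by rw [key u hu x hx, key u hu _ hm]⟩

end

end ExtStar
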